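import Pool.Agent.Helper47_Angle.Content

/-!
# Module M8: sets of positive dyadic content contain compact sets of positive content
-/

set_option autoImplicit false

namespace Pool.Agent.H47A

open scoped BigOperators Classical ENNReal Topology
open MeasureTheory Filter

noncomputable section

namespace Cap

variable {n : ℕ} {s : ℝ}

theorem exists_child {Q : Dy n} {x : En n} (hx : x ∈ cube Q) :
    ∃ e : Fin n → Fin 2, x ∈ cube (child Q e) := by
  have hx' : ∀ i, ⌊(2 : ℝ) ^ Q.1 * x i⌋ = Q.2 i := by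
    intro i
    have := congrArg Prod.snd hx
    exact congrFun this i
  have key : ∀ i, ∃ e : Fin 2, ⌊(2 : ℝ) ^ (Q.1 + 1) * x i⌋ = 2 * Q.2 i + (e : ℤ) := by
    intro i
    have h1 := Int.floor_eq_iff.1 (hx' i)
    have e1 : (2 : ℝ) ^ (Q.1 + 1) * x i = 2 * ((2 : ℝ) ^ Q.1 * x i) := by ring
    by_cases h : (2 : ℝ) ^ Q.1 * x i < (Q.2 i : ℝ) + 1 / 2
    · refine ⟨0, ?_⟩
      rw [Int.floor_eq_iff, e1]
      push_cast
      constructor <;> simp <;> linarith [h1.1]
    · refine ⟨1, ?_⟩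
      rw [Int.floor_eq_iff, e1]
      push_cast
      push Not at h
      constructor <;> simp <;> linarith [h1.2]
  choose e he using key
  refine ⟨e, ?_⟩
  show cell (Q.1 + 1) x = child Q e
  rw [cell, child]
  congr 1
  funext i
  exact he i

theorem wt_ne_top (Q : Dy n) : wt s Q ≠ ⊤ := ENNReal.ofReal_ne_top

theorem mem_cube_cell (k : ℕ) (x : En n) : x ∈ cube (cell k x) := rfl

/-- an efficient cover -/
theorem exists_cover {A : Set (En n)} {c : ℝ≥0∞} (h : cont s A < c) :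
    ∃ 𝒬 : Set (Dy n), A ⊆ (⋃ Q ∈ 𝒬, cube Q) ∧ ∑' Q : 𝒬, wt s (Q : Dy n) < c := by
  unfold cont at h
  rw [iInf_lt_iff] at h
  obtain ⟨𝒬, h⟩ := h
  rw [iInf_lt_iff] at h
  obtain ⟨h1, h2⟩ := h
  exact ⟨𝒬, h1, h2⟩

/-- limit content of an increasing family in a cube -/
def gl (s : ℝ) (A : ℕ → Set (En n)) (Q : Dy n) : ℝ≥0∞ := ⨆ j, cont s (A j ∩ cube Q)

/-- stopping cubes -/
def Stop (s : ℝ) (A : ℕ → Set (En n)) (t : ℝ≥0∞) (Q : Dy n) : Prop := t * wt s Q ≤ gl s A Q

/-- points stopped at relative depth `k` -/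
def Dk (s : ℝ) (A : ℕ → Set (En n)) (t : ℝ≥0∞) : ℕ → Dy n → Set (En n)
  | 0, Q => if Stop s A t Q then (⋃ j, A j) ∩ cube Q else ∅
  | k + 1, Q => if Stop s A t Q then ∅ else ⋃ e : Fin n → Fin 2, Dk s A t k (child Q e)

theorem gl_children (hs : 0 ≤ s) {A : ℕ → Set (En n)} (hA : Monotone A) {t : ℝ≥0∞} (ht : t < 1)
    {Q : Dy n} (hQ : ¬ Stop s A t Q) :
    ∑ e : Fin n → Fin 2, gl s A (child Q e) = gl s A Q := by
  have h1 : ∀ j, ∑ e : Fin n → Fin 2, cont s (A j ∩ cube (child Q e)) = cont s (A j ∩ cube Q) := by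
    intro j
    apply cont_children s hs
    intro hsat
    apply hQ
    have h2 : wt s Q ≤ gl s A Q := by
      rw [← hsat]
      exact le_iSup (fun j => cont s (A j ∩ cube Q)) j
    refine le_trans ?_ h2
    calc t * wt s Q ≤ 1 * wt s Q := by gcongr
      _ = wt s Q := one_mul _
  unfold gl
  rw [ENNReal.finsetSum_iSup_of_monotone]
  · exact iSup_congr h1
  · intro e i j hij
    exact cont_mono s (Set.inter_subset_inter_left _ (hA hij))

theorem sum_Dk_le (hs : 0 ≤ s) {A : ℕ → Set (En n)} (hA : Monotone A) {t : ℝ≥0∞} (ht : t < 1)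
    (m : ℕ) (Q : Dy n) :
    t * ∑ k ∈ Finset.range (m + 1), cont s (Dk s A t k Q) ≤ gl s A Q := by
  induction m generalizing Q with
  | zero =>
    rw [zero_add, Finset.sum_range_one, Dk]
    split_ifs with h
    · refine le_trans ?_ h
      gcongr
      exact cont_le_wt s Set.inter_subset_right
    · rw [cont_empty, mul_zero]; exact zero_le
  | succ m ih =>
    by_cases h : Stop s A t Q
    · have h0 : ∀ k ∈ Finset.range (m + 1), cont s (Dk s A t (k + 1) Q) = 0 := by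
        intro k _
        rw [Dk, if_pos h, cont_empty]
      rw [Finset.sum_range_succ', Finset.sum_eq_zero h0, zero_add, Dk, if_pos h]
      refine le_trans ?_ h
      gcongr
      exact cont_le_wt s Set.inter_subset_right
    · have h0 : ∀ k ∈ Finset.range (m + 1), cont s (Dk s A t (k + 1) Q) ≤
          ∑ e : Fin n → Fin 2, cont s (Dk s A t k (child Q e)) := by
        intro k _
        rw [Dk, if_neg h]
        refine (cont_iUnion_le s _).trans (le_of_eq ?_)
        exact tsum_fintype _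
      rw [Finset.sum_range_succ', Dk, if_neg h, cont_empty, add_zero]
      calc t * ∑ k ∈ Finset.range (m + 1), cont s (Dk s A t (k + 1) Q)
          ≤ t * ∑ k ∈ Finset.range (m + 1), ∑ e : Fin n → Fin 2,
              cont s (Dk s A t k (child Q e)) := by
            gcongr with k hk
            exact h0 k hk
        _ = ∑ e : Fin n → Fin 2, t * ∑ k ∈ Finset.range (m + 1),
              cont s (Dk s A t k (child Q e)) := by
            rw [Finset.sum_comm, Finset.mul_sum]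
        _ ≤ ∑ e : Fin n → Fin 2, gl s A (child Q e) := Finset.sum_le_sum fun e _ => ih _
        _ = gl s A Q := gl_children hs hA ht h

theorem cont_Dk_le (hs : 0 ≤ s) {A : ℕ → Set (En n)} (hA : Monotone A) {t : ℝ≥0∞} (ht : t < 1)
    (Q : Dy n) : t * cont s (⋃ k, Dk s A t k Q) ≤ gl s A Q := by
  calc t * cont s (⋃ k, Dk s A t k Q) ≤ t * ∑' k, cont s (Dk s A t k Q) := by
        gcongr
        exact cont_iUnion_le s _
    _ ≤ gl s A Q := by
        rw [ENNReal.tsum_eq_iSup_nat, ENNReal.mul_iSup]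
        refine iSup_le fun m => ?_
        refine le_trans ?_ (sum_Dk_le hs hA ht m Q)
        gcongr
        omega

theorem mem_Dk {A : ℕ → Set (En n)} {t : ℝ≥0∞} (i : ℕ) :
    ∀ (Q : Dy n) (x : En n), x ∈ (⋃ j, A j) → x ∈ cube Q →
      Stop s A t (cell (Q.1 + i) x) → ∃ k, x ∈ Dk s A t k Q := by
  induction i with
  | zero =>
    intro Q x hx hxQ hS
    rw [add_zero, show cell Q.1 x = Q from hxQ] at hS
    refine ⟨0, ?_⟩
    rw [Dk, if_pos hS]
    exact ⟨hx, hxQ⟩
  | succ i ih =>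
    intro Q x hx hxQ hS
    by_cases h : Stop s A t Q
    · refine ⟨0, ?_⟩
      rw [Dk, if_pos h]
      exact ⟨hx, hxQ⟩
    · obtain ⟨e, he⟩ := exists_child hxQ
      obtain ⟨k, hk⟩ := ih (child Q e) x hx he (by
        rw [show (child Q e).1 + i = Q.1 + (i + 1) by simp only [child]; ring]
        exact hS)
      refine ⟨k + 1, ?_⟩
      rw [Dk, if_neg h]
      exact Set.mem_iUnion.2 ⟨e, hk⟩

/-- points none of whose cubes is stopped carry no content -/
theorem cont_unstopped {A : ℕ → Set (En n)} {t : ℝ≥0∞} (j : ℕ) (B : Set (En n))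
    (hB : B ⊆ A j) (hB' : ∀ x ∈ B, ∀ k, ¬ Stop s A t (cell k x)) (k : ℕ) :
    ∀ R : Dy n, cont s (B ∩ cube R) ≤ t ^ k * wt s R := by
  induction k with
  | zero =>
    intro R
    rw [pow_zero, one_mul]
    exact cont_le_wt s Set.inter_subset_right
  | succ k ih =>
    intro R
    by_cases hne : (B ∩ cube R).Nonempty
    · obtain ⟨x, hxB, hxR⟩ := hne
      have h1 : ¬ Stop s A t R := by
        have := hB' x hxB R.1
        rwa [show cell R.1 x = R from hxR] at this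
      rw [Stop, not_le] at h1
      have h2 : cont s (A j ∩ cube R) < t * wt s R :=
        lt_of_le_of_lt (le_iSup (fun j => cont s (A j ∩ cube R)) j) h1
      obtain ⟨𝒬, hc, hw⟩ := exists_cover h2
      have h3 : B ∩ cube R ⊆ ⋃ Q : 𝒬, B ∩ cube (Q : Dy n) := by
        intro y hy
        have := hc ⟨hB hy.1, hy.2⟩
        simp only [Set.mem_iUnion] at this ⊢
        obtain ⟨Q, hQ, hyQ⟩ := this
        exact ⟨⟨Q, hQ⟩, hy.1, hyQ⟩
      calc cont s (B ∩ cube R) ≤ cont s (⋃ Q : 𝒬, B ∩ cube (Q : Dy n)) := cont_mono s h3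
        _ ≤ ∑' Q : 𝒬, cont s (B ∩ cube (Q : Dy n)) := cont_iUnion_le s _
        _ ≤ ∑' Q : 𝒬, t ^ k * wt s (Q : Dy n) := ENNReal.tsum_le_tsum fun Q => ih _
        _ = t ^ k * ∑' Q : 𝒬, wt s (Q : Dy n) := ENNReal.tsum_mul_left
        _ ≤ t ^ k * (t * wt s R) := by gcongr
        _ = t ^ (k + 1) * wt s R := by rw [pow_succ, mul_assoc]
    · rw [Set.not_nonempty_iff_eq_empty] at hne
      rw [hne, cont_empty]
      exact zero_le

theorem cont_unstopped_zero {A : ℕ → Set (En n)} {t : ℝ≥0∞} (ht : t < 1) (j : ℕ) (B : Set (En n))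
    (hB : B ⊆ A j) (hB' : ∀ x ∈ B, ∀ k, ¬ Stop s A t (cell k x)) (R : Dy n) :
    cont s (B ∩ cube R) = 0 := by
  have h1 : Tendsto (fun k : ℕ => t ^ k * wt s R) atTop (𝓝 (0 * wt s R)) :=
    ENNReal.Tendsto.mul_const (ENNReal.tendsto_pow_atTop_nhds_zero_of_lt_one ht)
      (Or.inr (wt_ne_top R))
  rw [zero_mul] at h1
  exact le_antisymm (ge_of_tendsto' h1 fun k => cont_unstopped j B hB hB' k R) zero_le

/-- the increasing sets lemma inside a cube of side one -/
theorem cont_iUnion_inter (hs : 0 ≤ s) {A : ℕ → Set (En n)} (hA : Monotone A) (Q : Dy n)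
    (hQ : Q.1 = 0) : cont s ((⋃ j, A j) ∩ cube Q) ≤ ⨆ j, cont s (A j ∩ cube Q) := by
  refine ENNReal.le_of_forall_lt_one_mul_le fun t ht => ?_
  set Z : Set (En n) := {x | x ∈ (⋃ j, A j) ∧ ∀ k, ¬ Stop s A t (cell k x)} with hZ
  have h1 : (⋃ j, A j) ∩ cube Q ⊆ (⋃ k, Dk s A t k Q) ∪ ⋃ j, (Z ∩ A j) ∩ cube Q := by
    rintro x ⟨hx, hxQ⟩
    by_cases h : ∃ k, Stop s A t (cell k x)
    · obtain ⟨k, hk⟩ := h
      left
      obtain ⟨i, hi⟩ := mem_Dk (s := s) (A := A) (t := t) k Q x hx hxQ (by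
        rw [hQ, zero_add]; exact hk)
      exact Set.mem_iUnion.2 ⟨i, hi⟩
    · push Not at h
      right
      obtain ⟨j, hj⟩ := Set.mem_iUnion.1 hx
      exact Set.mem_iUnion.2 ⟨j, ⟨⟨hx, h⟩, hj⟩, hxQ⟩
  have h2 : cont s (⋃ j, (Z ∩ A j) ∩ cube Q) = 0 := by
    refine le_antisymm ((cont_iUnion_le s _).trans (le_of_eq ?_)) zero_le
    rw [ENNReal.tsum_eq_zero]
    intro j
    exact cont_unstopped_zero ht j (Z ∩ A j) Set.inter_subset_right (fun x hx => hx.1.2) Q
  have h3 : cont s ((⋃ k, Dk s A t k Q) ∪ ⋃ j, (Z ∩ A j) ∩ cube Q) ≤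
      cont s (⋃ k, Dk s A t k Q) := by
    have e : (⋃ k, Dk s A t k Q) ∪ (⋃ j, (Z ∩ A j) ∩ cube Q) =
        ⋃ b : Bool, cond b (⋃ k, Dk s A t k Q) (⋃ j, (Z ∩ A j) ∩ cube Q) :=
      Set.union_eq_iUnion
    rw [e]
    refine (cont_iUnion_le s _).trans ?_
    rw [tsum_fintype, Fintype.sum_bool]
    simp only [cond_true, cond_false, h2, add_zero]
    exact le_rfl
  calc t * cont s ((⋃ j, A j) ∩ cube Q) ≤ t * cont s (⋃ k, Dk s A t k Q) := by
        gcongr
        exact (cont_mono s h1).trans h3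
    _ ≤ gl s A Q := cont_Dk_le hs hA ht Q

/-- the enlarged open cube -/
def big (Q : Dy n) : Set (En n) :=
  {x | ∀ i, ((Q.2 i : ℝ) - 1) < (2 : ℝ) ^ Q.1 * x i ∧ (2 : ℝ) ^ Q.1 * x i < (Q.2 i : ℝ) + 2}

theorem isOpen_big (Q : Dy n) : IsOpen (big Q) := by
  have : big Q = ⋂ i, ({x : En n | ((Q.2 i : ℝ) - 1) < (2 : ℝ) ^ Q.1 * x i} ∩
      {x : En n | (2 : ℝ) ^ Q.1 * x i < (Q.2 i : ℝ) + 2}) := by
    ext x
    simp only [big, Set.mem_ofPred_eq, Set.mem_iInter, Set.mem_inter_iff]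
  rw [this]
  refine isOpen_iInter_of_finite fun i => IsOpen.inter ?_ ?_
  · exact isOpen_lt continuous_const (by fun_prop)
  · exact isOpen_lt (by fun_prop) continuous_const

theorem cube_subset_big (Q : Dy n) : cube Q ⊆ big Q := by
  intro x hx i
  have hx' : ⌊(2 : ℝ) ^ Q.1 * x i⌋ = Q.2 i := congrFun (congrArg Prod.snd hx) i
  have h1 := Int.floor_eq_iff.1 hx'
  constructor <;> linarith [h1.1, h1.2]

/-- neighbours -/
def nb (Q : Dy n) (v : Fin n → Fin 3) : Dy n := (Q.1, fun i => Q.2 i + ((v i : ℕ) : ℤ) - 1)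

theorem big_subset (Q : Dy n) : big Q ⊆ ⋃ v : Fin n → Fin 3, cube (nb Q v) := by
  intro x hx
  have key : ∀ i, ∃ e : Fin 3, ⌊(2 : ℝ) ^ Q.1 * x i⌋ = Q.2 i + ((e : ℕ) : ℤ) - 1 := by
    intro i
    obtain ⟨h1, h2⟩ := hx i
    have h3 : Q.2 i - 1 ≤ ⌊(2 : ℝ) ^ Q.1 * x i⌋ := by
      rw [Int.le_floor]; push_cast; linarith
    have h4 : ⌊(2 : ℝ) ^ Q.1 * x i⌋ < Q.2 i + 2 := by
      rw [Int.floor_lt]; push_cast; linarith
    refine ⟨⟨(⌊(2 : ℝ) ^ Q.1 * x i⌋ - Q.2 i + 1).toNat, by omega⟩, ?_⟩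
    simp only
    omega
  choose v hv using key
  refine Set.mem_iUnion.2 ⟨v, ?_⟩
  show cell Q.1 x = nb Q v
  rw [cell, nb]
  congr 1
  funext i
  exact hv i

theorem cont_big_le (Q : Dy n) : cont s (big Q) ≤ 3 ^ n * wt s Q := by
  calc cont s (big Q) ≤ cont s (⋃ v : Fin n → Fin 3, cube (nb Q v)) := cont_mono s (big_subset Q)
    _ ≤ ∑' v : Fin n → Fin 3, cont s (cube (nb Q v)) := cont_iUnion_le s _
    _ ≤ ∑' v : Fin n → Fin 3, wt s Q := ENNReal.tsum_le_tsum fun v =>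
        (cont_le_wt s (Q := nb Q v) subset_rfl).trans (le_of_eq rfl)
    _ = 3 ^ n * wt s Q := by
        rw [tsum_fintype, Finset.sum_const, Finset.card_univ, Fintype.card_fun, Fintype.card_fin,
          Fintype.card_fin, nsmul_eq_mul]
        push_cast
        rfl

/-- a tube lemma in Baire space -/
theorem tube (k : ℕ → ℕ) (V : Set (ℕ → ℕ)) (hV : IsOpen V) (h : {x | ∀ i, x i ≤ k i} ⊆ V) :
    ∃ m, {x : ℕ → ℕ | ∀ i < m, x i ≤ k i} ⊆ V := by
  by_contra hcon
  push Not at hcon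
  have h1 : ∀ m, ∃ y : ℕ → ℕ, (∀ i < m, y i ≤ k i) ∧ y ∉ V := by
    intro m
    obtain ⟨y, hy1, hy2⟩ := Set.not_subset.1 (hcon m)
    exact ⟨y, hy1, hy2⟩
  choose y hy1 hy2 using h1
  have hcomp : IsCompact {x : ℕ → ℕ | ∀ i, x i ≤ k i} := by
    have : {x : ℕ → ℕ | ∀ i, x i ≤ k i} = Set.pi Set.univ fun i => Set.Iic (k i) := by
      ext x; simp only [Set.mem_univ_pi, Set.mem_Iic, Set.mem_ofPred_eq]
    rw [this]
    exact isCompact_univ_pi fun i => (Set.finite_Iic (k i)).isCompact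
  obtain ⟨x, hx, φ, hφ, hlim⟩ := hcomp.tendsto_subseq (x := fun m i => min (y m i) (k i))
    (fun m i => min_le_right _ _)
  have h2 : Tendsto (fun j => y (φ j)) atTop (𝓝 x) := by
    rw [tendsto_pi_nhds] at hlim ⊢
    intro i
    refine (hlim i).congr' ?_
    filter_upwards [eventually_gt_atTop i] with j hj
    have : i < φ j := lt_of_lt_of_le hj (hφ.id_le j)
    simp only [Function.comp_apply]
    exact min_eq_left (hy1 (φ j) i this)
  have h3 := h2.eventually (hV.mem_nhds (h hx))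
  obtain ⟨j, hj⟩ := h3.exists
  exact hy2 (φ j) hj

/-- the capacity argument -/
theorem exists_compact_of_analytic (hs : 0 ≤ s) (Q : Dy n) (hQ : Q.1 = 0)
    (f : (ℕ → ℕ) → En n) (hf : Continuous f) (hfQ : ∀ x, f x ∈ cube Q)
    (h : 0 < cont s (Set.range f)) :
    ∃ k : ℕ → ℕ, 0 < cont s (f '' {x | ∀ i, x i ≤ k i}) := by
  set c := cont s (Set.range f) with hc
  have hcne : c ≠ ⊤ := ne_top_of_le_ne_top (wt_ne_top Q) (cont_le_wt s (by
    rintro _ ⟨x, rfl⟩; exact hfQ x))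
  have hc2 : c / 2 < c := ENNReal.half_lt_self h.ne' hcne
  -- one step
  have step : ∀ (S : Set (ℕ → ℕ)) (m : ℕ), c / 2 < cont s (f '' S) →
      ∃ t : ℕ, c / 2 < cont s (f '' (S ∩ {x | x m ≤ t})) := by
    intro S m hS
    have hmono : Monotone fun t : ℕ => f '' (S ∩ {x | x m ≤ t}) := by
      intro a b hab
      apply Set.image_mono
      intro x hx
      exact ⟨hx.1, le_trans hx.2 hab⟩
    have hU : (⋃ t : ℕ, f '' (S ∩ {x | x m ≤ t})) = f '' S := by
      rw [← Set.image_iUnion]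
      congr 1
      ext x
      simp only [Set.mem_iUnion, Set.mem_inter_iff, Set.mem_ofPred_eq]
      exact ⟨fun ⟨_, hx, _⟩ => hx, fun hx => ⟨x m, hx, le_rfl⟩⟩
    have hin : ∀ T : Set (ℕ → ℕ), f '' T ∩ cube Q = f '' T := by
      intro T
      apply Set.inter_eq_left.2
      rintro _ ⟨x, _, rfl⟩
      exact hfQ x
    have h1 := cont_iUnion_inter hs hmono Q hQ
    simp only [hU, hin] at h1
    exact lt_iSup_iff.1 (lt_of_lt_of_le hS h1)
  -- the sequence of sets
  let T := {S : Set (ℕ → ℕ) // c / 2 < cont s (f '' S)}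
  let nxt : ℕ → T → ℕ := fun m S => (step S.1 m S.2).choose
  have hnxt : ∀ m (S : T), c / 2 < cont s (f '' (S.1 ∩ {x | x m ≤ nxt m S})) :=
    fun m S => (step S.1 m S.2).choose_spec
  let seq : ℕ → T := fun m => Nat.rec ⟨Set.univ, by rw [Set.image_univ]; exact hc2⟩
    (fun m S => ⟨S.1 ∩ {x | x m ≤ nxt m S}, hnxt m S⟩) m
  let k : ℕ → ℕ := fun m => nxt m (seq m)
  have hseq : ∀ m, (seq m).1 = {x | ∀ i < m, x i ≤ k i} := by
    intro m
    induction m with
    | zero =>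
      ext x
      simp only [not_lt_zero, false_imp_iff, implies_true, Set.mem_ofPred_eq, iff_true]
      exact Set.mem_univ x
    | succ m ih =>
      have : (seq (m + 1)).1 = (seq m).1 ∩ {x | x m ≤ k m} := rfl
      rw [this, ih]
      ext x
      simp only [Set.mem_inter_iff, Set.mem_ofPred_eq]
      constructor
      · rintro ⟨h1, h2⟩ i hi
        rcases Nat.lt_succ_iff_lt_or_eq.1 hi with h | h
        · exact h1 i h
        · rw [h]; exact h2
      · intro h1
        exact ⟨fun i hi => h1 i (by omega), h1 m (by omega)⟩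
  refine ⟨k, ?_⟩
  by_contra hcon
  rw [not_lt, nonpos_iff_eq_zero] at hcon
  have h3 : (0 : ℝ≥0∞) < c / 2 / 3 ^ n := by
    apply ENNReal.div_pos
    · exact (ENNReal.div_pos h.ne' (by norm_num)).ne'
    · exact ENNReal.pow_ne_top (by norm_num)
  obtain ⟨𝒬, hcov, hw⟩ := exists_cover (lt_of_eq_of_lt hcon h3)
  obtain ⟨m, hm⟩ := tube k (f ⁻¹' (⋃ R ∈ 𝒬, big R))
    ((isOpen_biUnion fun R _ => isOpen_big R).preimage hf) (by
      intro x hx
      have := hcov ⟨x, hx, rfl⟩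
      simp only [Set.mem_iUnion] at this
      obtain ⟨R, hR, hxR⟩ := this
      simp only [Set.mem_preimage, Set.mem_iUnion]
      exact ⟨R, hR, cube_subset_big R hxR⟩)
  have h4 : c / 2 < cont s (f '' {x | ∀ i < m, x i ≤ k i}) := by
    rw [← hseq m]; exact (seq m).2
  have h5 : cont s (f '' {x | ∀ i < m, x i ≤ k i}) ≤ 3 ^ n * ∑' R : 𝒬, wt s (R : Dy n) := by
    calc cont s (f '' {x | ∀ i < m, x i ≤ k i}) ≤ cont s (⋃ R : 𝒬, big (R : Dy n)) := by
          apply cont_mono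
          rintro _ ⟨x, hx, rfl⟩
          have := hm hx
          simp only [Set.mem_preimage, Set.mem_iUnion] at this ⊢
          obtain ⟨R, hR, hxR⟩ := this
          exact ⟨⟨R, hR⟩, hxR⟩
      _ ≤ ∑' R : 𝒬, cont s (big (R : Dy n)) := cont_iUnion_le s _
      _ ≤ ∑' R : 𝒬, 3 ^ n * wt s (R : Dy n) := ENNReal.tsum_le_tsum fun R => cont_big_le _
      _ = 3 ^ n * ∑' R : 𝒬, wt s (R : Dy n) := ENNReal.tsum_mul_left
  have h6 : 3 ^ n * ∑' R : 𝒬, wt s (R : Dy n) ≤ c / 2 := by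
    have := hw.le
    rw [ENNReal.le_div_iff_mul_le (Or.inl (by positivity)) (Or.inl (ENNReal.pow_ne_top (by norm_num)))] at this
    rw [mul_comm]
    exact this
  exact absurd (h5.trans h6) (not_le.2 h4)

end Cap

/-- Module M8. -/
theorem exists_compact {n : ℕ} (s : ℝ) (hs : 0 < s) (A : Set (En n)) (hA : MeasurableSet A)
    (h : 0 < cont s A) : ∃ K ⊆ A, IsCompact K ∧ 0 < cont s K := by
  -- restrict to a unit cube
  have h1 : ∃ v : Fin n → ℤ, 0 < cont s (A ∩ cube ((0, v) : Dy n)) := by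
    by_contra hcon
    push Not at hcon
    have h2 : A ⊆ ⋃ v : Fin n → ℤ, A ∩ cube ((0, v) : Dy n) := by
      intro x hx
      exact Set.mem_iUnion.2 ⟨(cell 0 x).2, hx, rfl⟩
    have h3 : cont s A ≤ 0 := by
      refine (cont_mono s h2).trans ((cont_iUnion_le s _).trans (le_of_eq ?_))
      rw [ENNReal.tsum_eq_zero]
      intro v
      exact le_antisymm (hcon v) zero_le
    exact absurd h (not_lt.2 h3)
  obtain ⟨v, hv⟩ := h1
  have h2 : AnalyticSet (A ∩ cube ((0, v) : Dy n)) :=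
    (hA.inter (measurableSet_cube _)).analyticSet
  rw [AnalyticSet] at h2
  rcases h2 with h2 | ⟨f, hf, hfr⟩
  · rw [h2, cont_empty] at hv
    exact absurd hv (lt_irrefl _)
  · obtain ⟨k, hk⟩ := Cap.exists_compact_of_analytic hs.le ((0, v) : Dy n) rfl f hf
      (fun x => by
        have : f x ∈ A ∩ cube ((0, v) : Dy n) := by rw [← hfr]; exact ⟨x, rfl⟩
        exact this.2) (by rw [hfr]; exact hv)
    refine ⟨f '' {x | ∀ i, x i ≤ k i}, ?_, ?_, hk⟩
    · rintro _ ⟨x, _, rfl⟩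
      have : f x ∈ A ∩ cube ((0, v) : Dy n) := by rw [← hfr]; exact ⟨x, rfl⟩
      exact this.1
    · have hcomp : IsCompact {x : ℕ → ℕ | ∀ i, x i ≤ k i} := by
        have : {x : ℕ → ℕ | ∀ i, x i ≤ k i} = Set.pi Set.univ fun i => Set.Iic (k i) := by
          ext x; simp only [Set.mem_univ_pi, Set.mem_Iic, Set.mem_ofPred_eq]
        rw [this]
        exact isCompact_univ_pi fun i => (Set.finite_Iic (k i)).isCompact
      exact hcomp.image hf

end

end Pool.Agent.H47A
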