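import Pool.Agent.Helper47_Angle.Stab

/-!
# Module M3: the cone trick
-/

set_option autoImplicit false
namespace Pool.Agent.H47A
open scoped BigOperators Classical ENNReal
open MeasureTheory
noncomputable section

/-- the lift `x ↦ (c ‖x‖, x)` -/
def coneLift {n : ℕ} (c : ℝ) (x : En n) : En (n + 1) :=
  WithLp.toLp 2 (Fin.cons (c * ‖x‖) (fun i => x i))

theorem inner_coneLift {n : ℕ} (a b : ℝ) (x z : En n) :
    inner ℝ (coneLift a x) (coneLift b z) = (a * ‖x‖) * (b * ‖z‖) + inner ℝ x z := by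
  simp only [coneLift, PiLp.inner_apply, Fin.sum_univ_succ, Fin.cons_zero, Fin.cons_succ]
  congr 1
  simp [mul_comm]

theorem norm_coneLift_sq {n : ℕ} (c : ℝ) (x : En n) :
    ‖coneLift c x‖ ^ 2 = (c ^ 2 + 1) * ‖x‖ ^ 2 := by
  rw [← real_inner_self_eq_norm_sq, inner_coneLift, real_inner_self_eq_norm_sq]
  ring

theorem norm_le_coneLift {n : ℕ} (c : ℝ) (x : En n) (v : En (n + 1)) :
    ‖x - WithLp.toLp 2 (fun i => v i.succ)‖ ≤ ‖coneLift c x - v‖ := by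
  apply le_of_sq_le_sq _ (norm_nonneg _)
  rw [EuclideanSpace.real_norm_sq_eq, EuclideanSpace.real_norm_sq_eq, Fin.sum_univ_succ]
  simp only [coneLift, PiLp.sub_apply, Fin.cons_zero, Fin.cons_succ]
  have := sq_nonneg (c * ‖x‖ - v 0)
  linarith

theorem Fro.coneLift {n : ℕ} {ι : Type} {I : Finset ι} {x : ι → En n} {p : ι → ℝ} {A s ρ : ℝ}
    (h : Fro I x p A s ρ) (c : ℝ) : Fro I (fun i => coneLift c (x i)) p A s ρ := by
  refine ⟨h.1, fun v r hr => le_trans ?_ (h.2 (WithLp.toLp 2 (fun i => v i.succ)) r hr)⟩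
  apply Finset.sum_le_sum_of_subset_of_nonneg
  · intro i hi
    rw [Finset.mem_filter] at hi ⊢
    exact ⟨hi.1, (norm_le_coneLift c (x i) v).trans hi.2⟩
  · intro i hi _
    exact h.1 i (Finset.mem_filter.1 hi).1

theorem cone_stab (n : ℕ) (κ s A R : ℝ) (hκ : |κ| ≤ 1) (hs : ((n : ℝ) + 1) / 2 + 3 ≤ s)
    (hA : 0 ≤ A) (hR : 1 ≤ R) :
    ∃ C : ℝ, 0 < C ∧ ∀ (ι ι' : Type) (I : Finset ι) (J : Finset ι') (x : ι → En n) (z : ι' → En n)
      (p : ι → ℝ) (q : ι' → ℝ) (ρ δ δ' : ℝ), 0 < ρ → Fro I x p A s ρ → Fro J z q A s ρ →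
      (∀ i ∈ I, ‖x i‖ ≤ R) → (∀ j ∈ J, ‖z j‖ ≤ R) → 0 < δ' → δ' ≤ δ → δ ≤ 1 → ρ ≤ δ' ^ 2 →
      |BB κ I J x z p q δ - BB κ I J x z p q δ'| ≤ C * δ ∧ BB κ I J x z p q δ' ≤ C := by
  obtain ⟨C, hC, h⟩ := gauss_stab (n + 1) s A (2 * R) (by push_cast; exact hs) hA (by linarith)
  refine ⟨C, hC, ?_⟩
  intro ι ι' I J x z p q ρ δ δ' hρ hx hz hxR hzR hδ' hδδ' hδ1 hρδ
  have hκ2 : κ ^ 2 ≤ 1 := by
    rw [← sq_abs]; nlinarith [abs_nonneg κ]
  have hR0 : 0 ≤ R := by linarith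
  have h1 := h ι ι' I J (fun i => coneLift 1 (x i)) (fun j => coneLift (-κ) (z j)) p q ρ δ δ' hρ
    (hx.coneLift 1) (hz.coneLift (-κ)) (fun i hi => ?_) (fun j hj => ?_) hδ' hδδ' hδ1 hρδ
  · have h2 : ∀ i j, inner ℝ (coneLift 1 (x i)) (coneLift (-κ) (z j)) = Phi κ (x i) (z j) := by
      intro i j
      rw [inner_coneLift, Phi]
      ring
    simp only [h2] at h1
    exact h1
  · apply le_of_sq_le_sq _ (by positivity)
    rw [norm_coneLift_sq]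
    have := hxR i hi
    have := norm_nonneg (x i)
    nlinarith
  · apply le_of_sq_le_sq _ (by positivity)
    rw [norm_coneLift_sq]
    have := hzR j hj
    have h3 := norm_nonneg (z j)
    have h4 : ‖z j‖ ^ 2 ≤ R ^ 2 := by nlinarith
    have h5 : ((-κ) ^ 2 + 1) ≤ 2 := by nlinarith
    calc ((-κ) ^ 2 + 1) * ‖z j‖ ^ 2 ≤ 2 * R ^ 2 := by gcongr
      _ ≤ (2 * R) ^ 2 := by nlinarith

end
end Pool.Agent.H47A
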