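import Pool.Agent.Helper47_Angle.Defs

/-!
# Basic properties of the dyadic content
-/

set_option autoImplicit false

namespace Pool.Agent.H47A

open scoped BigOperators Classical ENNReal
open MeasureTheory

noncomputable section

theorem mem_cube {n : ℕ} {Q : Dy n} {x : En n} :
    x ∈ cube Q ↔ ∀ i, ⌊(2 : ℝ) ^ Q.1 * x i⌋ = Q.2 i := by
  unfold cube cell
  constructor
  · intro h i
    have := congrArg Prod.snd h
    exact congrFun this i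
  · intro h
    exact Prod.ext rfl (funext h)

theorem cont_mono {n : ℕ} (s : ℝ) {A B : Set (En n)} (h : A ⊆ B) : cont s A ≤ cont s B :=
  le_iInf₂ fun 𝒬 h𝒬 => iInf₂_le 𝒬 (h.trans h𝒬)

theorem cont_le_of_cover {n : ℕ} (s : ℝ) {A : Set (En n)} (𝒬 : Set (Dy n))
    (h : A ⊆ ⋃ Q ∈ 𝒬, cube Q) : cont s A ≤ ∑' Q : 𝒬, wt s (Q : Dy n) := iInf₂_le 𝒬 h

theorem exists_cover_of_lt {n : ℕ} {s : ℝ} {A : Set (En n)} {c : ℝ≥0∞} (h : cont s A < c) :
    ∃ 𝒬 : Set (Dy n), A ⊆ ⋃ Q ∈ 𝒬, cube Q ∧ ∑' Q : 𝒬, wt s (Q : Dy n) < c := by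
  unfold cont at h
  obtain ⟨𝒬, h1⟩ := iInf_lt_iff.1 h
  obtain ⟨h2, h3⟩ := iInf_lt_iff.1 h1
  exact ⟨𝒬, h2, h3⟩

theorem cont_iUnion_le {n : ℕ} (s : ℝ) {ι : Type} [Countable ι] (A : ι → Set (En n)) :
    cont s (⋃ i, A i) ≤ ∑' i, cont s (A i) := by
  by_cases htop : ∑' i, cont s (A i) = ∞
  · rw [htop]; exact le_top
  refine ENNReal.le_of_forall_pos_le_add fun ε hε _ => ?_
  obtain ⟨δ, hδ, hsum⟩ := ENNReal.exists_pos_sum_of_countable (ENNReal.coe_pos.2 hε).ne' ι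
  have hfin : ∀ i, cont s (A i) ≠ ∞ := fun i => ENNReal.ne_top_of_tsum_ne_top htop i
  have hc : ∀ i, ∃ 𝒬 : Set (Dy n), A i ⊆ ⋃ Q ∈ 𝒬, cube Q ∧
      ∑' Q : 𝒬, wt s (Q : Dy n) < cont s (A i) + δ i := fun i =>
    exists_cover_of_lt (ENNReal.lt_add_right (hfin i) (ENNReal.coe_pos.2 (hδ i)).ne')
  choose 𝒬 h1 h2 using hc
  calc cont s (⋃ i, A i) ≤ ∑' Q : ⋃ i, 𝒬 i, wt s (Q : Dy n) := by
        apply cont_le_of_cover
        intro x hx
        obtain ⟨i, hi⟩ := Set.mem_iUnion.1 hx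
        obtain ⟨Q, hQ, hxQ⟩ := Set.mem_iUnion₂.1 (h1 i hi)
        exact Set.mem_iUnion₂.2 ⟨Q, Set.mem_iUnion.2 ⟨i, hQ⟩, hxQ⟩
    _ ≤ ∑' i, ∑' Q : 𝒬 i, wt s (Q : Dy n) := ENNReal.tsum_iUnion_le_tsum _ _
    _ ≤ ∑' i, (cont s (A i) + δ i) := ENNReal.tsum_le_tsum fun i => (h2 i).le
    _ = ∑' i, cont s (A i) + ∑' i, (δ i : ℝ≥0∞) := ENNReal.tsum_add
    _ ≤ ∑' i, cont s (A i) + ε := by gcongr

theorem cont_empty {n : ℕ} (s : ℝ) : cont s (∅ : Set (En n)) = 0 := by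
  apply le_antisymm _ bot_le
  calc cont s (∅ : Set (En n)) ≤ ∑' Q : (∅ : Set (Dy n)), wt s (Q : Dy n) :=
        cont_le_of_cover s ∅ (Set.empty_subset _)
    _ = 0 := by simp

theorem cont_le_wt {n : ℕ} (s : ℝ) {A : Set (En n)} {Q : Dy n} (h : A ⊆ cube Q) :
    cont s A ≤ wt s Q := by
  calc cont s A ≤ ∑' P : ({Q} : Set (Dy n)), wt s (P : Dy n) := by
        apply cont_le_of_cover
        simpa using h
    _ = wt s Q := tsum_singleton Q (wt s)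

/-- Nesting of dyadic cubes. -/
theorem cube_subset {n : ℕ} {P R : Dy n} (hl : R.1 ≤ P.1) {x : En n} (hxP : x ∈ cube P)
    (hxR : x ∈ cube R) : cube P ⊆ cube R := by
  intro y hy
  rw [mem_cube] at *
  obtain ⟨j, hj⟩ := Nat.exists_eq_add_of_le hl
  have key : ∀ z : ℝ, ⌊(2 : ℝ) ^ R.1 * z⌋ = ⌊(2 : ℝ) ^ P.1 * z⌋ / ((2 ^ j : ℕ) : ℤ) := by
    intro z
    rw [← Int.floor_div_natCast]
    congr 1
    rw [hj, pow_add]
    push_cast
    field_simp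
  intro i
  rw [key, hy i, ← hxP i, ← key, hxR i]

theorem wt_lt_iff_level {n : ℕ} {s : ℝ} (hs : 0 ≤ s) {P Q : Dy n} (h : wt s P < wt s Q) :
    Q.1 < P.1 := by
  by_contra hc
  push Not at hc
  apply absurd h
  rw [not_lt]
  unfold wt
  apply ENNReal.ofReal_le_ofReal
  apply Real.rpow_le_rpow_of_exponent_le (by norm_num)
  have : (P.1 : ℝ) ≤ Q.1 := by exact_mod_cast hc
  nlinarith

theorem child_subset {n : ℕ} (Q : Dy n) (e : Fin n → Fin 2) : cube (child Q e) ⊆ cube Q := by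
  intro x hx
  rw [mem_cube] at hx ⊢
  intro i
  have h1 := hx i
  simp only [child] at h1
  have key : ⌊(2 : ℝ) ^ Q.1 * x i⌋ = ⌊(2 : ℝ) ^ (Q.1 + 1) * x i⌋ / ((2 : ℕ) : ℤ) := by
    rw [← Int.floor_div_natCast]
    congr 1
    rw [pow_succ]
    push_cast
    ring
  rw [key, h1]
  have h2 := (e i).isLt
  push_cast
  omega

theorem mem_child_iff {n : ℕ} {Q : Dy n} {e : Fin n → Fin 2} {x : En n} :
    x ∈ cube (child Q e) ↔ ∀ i, ⌊(2 : ℝ) ^ (Q.1 + 1) * x i⌋ = 2 * Q.2 i + ((e i : ℕ) : ℤ) := by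
  rw [mem_cube]
  rfl

theorem exists_child {n : ℕ} {Q : Dy n} {x : En n} (hx : x ∈ cube Q) :
    ∃ e, x ∈ cube (child Q e) := by
  rw [mem_cube] at hx
  have key : ∀ i, ∃ e : Fin 2, ⌊(2 : ℝ) ^ (Q.1 + 1) * x i⌋ = 2 * Q.2 i + ((e : ℕ) : ℤ) := by
    intro i
    have h1 : ⌊(2 : ℝ) ^ Q.1 * x i⌋ = ⌊(2 : ℝ) ^ (Q.1 + 1) * x i⌋ / ((2 : ℕ) : ℤ) := by
      rw [← Int.floor_div_natCast]
      congr 1
      rw [pow_succ]
      push_cast
      ring
    rw [hx i] at h1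
    push_cast at h1
    have h2 : ⌊(2 : ℝ) ^ (Q.1 + 1) * x i⌋ = 2 * Q.2 i ∨
        ⌊(2 : ℝ) ^ (Q.1 + 1) * x i⌋ = 2 * Q.2 i + 1 := by omega
    rcases h2 with h2 | h2
    · exact ⟨0, by simpa using h2⟩
    · exact ⟨1, by simpa using h2⟩
  choose e he using key
  exact ⟨e, mem_child_iff.2 he⟩

theorem child_disjoint {n : ℕ} {Q : Dy n} {e e' : Fin n → Fin 2} {x : En n}
    (h : x ∈ cube (child Q e)) (h' : x ∈ cube (child Q e')) : e = e' := by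
  rw [mem_child_iff] at h h'
  funext i
  have h1 := h i
  rw [h' i] at h1
  apply Fin.ext
  omega

theorem cont_le_children {n : ℕ} (s : ℝ) (A : Set (En n)) (Q : Dy n) :
    cont s (A ∩ cube Q) ≤ ∑ e : Fin n → Fin 2, cont s (A ∩ cube (child Q e)) := by
  calc cont s (A ∩ cube Q) ≤ cont s (⋃ e : Fin n → Fin 2, A ∩ cube (child Q e)) := by
        apply cont_mono
        rintro x ⟨hxA, hxQ⟩
        obtain ⟨e, he⟩ := exists_child hxQ
        exact Set.mem_iUnion.2 ⟨e, hxA, he⟩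
    _ ≤ ∑' e : Fin n → Fin 2, cont s (A ∩ cube (child Q e)) := cont_iUnion_le s _
    _ = _ := tsum_fintype _

theorem cont_children {n : ℕ} (s : ℝ) (hs : 0 ≤ s) (A : Set (En n)) (Q : Dy n)
    (h : ¬ Sat s A Q) :
    ∑ e : Fin n → Fin 2, cont s (A ∩ cube (child Q e)) = cont s (A ∩ cube Q) := by
  refine le_antisymm ?_ (cont_le_children s A Q)
  have hlt : cont s (A ∩ cube Q) < wt s Q :=
    lt_of_le_of_ne (cont_le_wt s Set.inter_subset_right) h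
  by_contra hcon
  push Not at hcon
  obtain ⟨𝒬, hcov, hcost⟩ := exists_cover_of_lt (lt_min hcon hlt)
  have hcost1 := lt_of_lt_of_le hcost (min_le_left _ _)
  have hcost2 := lt_of_lt_of_le hcost (min_le_right _ _)
  have hlev : ∀ P ∈ 𝒬, Q.1 < P.1 := by
    intro P hP
    apply wt_lt_iff_level hs
    refine lt_of_le_of_lt ?_ hcost2
    exact ENNReal.le_tsum (f := fun P : 𝒬 => wt s (P : Dy n)) (⟨P, hP⟩ : 𝒬)
  set 𝒮 : (Fin n → Fin 2) → Set (Dy n) := fun e =>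
    {P | P ∈ 𝒬 ∧ ∃ x, x ∈ cube P ∧ x ∈ cube (child Q e)} with h𝒮
  have hdisj : ∀ e e' P, P ∈ 𝒮 e → P ∈ 𝒮 e' → e = e' := by
    rintro e e' P ⟨hP, x, hx1, hx2⟩ ⟨-, y, hy1, hy2⟩
    have h1 : cube P ⊆ cube (child Q e) := cube_subset (Nat.succ_le_of_lt (hlev P hP)) hx1 hx2
    exact child_disjoint (h1 hy1) hy2
  have hcover : ∀ e, A ∩ cube (child Q e) ⊆ ⋃ P ∈ 𝒮 e, cube P := by
    rintro e x ⟨hxA, hxe⟩
    obtain ⟨P, hP, hxP⟩ := Set.mem_iUnion₂.1 (hcov ⟨hxA, child_subset Q e hxe⟩)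
    exact Set.mem_iUnion₂.2 ⟨P, ⟨hP, x, hxP, hxe⟩, hxP⟩
  have hsum : ∑ e : Fin n → Fin 2, ∑' P : 𝒮 e, wt s (P : Dy n) ≤ ∑' P : 𝒬, wt s (P : Dy n) := by
    have e1 : ∀ e, ∑' P : 𝒮 e, wt s (P : Dy n) = ∑' P, (𝒮 e).indicator (wt s) P := fun e =>
      tsum_subtype (𝒮 e) (wt s)
    rw [tsum_subtype 𝒬 (wt s)]
    simp only [e1]
    rw [← tsum_fintype (L := .unconditional _)]
    rw [ENNReal.tsum_comm]
    apply ENNReal.tsum_le_tsum
    intro P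
    rw [tsum_fintype]
    by_cases hP : ∃ e, P ∈ 𝒮 e
    · obtain ⟨e, he⟩ := hP
      rw [Finset.sum_eq_single e]
      · rw [Set.indicator_of_mem he, Set.indicator_of_mem he.1]
      · intro e' _ hne
        exact Set.indicator_of_notMem (fun h' => hne (hdisj _ _ _ h' he)) _
      · simp
    · push Not at hP
      rw [Finset.sum_eq_zero fun e _ => Set.indicator_of_notMem (hP e) _]
      exact bot_le
  have hfinal : ∑ e : Fin n → Fin 2, cont s (A ∩ cube (child Q e)) ≤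
      ∑' P : 𝒬, wt s (P : Dy n) :=
    (Finset.sum_le_sum fun e _ => cont_le_of_cover s (𝒮 e) (hcover e)).trans hsum
  exact absurd (lt_of_le_of_lt hfinal hcost1) (lt_irrefl _)

theorem measurableSet_cube {n : ℕ} (Q : Dy n) : MeasurableSet (cube Q) := by
  have : cube Q = ⋂ i, {x : En n | ⌊(2 : ℝ) ^ Q.1 * x i⌋ = Q.2 i} := by
    ext x
    rw [mem_cube, Set.mem_iInter]
    rfl
  rw [this]
  refine MeasurableSet.iInter fun i => ?_
  have h1 : Measurable (fun x : En n => (2 : ℝ) ^ Q.1 * x i) := by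
    have : Continuous (fun x : En n => (2 : ℝ) ^ Q.1 * x i) := by fun_prop
    exact this.measurable
  exact (h1.floor) (measurableSet_singleton (Q.2 i))

end

end Pool.Agent.H47A
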