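import Mathlib

/-!
# Angles in sets of large dimension (MP_3ccd08_an): common definitions
-/

set_option autoImplicit false

namespace Pool.Agent.H47A

open scoped BigOperators Classical ENNReal
open MeasureTheory

noncomputable section

abbrev En (n : ℕ) := EuclideanSpace ℝ (Fin n)

/-! ## Weighted finite families -/

/-- A finite weighted family of points which is Frostman of exponent `s` with constant `A` at all
scales `≥ ρ`. -/
def Fro {ι F : Type} [NormedAddCommGroup F] (I : Finset ι) (X : ι → F) (p : ι → ℝ)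
    (A s ρ : ℝ) : Prop :=
  (∀ i ∈ I, 0 ≤ p i) ∧
    ∀ (c : F) (r : ℝ), ρ ≤ r → ∑ i ∈ I with ‖X i - c‖ ≤ r, p i ≤ A * r ^ s

/-- The Gaussian kernel (not normalised): `δ⁻¹ exp (-t² / (2 δ²))`. -/
def gk (δ t : ℝ) : ℝ := δ⁻¹ * Real.exp (-(t ^ 2) / (2 * δ ^ 2))

/-- `Phi κ x z = ⟪x, z⟫ - κ ‖x‖ ‖z‖` : vanishes (for `x, z ≠ 0`) iff the angle has cosine `κ`. -/
def Phi {n : ℕ} (κ : ℝ) (x z : En n) : ℝ := inner ℝ x z - κ * ‖x‖ * ‖z‖

/-- the bilinear functional -/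
def BB {n : ℕ} {ι ι' : Type} (κ : ℝ) (I : Finset ι) (J : Finset ι') (x : ι → En n) (z : ι' → En n)
    (p : ι → ℝ) (q : ι' → ℝ) (δ : ℝ) : ℝ :=
  ∑ i ∈ I, ∑ j ∈ J, p i * q j * gk δ (Phi κ (x i) (z j))

theorem gk_nonneg {δ : ℝ} (hδ : 0 < δ) (t : ℝ) : 0 ≤ gk δ t := by
  unfold gk; positivity

theorem gk_le {δ : ℝ} (hδ : 0 < δ) (t : ℝ) : gk δ t ≤ δ⁻¹ := by
  unfold gk
  have h1 : Real.exp (-(t ^ 2) / (2 * δ ^ 2)) ≤ 1 := by
    rw [Real.exp_le_one_iff]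
    apply div_nonpos_of_nonpos_of_nonneg
    · nlinarith [sq_nonneg t]
    · positivity
  have h2 : 0 < δ⁻¹ := by positivity
  nlinarith

namespace Fro

variable {ι F : Type} [NormedAddCommGroup F] {I J : Finset ι} {X : ι → F} {p : ι → ℝ}
  {A s ρ : ℝ}

theorem subset (h : Fro I X p A s ρ) (hJ : J ⊆ I) : Fro J X p A s ρ := by
  refine ⟨fun i hi => h.1 i (hJ hi), fun c r hr => le_trans ?_ (h.2 c r hr)⟩
  apply Finset.sum_le_sum_of_subset_of_nonneg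
  · intro i hi
    rw [Finset.mem_filter] at hi ⊢
    exact ⟨hJ hi.1, hi.2⟩
  · intro i hi _
    exact h.1 i (Finset.mem_filter.1 hi).1

theorem mono_scale (h : Fro I X p A s ρ) {ρ' : ℝ} (hρ : ρ ≤ ρ') : Fro I X p A s ρ' :=
  ⟨h.1, fun c r hr => h.2 c r (hρ.trans hr)⟩

theorem sub_const (h : Fro I X p A s ρ) (v : F) : Fro I (fun i => X i - v) p A s ρ := by
  refine ⟨h.1, fun c r hr => ?_⟩
  have := h.2 (v + c) r hr
  simpa [sub_sub] using this

theorem const_sub (h : Fro I X p A s ρ) (v : F) : Fro I (fun i => v - X i) p A s ρ := by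
  refine ⟨h.1, fun c r hr => ?_⟩
  have := h.2 (v - c) r hr
  convert this using 4 with i
  rw [show v - X i - c = -(X i - (v - c)) by abel, norm_neg]

/-- total mass of a family contained in a ball -/
theorem mass_le (h : Fro I X p A s ρ) {R : ℝ} (hR : ρ ≤ R) (hX : ∀ i ∈ I, ‖X i‖ ≤ R) :
    ∑ i ∈ I, p i ≤ A * R ^ s := by
  have := h.2 0 R hR
  rwa [Finset.filter_true_of_mem] at this
  intro i hi
  simpa using hX i hi

/-- rescaling -/
theorem scale [NormedSpace ℝ F] (h : Fro I X p A s ρ) {r : ℝ} (hr : 0 < r) (hρ : 0 ≤ ρ) :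
    Fro I (fun i => r⁻¹ • X i) (fun i => p i / r ^ s) A s (ρ / r) := by
  refine ⟨fun i hi => div_nonneg (h.1 i hi) (Real.rpow_nonneg hr.le s), fun c t ht => ?_⟩
  have ht' : ρ ≤ r * t := by
    rw [div_le_iff₀ hr] at ht; linarith
  have ht0 : 0 ≤ t := le_trans (div_nonneg hρ hr.le) ht
  have h1 := h.2 (r • c) (r * t) ht'
  have h2 : ∀ i, ‖r⁻¹ • X i - c‖ ≤ t ↔ ‖X i - r • c‖ ≤ r * t := by
    intro i
    have : r⁻¹ • X i - c = r⁻¹ • (X i - r • c) := by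
      rw [smul_sub, smul_smul, inv_mul_cancel₀ hr.ne', one_smul]
    rw [this, norm_smul, Real.norm_of_nonneg (inv_nonneg.2 hr.le), inv_mul_le_iff₀ hr]
  simp only [h2]
  rw [← Finset.sum_div, div_le_iff₀ (Real.rpow_pos_of_pos hr s)]
  refine h1.trans (le_of_eq ?_)
  rw [Real.mul_rpow hr.le ht0]
  ring

end Fro

/-! ## Dyadic cubes and the dyadic content -/

/-- Dyadic cubes of side `2 ^ (-k)`, `k ≥ 0`. -/
abbrev Dy (n : ℕ) := ℕ × (Fin n → ℤ)

/-- The dyadic cube of level `k` containing `x`. -/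
def cell {n : ℕ} (k : ℕ) (x : En n) : Dy n := (k, fun i => ⌊(2 : ℝ) ^ k * x i⌋)

/-- The set of points of the cube. -/
def cube {n : ℕ} (Q : Dy n) : Set (En n) := {x | cell Q.1 x = Q}

/-- `side ^ s` -/
def wt {n : ℕ} (s : ℝ) (Q : Dy n) : ℝ≥0∞ := ENNReal.ofReal ((2 : ℝ) ^ (-(s * Q.1)))

/-- Dyadic Hausdorff content of exponent `s` (cubes of side `≤ 1`). -/
def cont {n : ℕ} (s : ℝ) (A : Set (En n)) : ℝ≥0∞ :=
  ⨅ (𝒬 : Set (Dy n)) (_ : A ⊆ ⋃ Q ∈ 𝒬, cube Q), ∑' Q : 𝒬, wt s (Q : Dy n)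

/-- `Q` is saturated for `A`. -/
def Sat {n : ℕ} (s : ℝ) (A : Set (En n)) (Q : Dy n) : Prop := cont s (A ∩ cube Q) = wt s Q

/-- children of a cube -/
def child {n : ℕ} (Q : Dy n) (e : Fin n → Fin 2) : Dy n :=
  (Q.1 + 1, fun i => 2 * Q.2 i + (e i : ℤ))

/-- subcubes of relative level `m` -/
def sub {n : ℕ} (Q : Dy n) (m : ℕ) (b : Fin n → Fin (2 ^ m)) : Dy n :=
  (Q.1 + m, fun i => 2 ^ m * Q.2 i + (b i : ℤ))

/-- index of a child of a subcube -/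
def sb {n m : ℕ} (b : Fin n → Fin (2 ^ m)) (e : Fin n → Fin 2) : Fin n → Fin (2 ^ (m + 1)) :=
  fun i => ⟨2 * (b i : ℕ) + (e i : ℕ), by
    have h1 := (b i).isLt
    have h2 := (e i).isLt
    rw [pow_succ]
    omega⟩

/-- index of the ancestor of relative level `m` of a subcube of relative level `m + j` -/
def anc {n m : ℕ} (j : ℕ) (b : Fin n → Fin (2 ^ (m + j))) : Fin n → Fin (2 ^ m) :=
  fun i => ⟨(b i : ℕ) / 2 ^ j, by
    have h1 : (b i : ℕ) < 2 ^ j * 2 ^ m := lt_of_lt_of_eq (b i).isLt (by ring)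
    exact Nat.div_lt_of_lt_mul h1⟩

/-- unit coordinates: maps the cube `Q` onto `[0,1)^n` -/
def uc {n : ℕ} (Q : Dy n) (x : En n) : En n :=
  (2 : ℝ) ^ Q.1 • x - WithLp.toLp 2 (fun i => (Q.2 i : ℝ))

/-- the corner of the subcube in unit coordinates -/
def pos {n m : ℕ} (b : Fin n → Fin (2 ^ m)) : En n :=
  WithLp.toLp 2 (fun i => (b i : ℝ) / 2 ^ m)

/-- A (normalised) mass distribution below the cube `Q`, carried by `A`, of growth `s`. -/
structure Mass (n : ℕ) (s : ℝ) (A : Set (En n)) (Q : Dy n) where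
  P : (m : ℕ) → (Fin n → Fin (2 ^ m)) → ℝ
  nonneg : ∀ m b, 0 ≤ P m b
  total : ∑ b, P 0 b = 1
  split : ∀ m b, P m b = ∑ e : Fin n → Fin 2, P (m + 1) (sb b e)
  bound : ∀ m b, P m b ≤ (2 : ℝ) ^ (-(s * m))
  supp : ∀ m b, P m b ≠ 0 → (A ∩ cube (sub Q m b)).Nonempty

end

end Pool.Agent.H47A
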