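import Pool.Agent.Helper47_Angle.Defs

/-!
# Module M9: positive Hausdorff dimension excess gives positive dyadic content
-/

set_option autoImplicit false
namespace Pool.Agent.H47A
open scoped BigOperators Classical ENNReal
open MeasureTheory
noncomputable section

namespace DimHAux

theorem dist_le_of_mem_cube {n : ℕ} {Q : Dy n} {x y : En n} (hx : x ∈ cube Q) (hy : y ∈ cube Q) :
    dist x y ≤ Real.sqrt n * ((2 : ℝ) ^ Q.1)⁻¹ := by
  have h2 : (0 : ℝ) < (2 : ℝ) ^ Q.1 := by positivity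
  have hcoord : ∀ i, dist (x i) (y i) ^ 2 ≤ (((2 : ℝ) ^ Q.1)⁻¹) ^ 2 := by
    intro i
    have hx' : ⌊(2 : ℝ) ^ Q.1 * x i⌋ = Q.2 i := congrFun (congrArg Prod.snd hx) i
    have hy' : ⌊(2 : ℝ) ^ Q.1 * y i⌋ = Q.2 i := congrFun (congrArg Prod.snd hy) i
    have hx1 := Int.floor_le ((2 : ℝ) ^ Q.1 * x i)
    have hx2 := Int.lt_floor_add_one ((2 : ℝ) ^ Q.1 * x i)
    have hy1 := Int.floor_le ((2 : ℝ) ^ Q.1 * y i)
    have hy2 := Int.lt_floor_add_one ((2 : ℝ) ^ Q.1 * y i)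
    rw [hx'] at hx1 hx2
    rw [hy'] at hy1 hy2
    have h3 : |(2 : ℝ) ^ Q.1 * (x i - y i)| ≤ 1 := by
      rw [abs_le]
      constructor <;> nlinarith
    rw [abs_mul, abs_of_pos h2] at h3
    have h4 : dist (x i) (y i) ≤ ((2 : ℝ) ^ Q.1)⁻¹ := by
      rw [Real.dist_eq, ← one_div, le_div_iff₀ h2]
      linarith
    exact pow_le_pow_left₀ dist_nonneg h4 2
  rw [EuclideanSpace.dist_eq]
  calc Real.sqrt (∑ i, dist (x i) (y i) ^ 2)
      ≤ Real.sqrt (∑ _i : Fin n, (((2 : ℝ) ^ Q.1)⁻¹) ^ 2) :=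
        Real.sqrt_le_sqrt (Finset.sum_le_sum fun i _ => hcoord i)
    _ = Real.sqrt (n * (((2 : ℝ) ^ Q.1)⁻¹) ^ 2) := by simp
    _ = Real.sqrt n * ((2 : ℝ) ^ Q.1)⁻¹ := by
        rw [Real.sqrt_mul (Nat.cast_nonneg n), Real.sqrt_sq (by positivity)]

/-- the side of the cube, as an extended nonnegative real -/
def side {n : ℕ} (Q : Dy n) : ℝ≥0∞ := ENNReal.ofReal (((2 : ℝ) ^ Q.1)⁻¹)

theorem diam_cube_le {n : ℕ} (Q : Dy n) :
    Metric.ediam (cube Q) ≤ ENNReal.ofReal (Real.sqrt n) * side Q := by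
  apply Metric.ediam_le
  intro x hx y hy
  rw [edist_dist, side, ← ENNReal.ofReal_mul (Real.sqrt_nonneg _)]
  exact ENNReal.ofReal_le_ofReal (dist_le_of_mem_cube hx hy)

theorem side_rpow {n : ℕ} (s : ℝ) (hs : 0 < s) (Q : Dy n) : side Q ^ s = wt s Q := by
  unfold side wt
  rw [ENNReal.ofReal_rpow_of_nonneg (by positivity) hs.le]
  congr 1
  rw [← Real.rpow_natCast, ← Real.rpow_neg (by norm_num), ← Real.rpow_mul (by norm_num)]
  congr 1
  ring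

end DimHAux

open DimHAux in
theorem cont_pos_of_dimH {n : ℕ} (s : ℝ) (hs : 0 < s) (A : Set (En n))
    (h : ENNReal.ofReal s < dimH A) : 0 < cont s A := by
  by_contra hcon
  have h0 : cont s A = 0 := by simpa using hcon
  -- covers of cost `≤ 1 / (k+1)`
  have hcov : ∀ k : ℕ, ∃ 𝒬 : Set (Dy n), A ⊆ (⋃ Q ∈ 𝒬, cube Q) ∧
      ∑' Q : 𝒬, wt s (Q : Dy n) < ((k : ℝ≥0∞) + 1)⁻¹ := by
    intro k
    have hpos : (0 : ℝ≥0∞) < ((k : ℝ≥0∞) + 1)⁻¹ := by
      rw [ENNReal.inv_pos]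
      exact ENNReal.add_ne_top.2 ⟨ENNReal.natCast_ne_top k, ENNReal.one_ne_top⟩
    have := h0.trans_lt hpos
    unfold cont at this
    simp only [iInf_lt_iff] at this
    obtain ⟨𝒬, hA, hlt⟩ := this
    exact ⟨𝒬, hA, hlt⟩
  choose 𝒬 hA hlt using hcov
  set D : ℝ≥0∞ := ENNReal.ofReal (Real.sqrt n) with hD
  have hDtop : D ≠ ⊤ := ENNReal.ofReal_ne_top
  have hside : ∀ k (Q : 𝒬 k), side (Q : Dy n) ≤ (((k : ℝ≥0∞) + 1)⁻¹) ^ (1 / s) := by
    intro k Q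
    have h1 : wt s (Q : Dy n) ≤ ((k : ℝ≥0∞) + 1)⁻¹ :=
      (ENNReal.le_tsum Q).trans (hlt k).le
    rw [← side_rpow s hs] at h1
    have h2 := ENNReal.rpow_le_rpow h1 (by positivity : (0 : ℝ) ≤ 1 / s)
    rwa [← ENNReal.rpow_mul, mul_one_div_cancel hs.ne', ENNReal.rpow_one] at h2
  have hinv : Filter.Tendsto (fun k : ℕ => ((k : ℝ≥0∞) + 1)⁻¹) Filter.atTop (nhds 0) := by
    have := ENNReal.tendsto_inv_nat_nhds_zero.comp (Filter.tendsto_add_atTop_nat 1)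
    refine this.congr fun k => ?_
    simp
  have hr : Filter.Tendsto (fun k : ℕ => D * (((k : ℝ≥0∞) + 1)⁻¹) ^ (1 / s)) Filter.atTop
      (nhds 0) := by
    have h1 : Filter.Tendsto (fun k : ℕ => (((k : ℝ≥0∞) + 1)⁻¹) ^ (1 / s)) Filter.atTop
        (nhds ((0 : ℝ≥0∞) ^ (1 / s))) :=
      (ENNReal.continuous_rpow_const.tendsto 0).comp hinv
    rw [ENNReal.zero_rpow_of_pos (by positivity)] at h1
    have h2 := ENNReal.Tendsto.const_mul (a := D) h1 (Or.inr hDtop)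
    rwa [mul_zero] at h2
  have hle := Measure.hausdorffMeasure_le_liminf_tsum (X := En n) s A
    (l := Filter.atTop) (fun k : ℕ => D * (((k : ℝ≥0∞) + 1)⁻¹) ^ (1 / s)) hr
    (fun k (Q : 𝒬 k) => cube (Q : Dy n))
    (Filter.Eventually.of_forall fun k Q =>
      (diam_cube_le (Q : Dy n)).trans (mul_le_mul_right (hside k Q) D))
    (Filter.Eventually.of_forall fun k => by
      refine (hA k).trans ?_
      intro x hx
      simp only [Set.mem_iUnion] at hx ⊢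
      obtain ⟨Q, hQ, hxQ⟩ := hx
      exact ⟨⟨Q, hQ⟩, hxQ⟩)
  have hbound : ∀ k, ∑' Q : 𝒬 k, Metric.ediam (cube (Q : Dy n)) ^ s ≤
      D ^ s * ((k : ℝ≥0∞) + 1)⁻¹ := by
    intro k
    calc ∑' Q : 𝒬 k, Metric.ediam (cube (Q : Dy n)) ^ s
        ≤ ∑' Q : 𝒬 k, D ^ s * wt s (Q : Dy n) := by
          refine ENNReal.tsum_le_tsum fun Q => ?_
          rw [← side_rpow s hs, ← ENNReal.mul_rpow_of_nonneg _ _ hs.le]
          exact ENNReal.rpow_le_rpow (diam_cube_le _) hs.le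
      _ = D ^ s * ∑' Q : 𝒬 k, wt s (Q : Dy n) := ENNReal.tsum_mul_left
      _ ≤ D ^ s * ((k : ℝ≥0∞) + 1)⁻¹ := mul_le_mul_right (hlt k).le _
  have hlim : Filter.Tendsto (fun k : ℕ => D ^ s * ((k : ℝ≥0∞) + 1)⁻¹) Filter.atTop (nhds 0) := by
    have h2 := ENNReal.Tendsto.const_mul (a := D ^ s) hinv
      (Or.inr (ENNReal.rpow_ne_top_of_nonneg hs.le hDtop))
    rwa [mul_zero] at h2
  have hzero : μH[s] A = 0 := by
    refine le_antisymm (hle.trans ?_) bot_le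
    calc Filter.liminf (fun k => ∑' Q : 𝒬 k, Metric.ediam (cube (Q : Dy n)) ^ s) Filter.atTop
        ≤ Filter.liminf (fun k : ℕ => D ^ s * ((k : ℝ≥0∞) + 1)⁻¹) Filter.atTop :=
          Filter.liminf_le_liminf (Filter.Eventually.of_forall hbound)
      _ = 0 := hlim.liminf_eq
  have htop : μH[((s.toNNReal : NNReal) : ℝ)] A = ⊤ := hausdorffMeasure_of_lt_dimH h
  rw [Real.coe_toNNReal s hs.le, hzero] at htop
  exact ENNReal.zero_ne_top htop

end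
end Pool.Agent.H47A
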