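import Pool.Agent.Helper47_Angle.Defs

/-!
# Lower bound for Gaussian self-correlations
-/

set_option autoImplicit false

namespace Pool.Agent.H47A

open scoped BigOperators Classical ENNReal
open MeasureTheory

noncomputable section

theorem gauss_lower_pigeon {κ : Type} (N : ℕ) (L : ℝ) (hL : 1 ≤ L) (T : Finset κ) (a : κ → En N)
    (w : κ → ℝ) (δ : ℝ) (hδ : 0 < δ) (hδ1 : δ ≤ 1) (hw : ∀ t ∈ T, 0 ≤ w t) (hw1 : ∑ t ∈ T, w t = 1)
    (ha : ∀ t ∈ T, ‖a t‖ ≤ L) :
    Real.exp (-(1 / 2)) / (2 * L * (N + 1) + 3) ^ N * δ ^ N ≤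
      ∑ t ∈ T, ∑ t' ∈ T, w t * w t' * Real.exp (-(‖a t - a t'‖ ^ 2) / (2 * δ ^ 2)) := by
  set h : ℝ := δ / (N + 1) with hh
  have hN : (0 : ℝ) < N + 1 := by positivity
  have hh0 : 0 < h := by rw [hh]; positivity
  set K : ℕ := ⌈L / h⌉₊ with hK
  have hKle : L / h ≤ K := Nat.le_ceil _
  have hKlt : (K : ℝ) < L / h + 1 := Nat.ceil_lt_add_one (by positivity)
  set φ : κ → (Fin N → ℤ) := fun t k => ⌊a t k / h⌋ with hφ
  set S : Finset (Fin N → ℤ) := Fintype.piFinset (fun _ => Finset.Icc (-(K : ℤ)) K) with hS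
  have hcoord : ∀ v : En N, ∀ k, |v k| ≤ ‖v‖ := fun v k => by
    have := PiLp.norm_apply_le v k
    simpa using this
  have hmaps : ∀ t ∈ T, φ t ∈ S := by
    intro t ht
    rw [hS, Fintype.mem_piFinset]
    intro k
    have h1 := (hcoord (a t) k).trans (ha t ht)
    have h2 := abs_le.1 h1
    rw [Finset.mem_Icc]
    simp only [hφ]
    constructor
    · rw [Int.le_floor]
      push_cast
      rw [le_div_iff₀ hh0]
      rw [div_le_iff₀ hh0] at hKle
      linarith
    · have h3 : a t k / h ≤ K := by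
        rw [div_le_iff₀ hh0]
        rw [div_le_iff₀ hh0] at hKle
        linarith
      have h4 : (⌊a t k / h⌋ : ℝ) ≤ (K : ℝ) := (Int.floor_le _).trans h3
      exact_mod_cast h4
  -- points of one cell are close
  have hclose : ∀ t t', φ t = φ t' → ‖a t - a t'‖ ^ 2 ≤ δ ^ 2 := by
    intro t t' htt
    rw [EuclideanSpace.norm_sq_eq]
    calc ∑ k, ‖(a t - a t') k‖ ^ 2 ≤ ∑ _k : Fin N, h ^ 2 := by
          apply Finset.sum_le_sum
          intro k _
          have h1 : ⌊a t k / h⌋ = ⌊a t' k / h⌋ := congrFun htt k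
          have h2 := Int.abs_sub_lt_one_of_floor_eq_floor h1
          have h3 : |(a t k - a t' k) / h| < 1 := by rwa [sub_div]
          rw [abs_div, abs_of_pos hh0, div_lt_one hh0] at h3
          rw [PiLp.sub_apply, Real.norm_eq_abs]
          exact pow_le_pow_left₀ (abs_nonneg _) h3.le 2
      _ = N * h ^ 2 := by simp
      _ ≤ δ ^ 2 := by
          rw [hh, div_pow, mul_div_assoc', div_le_iff₀ (by positivity)]
          have : (0 : ℝ) ≤ N := by positivity
          have hd : 0 ≤ δ ^ 2 := by positivity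
          have h9 : (N : ℝ) ≤ (N + 1) ^ 2 := by nlinarith
          calc (N : ℝ) * δ ^ 2 ≤ (N + 1) ^ 2 * δ ^ 2 := mul_le_mul_of_nonneg_right h9 hd
            _ = δ ^ 2 * (N + 1) ^ 2 := by ring
  have hcard : (S.card : ℝ) ≤ ((2 * L * (N + 1) + 3) / δ) ^ N := by
    have h1 : S.card = (2 * K + 1) ^ N := by
      rw [hS, Fintype.card_piFinset]
      simp only [Int.card_Icc]
      rw [Finset.prod_const, Finset.card_univ, Fintype.card_fin]
      congr 1
      omega
    rw [h1]
    push_cast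
    apply pow_le_pow_left₀ (by positivity)
    rw [le_div_iff₀ hδ]
    have h2 : L / h = L * (N + 1) / δ := by
      rw [hh]; field_simp
    rw [h2] at hKlt
    have h3 : (K : ℝ) * δ < L * (N + 1) + δ := by
      calc (K : ℝ) * δ < (L * (N + 1) / δ + 1) * δ := mul_lt_mul_of_pos_right hKlt hδ
        _ = _ := by field_simp
    nlinarith
  have hS0 : (0 : ℝ) < S.card := by
    have h1 : S.card = (2 * K + 1) ^ N := by
      rw [hS, Fintype.card_piFinset]
      simp only [Int.card_Icc]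
      rw [Finset.prod_const, Finset.card_univ, Fintype.card_fin]
      congr 1
      omega
    rw [h1]
    positivity
  set mc : (Fin N → ℤ) → ℝ := fun c => ∑ t ∈ T with φ t = c, w t with hmc
  have hmsum : ∑ c ∈ S, mc c = 1 := by
    rw [← hw1]
    exact Finset.sum_fiberwise_of_maps_to hmaps w
  have hCS : (1 : ℝ) ≤ S.card * ∑ c ∈ S, mc c ^ 2 := by
    have := sq_sum_le_card_mul_sum_sq (s := S) (f := mc)
    rw [hmsum, one_pow] at this
    exact this
  have hlow : Real.exp (-(1 / 2)) * ∑ c ∈ S, mc c ^ 2 ≤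
      ∑ t ∈ T, ∑ t' ∈ T, w t * w t' * Real.exp (-(‖a t - a t'‖ ^ 2) / (2 * δ ^ 2)) := by
    rw [← Finset.sum_fiberwise_of_maps_to hmaps (fun t => ∑ t' ∈ T, w t * w t' *
      Real.exp (-(‖a t - a t'‖ ^ 2) / (2 * δ ^ 2))), Finset.mul_sum]
    apply Finset.sum_le_sum
    intro c _
    calc Real.exp (-(1 / 2)) * mc c ^ 2
        = ∑ t ∈ T with φ t = c, ∑ t' ∈ T with φ t' = c, w t * w t' * Real.exp (-(1 / 2)) := by
          rw [hmc, sq, Finset.sum_mul_sum, Finset.mul_sum]
          apply Finset.sum_congr rfl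
          intro t _
          rw [Finset.mul_sum]
          apply Finset.sum_congr rfl
          intro t' _
          ring
      _ ≤ ∑ t ∈ T with φ t = c, ∑ t' ∈ T, w t * w t' *
            Real.exp (-(‖a t - a t'‖ ^ 2) / (2 * δ ^ 2)) := by
          apply Finset.sum_le_sum
          intro t ht
          rw [Finset.mem_filter] at ht
          calc ∑ t' ∈ T with φ t' = c, w t * w t' * Real.exp (-(1 / 2))
              ≤ ∑ t' ∈ T with φ t' = c, w t * w t' *
                  Real.exp (-(‖a t - a t'‖ ^ 2) / (2 * δ ^ 2)) := by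
                apply Finset.sum_le_sum
                intro t' ht'
                rw [Finset.mem_filter] at ht'
                apply mul_le_mul_of_nonneg_left _ (mul_nonneg (hw t ht.1) (hw t' ht'.1))
                apply Real.exp_le_exp.2
                have h1 := hclose t t' (ht.2.trans ht'.2.symm)
                rw [neg_div]
                apply neg_le_neg
                rw [div_le_div_iff₀ (by positivity) (by norm_num)]
                linarith
            _ ≤ _ := by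
                apply Finset.sum_le_sum_of_subset_of_nonneg (Finset.filter_subset _ _)
                intro t' ht' _
                exact mul_nonneg (mul_nonneg (hw t ht.1) (hw t' ht')) (Real.exp_pos _).le
  refine le_trans ?_ hlow
  have h5 : 1 / (S.card : ℝ) ≤ ∑ c ∈ S, mc c ^ 2 := by
    rw [div_le_iff₀ hS0]
    linarith
  calc Real.exp (-(1 / 2)) / (2 * L * (N + 1) + 3) ^ N * δ ^ N
      = Real.exp (-(1 / 2)) * (1 / ((2 * L * (N + 1) + 3) / δ) ^ N) := by
        rw [div_pow]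
        field_simp
    _ ≤ Real.exp (-(1 / 2)) * (1 / (S.card : ℝ)) := by
        apply mul_le_mul_of_nonneg_left _ (Real.exp_pos _).le
        exact one_div_le_one_div_of_le hS0 hcard
    _ ≤ _ := mul_le_mul_of_nonneg_left h5 (Real.exp_pos _).le

theorem gauss_lower (N : ℕ) (R : ℝ) (hR : 1 ≤ R) :
    ∃ c : ℝ, 0 < c ∧ ∀ (ι ι' : Type) (I : Finset ι) (J : Finset ι') (x : ι → En N)
      (z : ι' → En N) (p : ι → ℝ) (q : ι' → ℝ) (g : En N →ₗ[ℝ] En N) (δ : ℝ),
      (∀ u, ‖g u‖ ≤ 2 * ‖u‖) → 0 < δ → δ ≤ 1 → (∀ i ∈ I, 0 ≤ p i) → (∀ j ∈ J, 0 ≤ q j) →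
      ∑ i ∈ I, p i = 1 → ∑ j ∈ J, q j = 1 → (∀ i ∈ I, ‖x i‖ ≤ R) → (∀ j ∈ J, ‖z j‖ ≤ R) →
      c * δ ^ N ≤ ∑ i ∈ I, ∑ i' ∈ I, ∑ j ∈ J, ∑ j' ∈ J, p i * p i' * q j * q j' *
        Real.exp (-(‖(z j - z j') - g (x i - x i')‖ ^ 2) / (2 * δ ^ 2)) := by
  refine ⟨Real.exp (-(1 / 2)) / (2 * (3 * R) * (N + 1) + 3) ^ N, by positivity, ?_⟩
  intro ι ι' I J x z p q g δ hg hδ hδ1 hp hq hp1 hq1 hx hz
  have hmain := gauss_lower_pigeon N (3 * R) (by linarith) (I ×ˢ J)
    (fun t => z t.2 - g (x t.1)) (fun t => p t.1 * q t.2) δ hδ hδ1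
    (fun t ht => by
      rw [Finset.mem_product] at ht
      exact mul_nonneg (hp _ ht.1) (hq _ ht.2))
    (by
      rw [Finset.sum_product]
      simp only
      rw [← Finset.sum_mul_sum, hp1, hq1, one_mul])
    (fun t ht => by
      rw [Finset.mem_product] at ht
      calc ‖z t.2 - g (x t.1)‖ ≤ ‖z t.2‖ + ‖g (x t.1)‖ := norm_sub_le _ _
        _ ≤ R + 2 * R := by
            have h1 := hz _ ht.2
            have h2 := hg (x t.1)
            have h3 := hx _ ht.1
            linarith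
        _ = 3 * R := by ring)
  refine hmain.trans (le_of_eq ?_)
  rw [Finset.sum_product]
  apply Finset.sum_congr rfl
  intro i _
  have e1 : ∀ j, ∑ t' ∈ I ×ˢ J, p i * q j * (p t'.1 * q t'.2) *
      Real.exp (-(‖z j - g (x i) - (z t'.2 - g (x t'.1))‖ ^ 2) / (2 * δ ^ 2)) =
      ∑ i' ∈ I, ∑ j' ∈ J, p i * q j * (p i' * q j') *
      Real.exp (-(‖z j - g (x i) - (z j' - g (x i'))‖ ^ 2) / (2 * δ ^ 2)) := by
    intro j
    rw [Finset.sum_product]
  simp only [e1]
  rw [Finset.sum_comm]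
  apply Finset.sum_congr rfl
  intro i' _
  apply Finset.sum_congr rfl
  intro j _
  apply Finset.sum_congr rfl
  intro j' _
  have e2 : z j - g (x i) - (z j' - g (x i')) = (z j - z j') - g (x i - x i') := by
    rw [map_sub]
    abel
  rw [e2]
  ring

end

end Pool.Agent.H47A
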