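import Pool.Agent.Helper47_Angle.Defs
set_option autoImplicit false
namespace Pool.Agent.H47A
open scoped BigOperators Classical ENNReal
open MeasureTheory
noncomputable section

theorem summable_shell (s a : ℝ) (ha : 0 < a) :
    Summable (fun k : ℕ => Real.exp (-(a * (k : ℝ) ^ 2)) * ((k : ℝ) + 1) ^ s) := by
  obtain ⟨m, hm⟩ := exists_nat_ge s
  have h1 : Summable (fun k : ℕ => ((k : ℝ) ^ m * Real.exp (-a * k))) :=
    Real.summable_pow_mul_exp_neg_nat_mul m ha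
  have h2 : Summable (fun k : ℕ => (((k + 1 : ℕ) : ℝ) ^ m * Real.exp (-a * ((k + 1 : ℕ) : ℝ)))) :=
    (summable_nat_add_iff (f := fun k : ℕ => ((k : ℝ) ^ m * Real.exp (-a * k))) 1).2 h1
  have h3 := h2.mul_left (Real.exp a)
  refine Summable.of_nonneg_of_le (fun k => by positivity) (fun k => ?_) h3
  have hk1 : (1 : ℝ) ≤ (k : ℝ) + 1 := by
    have : (0 : ℝ) ≤ k := Nat.cast_nonneg k
    linarith
  have e1 : ((k : ℝ) + 1) ^ s ≤ ((k : ℝ) + 1) ^ m := by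
    rw [← Real.rpow_natCast]
    exact Real.rpow_le_rpow_of_exponent_le hk1 hm
  have e2 : Real.exp (-(a * (k : ℝ) ^ 2)) ≤ Real.exp a * Real.exp (-a * ((k + 1 : ℕ) : ℝ)) := by
    rw [← Real.exp_add]
    apply Real.exp_le_exp.2
    have : (k : ℝ) ≤ (k : ℝ) ^ 2 := by
      have : (k : ℕ) ≤ k ^ 2 := Nat.le_self_pow (by norm_num) k
      exact_mod_cast this
    push_cast
    nlinarith
  calc Real.exp (-(a * (k : ℝ) ^ 2)) * ((k : ℝ) + 1) ^ s
      ≤ (Real.exp a * Real.exp (-a * ((k + 1 : ℕ) : ℝ))) * ((k : ℝ) + 1) ^ m := by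
        gcongr
    _ = Real.exp a * (((k + 1 : ℕ) : ℝ) ^ m * Real.exp (-a * ((k + 1 : ℕ) : ℝ))) := by
        push_cast; ring

/-- M0 -/
theorem gauss_sum_le (s a : ℝ) (hs : 0 ≤ s) (ha : 0 < a) :
    ∃ C : ℝ, 0 < C ∧ ∀ (F : Type) [NormedAddCommGroup F] (ι : Type) (I : Finset ι) (X : ι → F)
      (p : ι → ℝ) (A ρ t : ℝ) (c : F), Fro I X p A s ρ → 0 ≤ A → 0 < t → ρ ≤ t →
      ∑ i ∈ I, p i * Real.exp (-(a * (‖X i - c‖ / t) ^ 2)) ≤ C * A * t ^ s := by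
  have hsum := summable_shell s a ha
  set S : ℝ := ∑' k : ℕ, Real.exp (-(a * (k : ℝ) ^ 2)) * ((k : ℝ) + 1) ^ s with hS
  have hS0 : 0 ≤ S := tsum_nonneg (fun k => by positivity)
  refine ⟨S + 1, by linarith, ?_⟩
  intro F _ ι I X p A ρ t c hF hA ht hρ
  set kf : ι → ℕ := fun i => ⌊‖X i - c‖ / t⌋₊ with hkf
  have step1 : ∑ i ∈ I, p i * Real.exp (-(a * (‖X i - c‖ / t) ^ 2))
      ≤ ∑ i ∈ I, p i * Real.exp (-(a * ((kf i : ℕ) : ℝ) ^ 2)) := by
    apply Finset.sum_le_sum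
    intro i hi
    apply mul_le_mul_of_nonneg_left _ (hF.1 i hi)
    apply Real.exp_le_exp.2
    have h1 : ((kf i : ℕ) : ℝ) ≤ ‖X i - c‖ / t := Nat.floor_le (by positivity)
    have h2 : ((kf i : ℕ) : ℝ) ^ 2 ≤ (‖X i - c‖ / t) ^ 2 := by
      apply pow_le_pow_left₀ (Nat.cast_nonneg _) h1
    nlinarith
  have step2 : ∑ i ∈ I, p i * Real.exp (-(a * ((kf i : ℕ) : ℝ) ^ 2))
      = ∑ k ∈ I.image kf, ∑ i ∈ I with kf i = k, p i * Real.exp (-(a * (k : ℝ) ^ 2)) := by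
    rw [← Finset.sum_fiberwise_of_maps_to (g := kf) (t := I.image kf)
      (fun i hi => Finset.mem_image_of_mem kf hi)]
    apply Finset.sum_congr rfl
    intro k _
    apply Finset.sum_congr rfl
    intro i hi
    rw [(Finset.mem_filter.1 hi).2]
  have step3 : ∀ k ∈ I.image kf, ∑ i ∈ I with kf i = k, p i * Real.exp (-(a * (k : ℝ) ^ 2))
      ≤ (A * t ^ s) * (Real.exp (-(a * (k : ℝ) ^ 2)) * ((k : ℝ) + 1) ^ s) := by
    intro k _
    rw [← Finset.sum_mul]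
    have h1 : ∑ i ∈ I with kf i = k, p i ≤ A * (((k : ℝ) + 1) * t) ^ s := by
      refine le_trans ?_ (hF.2 c (((k : ℝ) + 1) * t) ?_)
      · apply Finset.sum_le_sum_of_subset_of_nonneg
        · intro i hi
          rw [Finset.mem_filter] at hi ⊢
          refine ⟨hi.1, ?_⟩
          have h2 : ‖X i - c‖ / t < (kf i : ℝ) + 1 := Nat.lt_floor_add_one _
          rw [hi.2, div_lt_iff₀ ht] at h2
          exact h2.le
        · intro i hi _
          exact hF.1 i (Finset.mem_filter.1 hi).1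
      · have : (0 : ℝ) ≤ k := Nat.cast_nonneg k
        nlinarith
    have hk0 : (0 : ℝ) ≤ (k : ℝ) + 1 := by positivity
    rw [Real.mul_rpow hk0 ht.le] at h1
    calc (∑ i ∈ I with kf i = k, p i) * Real.exp (-(a * (k : ℝ) ^ 2))
        ≤ (A * (((k : ℝ) + 1) ^ s * t ^ s)) * Real.exp (-(a * (k : ℝ) ^ 2)) := by
          gcongr
      _ = _ := by ring
  have ht0 : 0 ≤ t ^ s := Real.rpow_nonneg ht.le s
  calc ∑ i ∈ I, p i * Real.exp (-(a * (‖X i - c‖ / t) ^ 2))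
      ≤ ∑ i ∈ I, p i * Real.exp (-(a * ((kf i : ℕ) : ℝ) ^ 2)) := step1
    _ = _ := step2
    _ ≤ ∑ k ∈ I.image kf, (A * t ^ s) * (Real.exp (-(a * (k : ℝ) ^ 2)) * ((k : ℝ) + 1) ^ s) :=
        Finset.sum_le_sum step3
    _ = (A * t ^ s) * ∑ k ∈ I.image kf, (Real.exp (-(a * (k : ℝ) ^ 2)) * ((k : ℝ) + 1) ^ s) := by
        rw [Finset.mul_sum]
    _ ≤ (A * t ^ s) * S := by
        apply mul_le_mul_of_nonneg_left _ (mul_nonneg hA ht0)
        exact hsum.sum_le_tsum _ (fun k _ => by positivity)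
    _ ≤ (S + 1) * A * t ^ s := by nlinarith [mul_nonneg hA ht0]

end
end Pool.Agent.H47A
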