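import Pool.Agent.Helper47_Angle.RandJ

/-!
# Module M4b: a random linear map turning every vector by the angle θ
-/

set_option autoImplicit false

namespace Pool.Agent.H47A

open scoped BigOperators Classical ENNReal
open MeasureTheory

noncomputable section

theorem summable_gauss (k : ℕ) :
    Summable (fun j : ℕ => Real.exp (-((j : ℝ) ^ 2) / 4) * ((j : ℝ) + 1) ^ k) := by
  have h1 := Real.summable_pow_mul_exp_neg_nat_mul k (r := 1) one_pos
  have h2 := (summable_nat_add_iff 1).2 h1
  have h3 := h2.mul_left (Real.exp 2)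
  refine Summable.of_nonneg_of_le (fun j => by positivity) (fun j => ?_) h3
  push_cast
  rw [mul_comm (Real.exp (-((j : ℝ) ^ 2) / 4)), mul_left_comm]
  apply mul_le_mul_of_nonneg_left _ (by positivity)
  rw [← Real.exp_add]
  apply Real.exp_le_exp.2
  nlinarith [sq_nonneg ((j : ℝ) - 2)]

theorem integral_gauss_le {Ω : Type} [MeasurableSpace Ω] (P : Measure Ω)
    (X : Ω → ℝ) (hX : Measurable X) (hX0 : ∀ ω, 0 ≤ X ω) (C : ℝ) (hC : 0 ≤ C) (k : ℕ)
    (h : ∀ r : ℝ, 0 < r → P {ω | X ω ≤ r} ≤ ENNReal.ofReal (C * r ^ k)) (δ : ℝ) (hδ : 0 < δ) :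
    ∫ ω, Real.exp (-(X ω ^ 2) / (4 * δ ^ 2)) ∂P ≤
      (C * ∑' j : ℕ, Real.exp (-((j : ℝ) ^ 2) / 4) * ((j : ℝ) + 1) ^ k) * δ ^ k := by
  have hm : Measurable (fun ω => Real.exp (-(X ω ^ 2) / (4 * δ ^ 2))) :=
    Real.measurable_exp.comp (((hX.pow_const 2).neg).div_const _)
  rw [integral_eq_lintegral_of_nonneg_ae (Filter.Eventually.of_forall fun ω => by positivity)
    hm.aestronglyMeasurable]
  have hS := summable_gauss k
  have hSnn : 0 ≤ ∑' j : ℕ, Real.exp (-((j : ℝ) ^ 2) / 4) * ((j : ℝ) + 1) ^ k :=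
    tsum_nonneg fun j => by positivity
  apply ENNReal.toReal_le_of_le_ofReal (by positivity)
  have hset : ∀ j : ℕ, MeasurableSet {ω | X ω ≤ ((j : ℝ) + 1) * δ} := fun j =>
    measurableSet_le hX measurable_const
  calc ∫⁻ ω, ENNReal.ofReal (Real.exp (-(X ω ^ 2) / (4 * δ ^ 2))) ∂P
      ≤ ∫⁻ ω, ∑' j : ℕ, {ω | X ω ≤ ((j : ℝ) + 1) * δ}.indicator
          (fun _ => ENNReal.ofReal (Real.exp (-((j : ℝ) ^ 2) / 4))) ω ∂P := by
        apply lintegral_mono
        intro ω
        refine le_trans ?_ (ENNReal.le_tsum ⌊X ω / δ⌋₊)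
        have h1 : X ω / δ < (⌊X ω / δ⌋₊ : ℝ) + 1 := Nat.lt_floor_add_one _
        have h2 : (⌊X ω / δ⌋₊ : ℝ) ≤ X ω / δ := Nat.floor_le (div_nonneg (hX0 ω) hδ.le)
        rw [Set.indicator_of_mem]
        · apply ENNReal.ofReal_le_ofReal
          apply Real.exp_le_exp.2
          have h3 : (⌊X ω / δ⌋₊ : ℝ) ^ 2 ≤ (X ω / δ) ^ 2 :=
            pow_le_pow_left₀ (Nat.cast_nonneg _) h2 2
          have h4 : -(X ω ^ 2) / (4 * δ ^ 2) = -((X ω / δ) ^ 2) / 4 := by
            field_simp
          rw [h4]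
          linarith
        · rw [div_lt_iff₀ hδ] at h1
          exact h1.le
    _ = ∑' j : ℕ, ∫⁻ ω, {ω | X ω ≤ ((j : ℝ) + 1) * δ}.indicator
          (fun _ => ENNReal.ofReal (Real.exp (-((j : ℝ) ^ 2) / 4))) ω ∂P := by
        apply lintegral_tsum
        intro j
        exact (measurable_const.indicator (hset j)).aemeasurable
    _ = ∑' j : ℕ, ENNReal.ofReal (Real.exp (-((j : ℝ) ^ 2) / 4)) *
          P {ω | X ω ≤ ((j : ℝ) + 1) * δ} := by
        congr 1
        ext j
        rw [lintegral_indicator_const (hset j)]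
    _ ≤ ∑' j : ℕ, ENNReal.ofReal ((C * δ ^ k) *
          (Real.exp (-((j : ℝ) ^ 2) / 4) * ((j : ℝ) + 1) ^ k)) := by
        apply ENNReal.tsum_le_tsum
        intro j
        calc ENNReal.ofReal (Real.exp (-((j : ℝ) ^ 2) / 4)) * P {ω | X ω ≤ ((j : ℝ) + 1) * δ}
            ≤ ENNReal.ofReal (Real.exp (-((j : ℝ) ^ 2) / 4)) *
              ENNReal.ofReal (C * (((j : ℝ) + 1) * δ) ^ k) := by
              gcongr
              exact h _ (by positivity)
          _ = _ := by
              rw [← ENNReal.ofReal_mul (Real.exp_pos _).le]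
              congr 1
              rw [mul_pow]
              ring
    _ = ENNReal.ofReal ((C * ∑' j : ℕ, Real.exp (-((j : ℝ) ^ 2) / 4) * ((j : ℝ) + 1) ^ k)
          * δ ^ k) := by
        rw [← ENNReal.ofReal_tsum_of_nonneg (fun j => by positivity) (hS.mul_left _),
          tsum_mul_left]
        congr 1
        ring

theorem exists_random_map (m : ℕ) (hm : 1 ≤ m) (θ : ℝ) (hθ : 0 < θ) (hθπ : θ < Real.pi) :
    ∃ (Ω : Type) (_ : MeasurableSpace Ω) (P : Measure Ω) (_ : IsProbabilityMeasure P)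
      (g : Ω → En (2 * m) →ₗ[ℝ] En (2 * m)) (C : ℝ), 0 < C ∧
      (∀ u, Measurable (fun ω => g ω u)) ∧
      (∀ ω u, ‖u‖ ≤ ‖g ω u‖) ∧ (∀ ω u, ‖g ω u‖ ≤ 2 * ‖u‖) ∧
      (∀ ω u, inner ℝ u (g ω u) = Real.cos θ * ‖u‖ * ‖g ω u‖) ∧
      ∀ u v : En (2 * m), ∀ δ : ℝ, 0 < δ → δ ≤ ‖u‖ →
        ∫ ω, Real.exp (-(‖v - g ω u‖ ^ 2) / (4 * δ ^ 2)) ∂P ≤ C * (δ / ‖u‖) ^ (2 * m - 1) := by
  obtain ⟨Ω, mΩ, P, hP, J, C, hC, hJm, hJn, hJi, hJs⟩ := exists_random_J m hm
  have hsin : 0 < Real.sin θ := Real.sin_pos_of_pos_of_lt_pi hθ hθπ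
  let μ : Measure ℝ := volume.restrict (Set.Icc (1 : ℝ) 2)
  have hμ : IsProbabilityMeasure μ := by
    constructor
    simp only [μ, Measure.restrict_apply_univ, Real.volume_Icc]
    norm_num
  let cl : ℝ → ℝ := fun t => max 1 (min 2 t)
  have hcl1 : ∀ t, 1 ≤ cl t := fun t => le_max_left _ _
  have hcl2 : ∀ t, cl t ≤ 2 := fun t => max_le (by norm_num) (min_le_left _ _)
  have hcl : ∀ t ∈ Set.Icc (1 : ℝ) 2, cl t = t := by
    intro t ht
    simp only [cl]
    rw [min_eq_right ht.2, max_eq_right ht.1]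
  have hclm : Measurable cl := measurable_const.max (measurable_const.min measurable_id)
  let G : Ω → En (2 * m) →ₗ[ℝ] En (2 * m) := fun ω =>
    Real.cos θ • LinearMap.id + Real.sin θ • J ω
  have hG : ∀ ω u, G ω u = Real.cos θ • u + Real.sin θ • J ω u := fun ω u => rfl
  have hGn : ∀ ω u, ‖G ω u‖ = ‖u‖ := by
    intro ω u
    have h1 : ‖G ω u‖ ^ 2 = ‖u‖ ^ 2 := by
      rw [hG, norm_add_sq_real, norm_smul, norm_smul, inner_smul_left, inner_smul_right, hJi,
        hJn, mul_pow, mul_pow]
      simp only [Real.norm_eq_abs, sq_abs, mul_zero, add_zero]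
      have := Real.cos_sq_add_sin_sq θ
      nlinarith [this, sq_nonneg ‖u‖]
    exact (sq_eq_sq₀ (norm_nonneg _) (norm_nonneg _)).1 h1
  let g : Ω × ℝ → En (2 * m) →ₗ[ℝ] En (2 * m) := fun p => cl p.2 • G p.1
  have hg : ∀ p u, g p u = cl p.2 • G p.1 u := fun p u => rfl
  have hgn : ∀ p u, ‖g p u‖ = cl p.2 * ‖u‖ := by
    intro p u
    rw [hg, norm_smul, hGn, Real.norm_of_nonneg (by linarith [hcl1 p.2])]
  have hgm : ∀ u, Measurable (fun p => g p u) := by
    intro u
    have h1 : Measurable (fun p : Ω × ℝ => J p.1 u) := (hJm u).comp measurable_fst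
    have h2 : Measurable (fun p : Ω × ℝ => cl p.2) := hclm.comp measurable_snd
    exact h2.smul (measurable_const.add (h1.const_smul (Real.sin θ)))
  -- small balls
  let C' : ℝ := 2 * C / Real.sin θ ^ (2 * m - 2)
  have hC' : 0 < C' := by positivity
  have hsmall : ∀ u v : En (2 * m), ‖u‖ = 1 → ∀ r : ℝ, 0 < r →
      (P.prod μ) {p | ‖v - g p u‖ ≤ r} ≤ ENNReal.ofReal (C' * r ^ (2 * m - 1)) := by
    intro u v hu r hr
    have hSm : MeasurableSet {p : Ω × ℝ | ‖v - g p u‖ ≤ r} :=
      measurableSet_le (measurable_const.sub (hgm u)).norm measurable_const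
    rw [Measure.prod_apply_symm hSm]
    calc ∫⁻ t, P ((fun ω => (ω, t)) ⁻¹' {p : Ω × ℝ | ‖v - g p u‖ ≤ r}) ∂μ
        ≤ ∫⁻ t, (Set.Icc (‖v‖ - r) (‖v‖ + r)).indicator
            (fun _ => ENNReal.ofReal (C * (r / Real.sin θ) ^ (2 * m - 2))) t ∂μ := by
          apply setLIntegral_mono' measurableSet_Icc
          intro t ht
          have hct := hcl t ht
          by_cases htv : t ∈ Set.Icc (‖v‖ - r) (‖v‖ + r)
          · rw [Set.indicator_of_mem htv]
            refine le_trans (measure_mono ?_) (hJs u ((Real.sin θ)⁻¹ • (t⁻¹ • v -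
              Real.cos θ • u)) hu (r / Real.sin θ) (by positivity))
            intro ω hω
            have ht0 : 0 < t := by linarith [ht.1]
            have h1 : ‖v - t • G ω u‖ ≤ r := by
              have := hω
              simp only [Set.mem_preimage, Set.mem_ofPred_eq, hg, hct] at this
              exact this
            have h2 : ‖t⁻¹ • v - G ω u‖ ≤ r := by
              have h3 : t⁻¹ • v - G ω u = t⁻¹ • (v - t • G ω u) := by
                rw [smul_sub, smul_smul, inv_mul_cancel₀ ht0.ne', one_smul]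
              rw [h3, norm_smul, norm_inv, Real.norm_of_nonneg ht0.le]
              calc t⁻¹ * ‖v - t • G ω u‖ ≤ 1 * r := by
                    apply mul_le_mul _ h1 (norm_nonneg _) zero_le_one
                    exact inv_le_one_of_one_le₀ ht.1
                _ = r := one_mul r
            rw [Set.mem_ofPred_eq, le_div_iff₀ hsin]
            have h4 : J ω u - (Real.sin θ)⁻¹ • (t⁻¹ • v - Real.cos θ • u) =
                (-(Real.sin θ)⁻¹) • (t⁻¹ • v - G ω u) := by
              rw [hG, neg_smul, ← smul_neg, neg_sub, ← smul_right_injective _ hsin.ne' |>.eq_iff]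
              simp only [smul_sub, smul_add, smul_smul, mul_inv_cancel₀ hsin.ne']
              have : Real.sin θ * ((Real.sin θ)⁻¹ * t⁻¹) = t⁻¹ := by field_simp
              rw [this]
              have : Real.sin θ * ((Real.sin θ)⁻¹ * Real.cos θ) = Real.cos θ := by field_simp
              rw [this]
              have : Real.sin θ * ((Real.sin θ)⁻¹ * Real.sin θ) = Real.sin θ := by field_simp
              rw [this]
              abel
            rw [h4, norm_smul, norm_neg, norm_inv, Real.norm_of_nonneg hsin.le, mul_comm,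
              ← mul_assoc, mul_inv_cancel₀ hsin.ne', one_mul]
            exact h2
          · rw [Set.indicator_of_notMem htv]
            have : (fun ω => (ω, t)) ⁻¹' {p : Ω × ℝ | ‖v - g p u‖ ≤ r} = ∅ := by
              ext ω
              simp only [Set.mem_preimage, Set.mem_ofPred_eq, Set.mem_empty_iff_false, iff_false,
                not_le]
              by_contra hcon
              rw [not_lt] at hcon
              apply htv
              have h1 : ‖g (ω, t) u‖ = t := by rw [hgn, hct, hu, mul_one]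
              have h2 := abs_norm_sub_norm_le v (g (ω, t) u)
              rw [h1] at h2
              have h3 := abs_le.1 (h2.trans hcon)
              exact ⟨by linarith [h3.2], by linarith [h3.1]⟩
            rw [this]
            simp
      _ ≤ ∫⁻ t, (Set.Icc (‖v‖ - r) (‖v‖ + r)).indicator
            (fun _ => ENNReal.ofReal (C * (r / Real.sin θ) ^ (2 * m - 2))) t := by
          exact lintegral_mono' Measure.restrict_le_self (fun t => le_refl _)
      _ = ENNReal.ofReal (C * (r / Real.sin θ) ^ (2 * m - 2)) * ENNReal.ofReal (2 * r) := by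
          rw [lintegral_indicator_const measurableSet_Icc, Real.volume_Icc]
          congr 2
          ring
      _ = ENNReal.ofReal (C' * r ^ (2 * m - 1)) := by
          rw [← ENNReal.ofReal_mul (by positivity)]
          congr 1
          simp only [C']
          rw [div_pow]
          have h1 : r ^ (2 * m - 1) = r ^ (2 * m - 2) * r := by
            rw [← pow_succ]
            congr 1
            omega
          rw [h1]
          field_simp
  refine ⟨Ω × ℝ, inferInstance, P.prod μ, inferInstance, g,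
    C' * ∑' j : ℕ, Real.exp (-((j : ℝ) ^ 2) / 4) * ((j : ℝ) + 1) ^ (2 * m - 1), ?_, hgm,
    ?_, ?_, ?_, ?_⟩
  · apply mul_pos hC'
    exact (summable_gauss (2 * m - 1)).tsum_pos (fun j => by positivity) 0 (by positivity)
  · intro p u
    rw [hgn]
    nlinarith [hcl1 p.2, norm_nonneg u]
  · intro p u
    rw [hgn]
    nlinarith [hcl2 p.2, norm_nonneg u]
  · intro p u
    rw [hgn, hg, hG, inner_smul_right, inner_add_right, inner_smul_right, inner_smul_right, hJi,
      real_inner_self_eq_norm_sq]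
    ring
  · intro u v δ hδ hδu
    have hu0 : 0 < ‖u‖ := hδ.trans_le hδu
    set u' : En (2 * m) := ‖u‖⁻¹ • u with hu'
    set v' : En (2 * m) := ‖u‖⁻¹ • v with hv'
    have hn : ‖u'‖ = 1 := by
      rw [hu', norm_smul, norm_inv, norm_norm, inv_mul_cancel₀ hu0.ne']
    have hkey := integral_gauss_le (P.prod μ) (fun p => ‖v' - g p u'‖)
      (measurable_const.sub (hgm u')).norm (fun p => norm_nonneg _) C' hC'.le (2 * m - 1)
      (fun r hr => hsmall u' v' hn r hr) (δ / ‖u‖) (by positivity)
    refine le_trans (le_of_eq ?_) hkey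
    congr 1
    ext p
    congr 1
    have h1 : v' - g p u' = ‖u‖⁻¹ • (v - g p u) := by
      rw [hv', hu', map_smul, smul_sub]
    rw [h1, norm_smul, norm_inv, norm_norm]
    field_simp

end

end Pool.Agent.H47A
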