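import Pool.Agent.Helper47_Angle.FourPointOf
import Pool.Agent.Helper47_Angle.GaussSum
import Pool.Agent.Helper47_Angle.Cone
import Pool.Agent.Helper47_Angle.GaussLower
import Pool.Agent.Helper47_Angle.RandMap

set_option autoImplicit false
namespace Pool.Agent.H47A
open scoped BigOperators Classical ENNReal
open MeasureTheory
noncomputable section

theorem four_point_pos (n : ℕ) (θ s A R : ℝ) (hθ : 0 < θ) (hθπ : θ < Real.pi)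
    (hs : ((n : ℝ) + 1) / 2 + 3 ≤ s) (hA : 0 < A) (hR : 1 ≤ R) :
    ∃ c₀ r₀ δ₀ : ℝ, 0 < c₀ ∧ 0 < r₀ ∧ 0 < δ₀ ∧ ∀ δ : ℝ, 0 < δ → δ ≤ δ₀ →
      ∃ ρ₀ : ℝ, 0 < ρ₀ ∧ ∀ (ι ι' : Type) (I : Finset ι) (J : Finset ι') (x : ι → En n)
        (z : ι' → En n) (p : ι → ℝ) (q : ι' → ℝ) (ρ : ℝ), 0 < ρ → ρ ≤ ρ₀ →
        Fro I x p A s ρ → Fro J z q A s ρ → (∀ i ∈ I, ‖x i‖ ≤ R) → (∀ j ∈ J, ‖z j‖ ≤ R) →
        ∑ i ∈ I, p i = 1 → ∑ j ∈ J, q j = 1 →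
        c₀ ≤ ∑ i ∈ I, ∑ i' ∈ I, ∑ j ∈ J, ∑ j' ∈ J, p i * p i' * q j * q j' *
          (if r₀ ≤ ‖x i - x i'‖ ∧ r₀ ≤ ‖z j - z j'‖ then
            gk δ (Phi (Real.cos θ) (x i - x i') (z j - z j')) else 0) :=
  M6.four_point_pos_of gauss_sum_le cone_stab exists_random_map gauss_lower
    n θ s A R hθ hθπ hs hA hR

end
end Pool.Agent.H47A
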