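import Pool.Agent.Helper47_Angle.Content

/-!
# Mass distributions below saturated cubes
-/

set_option autoImplicit false

namespace Pool.Agent.H47A

open scoped BigOperators Classical ENNReal
open MeasureTheory

noncomputable section

namespace MassExAux

/-- index of the parent of a subcube -/
def par {n m : ℕ} (b : Fin n → Fin (2 ^ (m + 1))) : Fin n → Fin (2 ^ m) :=
  fun i => ⟨(b i : ℕ) / 2, by
    have h1 : (b i : ℕ) < 2 ^ m * 2 := lt_of_lt_of_eq (b i).isLt (pow_succ 2 m)
    omega⟩

theorem par_sb {n m : ℕ} (b : Fin n → Fin (2 ^ m)) (e : Fin n → Fin 2) : par (sb b e) = b := by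
  funext i
  apply Fin.ext
  simp only [par, sb]
  have := (e i).isLt
  omega

theorem child_sub {n m : ℕ} (Q : Dy n) (b : Fin n → Fin (2 ^ m)) (e : Fin n → Fin 2) :
    child (sub Q m b) e = sub Q (m + 1) (sb b e) := by
  refine Prod.ext rfl (funext fun i => ?_)
  simp only [child, sub, sb]
  push_cast
  ring

theorem sub_zero_eq {n : ℕ} (Q : Dy n) (b : Fin n → Fin (2 ^ 0)) : sub Q 0 b = Q := by
  refine Prod.ext rfl (funext fun i => ?_)
  simp only [sub]
  have := (b i).isLt
  have h : ((b i : ℕ) : ℤ) = 0 := by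
    have : (b i : ℕ) = 0 := by simp
    exact_mod_cast this
  rw [h]
  ring

/-- top down distribution of the mass proportionally to `c` -/
def massP {n : ℕ} (c : (m : ℕ) → (Fin n → Fin (2 ^ m)) → ℝ) :
    (m : ℕ) → (Fin n → Fin (2 ^ m)) → ℝ
  | 0, _ => 1
  | m + 1, b => massP c m (par b) * (c (m + 1) b / ∑ e : Fin n → Fin 2, c (m + 1) (sb (par b) e))

end MassExAux

open MassExAux

theorem exists_mass {n : ℕ} (s : ℝ) (hs : 0 < s) (A : Set (En n)) (Q : Dy n)
    (h : Sat s A Q) : Nonempty (Mass n s A Q) := by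
  set w : ℝ := (wt s Q).toReal with hw
  have hwQ : w = (2 : ℝ) ^ (-(s * Q.1)) := by
    rw [hw, wt, ENNReal.toReal_ofReal (by positivity)]
  have hw0 : 0 < w := by rw [hwQ]; positivity
  set c : (m : ℕ) → (Fin n → Fin (2 ^ m)) → ℝ := fun m b =>
    (cont s (A ∩ cube (sub Q m b))).toReal / w with hc
  have hne : ∀ P : Dy n, cont s (A ∩ cube P) ≠ ∞ := fun P =>
    ne_top_of_le_ne_top ENNReal.ofReal_ne_top (cont_le_wt s Set.inter_subset_right)
  have hc0 : ∀ m b, 0 ≤ c m b := fun m b => by
    simp only [hc]
    positivity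
  have hczero : ∀ b, c 0 b = 1 := by
    intro b
    simp only [hc]
    rw [sub_zero_eq]
    have : cont s (A ∩ cube Q) = wt s Q := h
    rw [this]
    exact div_self hw0.ne'
  have hcsplit : ∀ m b, c m b ≤ ∑ e : Fin n → Fin 2, c (m + 1) (sb b e) := by
    intro m b
    simp only [hc]
    rw [← Finset.sum_div]
    apply div_le_div_of_nonneg_right _ hw0.le
    rw [← ENNReal.toReal_sum (fun e _ => hne _)]
    apply ENNReal.toReal_mono
    · exact (ENNReal.sum_lt_top.2 fun e _ => (hne _).lt_top).ne
    · have := cont_le_children s A (sub Q m b)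
      simpa only [child_sub] using this
  have hcbound : ∀ m b, c m b ≤ (2 : ℝ) ^ (-(s * m)) := by
    intro m b
    simp only [hc]
    rw [div_le_iff₀ hw0, hwQ, ← Real.rpow_add (by norm_num)]
    have h1 : (cont s (A ∩ cube (sub Q m b))).toReal ≤ (wt s (sub Q m b)).toReal :=
      ENNReal.toReal_mono ENNReal.ofReal_ne_top (cont_le_wt s Set.inter_subset_right)
    refine h1.trans (le_of_eq ?_)
    rw [wt, ENNReal.toReal_ofReal (by positivity)]
    congr 1
    simp only [sub]
    push_cast
    ring
  have hP0 : ∀ m b, 0 ≤ massP c m b := by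
    intro m
    induction m with
    | zero => intro b; simp [massP]
    | succ m ih =>
      intro b
      simp only [massP]
      exact mul_nonneg (ih _) (div_nonneg (hc0 _ _) (Finset.sum_nonneg fun e _ => hc0 _ _))
  have hPc : ∀ m b, massP c m b ≤ c m b := by
    intro m
    induction m with
    | zero => intro b; rw [hczero]; simp [massP]
    | succ m ih =>
      intro b
      simp only [massP]
      set σ := ∑ e : Fin n → Fin 2, c (m + 1) (sb (par b) e) with hσ
      have hσ0 : 0 ≤ σ := Finset.sum_nonneg fun e _ => hc0 _ _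
      rcases hσ0.eq_or_lt with h1 | h1
      · rw [← h1, div_zero, mul_zero]
        exact hc0 _ _
      · have h2 : massP c m (par b) ≤ σ := (ih _).trans (hcsplit m (par b))
        calc massP c m (par b) * (c (m + 1) b / σ) ≤ σ * (c (m + 1) b / σ) :=
              mul_le_mul_of_nonneg_right h2 (div_nonneg (hc0 _ _) hσ0)
          _ = c (m + 1) b := by field_simp
  refine ⟨⟨massP c, hP0, ?_, ?_, fun m b => (hPc m b).trans (hcbound m b), ?_⟩⟩
  · simp [massP]
  · intro m b
    simp only [massP, par_sb]
    rw [← Finset.mul_sum, ← Finset.sum_div]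
    set σ := ∑ e : Fin n → Fin 2, c (m + 1) (sb b e) with hσ
    by_cases h1 : σ = 0
    · have h2 : massP c m b ≤ 0 := by
        rw [← h1]
        exact (hPc m b).trans (hcsplit m b)
      have h3 : massP c m b = 0 := le_antisymm h2 (hP0 m b)
      rw [h3, zero_mul]
    · rw [div_self h1, mul_one]
  · intro m b hb
    by_contra hcon
    rw [Set.not_nonempty_iff_eq_empty] at hcon
    apply hb
    apply le_antisymm _ (hP0 m b)
    refine (hPc m b).trans (le_of_eq ?_)
    simp only [hc]
    rw [hcon, cont_empty]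
    simp

end

end Pool.Agent.H47A
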