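import Pool.Agent.Helper47_Angle.Defs

/-! # Module M12: mass distributions below a saturated cube -/

set_option autoImplicit false

namespace Pool.Agent.H47A

open scoped BigOperators Classical ENNReal
open MeasureTheory

noncomputable section

theorem sb_bijective (n m : ℕ) : Function.Bijective
    (fun x : (Fin n → Fin (2 ^ m)) × (Fin n → Fin 2) => sb x.1 x.2) := by
  constructor
  · rintro ⟨b, e⟩ ⟨b', e'⟩ h
    have h' : ∀ i, 2 * (b i : ℕ) + (e i : ℕ) = 2 * (b' i : ℕ) + (e' i : ℕ) := by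
      intro i
      have := congrArg (fun f => (f i : ℕ)) h
      simpa [sb] using this
    have h1 : b = b' := by
      funext i
      have := h' i
      have h2 := (e i).isLt
      have h3 := (e' i).isLt
      exact Fin.ext (by omega)
    have h2 : e = e' := by
      funext i
      have := h' i
      have h2 := (e i).isLt
      have h3 := (e' i).isLt
      exact Fin.ext (by omega)
    rw [h1, h2]
  · intro b'
    refine ⟨(fun i => ⟨(b' i : ℕ) / 2, ?_⟩, fun i => ⟨(b' i : ℕ) % 2, ?_⟩), ?_⟩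
    · have h1 : (b' i : ℕ) < 2 ^ (m + 1) := (b' i).isLt
      have h2 : 2 ^ (m + 1) = 2 ^ m * 2 := pow_succ 2 m
      omega
    · omega
    · funext i
      refine Fin.ext ?_
      simp only [sb]
      omega

theorem anc_sb {n m j : ℕ} (b : Fin n → Fin (2 ^ (m + j))) (e : Fin n → Fin 2) :
    anc (n := n) (m := m) (j + 1) (sb b e) = anc j b := by
  funext i
  refine Fin.ext ?_
  simp only [anc, sb]
  rw [pow_succ, mul_comm (2 ^ j) 2, ← Nat.div_div_eq_div_mul]
  congr 1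
  have := (e i).isLt
  omega

theorem Mass.sum_succ {n : ℕ} {s : ℝ} {A : Set (En n)} {Q : Dy n} (M : Mass n s A Q)
    (m : ℕ) (g : (Fin n → Fin (2 ^ (m + 1))) → ℝ) (f : (Fin n → Fin (2 ^ m)) → ℝ)
    (h : ∀ b e, g (sb b e) = f b) :
    ∑ b, M.P (m + 1) b * g b = ∑ b, M.P m b * f b := by
  rw [← (sb_bijective n m).sum_comp (fun b => M.P (m + 1) b * g b), Fintype.sum_prod_type]
  refine Finset.sum_congr rfl (fun b _ => ?_)
  rw [M.split m b, Finset.sum_mul]
  refine Finset.sum_congr rfl (fun e _ => ?_)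
  simp only [h]

theorem Mass.sum_anc {n : ℕ} {s : ℝ} {A : Set (En n)} {Q : Dy n} (M : Mass n s A Q)
    (m j : ℕ) (f : (Fin n → Fin (2 ^ m)) → ℝ) :
    ∑ b : Fin n → Fin (2 ^ (m + j)), M.P (m + j) b * f (anc j b) = ∑ b, M.P m b * f b := by
  induction j with
  | zero =>
    refine Finset.sum_congr rfl (fun b _ => ?_)
    congr 2
    funext i
    refine Fin.ext ?_
    simp [anc]
  | succ j ih =>
    rw [← ih]
    exact M.sum_succ (m + j) (fun b => f (anc (j + 1) b)) (fun b => f (anc j b))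
      (fun b e => by rw [anc_sb])

theorem Mass.sum_eq_one {n : ℕ} {s : ℝ} {A : Set (En n)} {Q : Dy n} (M : Mass n s A Q)
    (m : ℕ) : ∑ b, M.P m b = 1 := by
  induction m with
  | zero => exact M.total
  | succ m ih =>
    have := M.sum_succ m (fun _ => 1) (fun _ => 1) (fun _ _ => rfl)
    simp only [mul_one] at this
    rw [this, ih]

theorem mem_cube_sub {n m : ℕ} (Q : Dy n) (b : Fin n → Fin (2 ^ m)) (x : En n)
    (hx : x ∈ cube (sub Q m b)) (i : Fin n) :
    (b i : ℝ) / 2 ^ m ≤ (2 : ℝ) ^ Q.1 * x i - Q.2 i ∧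
      (2 : ℝ) ^ Q.1 * x i - Q.2 i < ((b i : ℝ) + 1) / 2 ^ m := by
  have h1 : ⌊(2 : ℝ) ^ (Q.1 + m) * x i⌋ = 2 ^ m * Q.2 i + (b i : ℤ) := by
    have h := congrArg (fun P : Dy n => P.2 i) (show cell (sub Q m b).1 x = sub Q m b from hx)
    exact h
  rw [Int.floor_eq_iff] at h1
  obtain ⟨h2, h3⟩ := h1
  push_cast at h2 h3
  have hm : (0 : ℝ) < 2 ^ m := by positivity
  have e : (2 : ℝ) ^ (Q.1 + m) * x i = 2 ^ m * (2 ^ Q.1 * x i) := by rw [pow_add]; ring
  rw [e] at h2 h3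
  constructor
  · rw [div_le_iff₀ hm]; linarith
  · rw [lt_div_iff₀ hm]; linarith

theorem uc_sub_pos {n m : ℕ} (Q : Dy n) (b : Fin n → Fin (2 ^ m)) (x : En n)
    (hx : x ∈ cube (sub Q m b)) (i : Fin n) :
    |uc Q x i - (b i : ℝ) / 2 ^ m| ≤ (2 : ℝ)⁻¹ ^ m := by
  obtain ⟨h1, h2⟩ := mem_cube_sub Q b x hx i
  have h3 : uc Q x i = (2 : ℝ) ^ Q.1 * x i - Q.2 i := by
    simp [uc]
  have h4 : (2 : ℝ)⁻¹ ^ m = 1 / 2 ^ m := by
    rw [inv_pow, one_div]
  rw [h3, abs_le, h4]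
  rw [add_div] at h2
  constructor
  · have : 0 ≤ (1 : ℝ) / 2 ^ m := by positivity
    linarith
  · linarith

theorem sub_subset {n m : ℕ} (Q : Dy n) (b : Fin n → Fin (2 ^ m)) : cube (sub Q m b) ⊆ cube Q := by
  intro x hx
  show cell Q.1 x = Q
  refine Prod.ext rfl ?_
  funext i
  obtain ⟨h1, h2⟩ := mem_cube_sub Q b x hx i
  show ⌊(2 : ℝ) ^ Q.1 * x i⌋ = Q.2 i
  rw [Int.floor_eq_iff]
  have hm : (0 : ℝ) < 2 ^ m := by positivity
  have h3 : 0 ≤ (b i : ℝ) / 2 ^ m := by positivity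
  have h4 : ((b i : ℝ) + 1) / 2 ^ m ≤ 1 := by
    rw [div_le_one hm]
    have : (b i : ℕ) + 1 ≤ 2 ^ m := (b i).isLt
    exact_mod_cast this
  constructor <;> linarith

theorem Mass.fro {n : ℕ} {s : ℝ} {A : Set (En n)} {Q : Dy n} (M : Mass n s A Q) (hs : 0 < s)
    (m : ℕ) (X : (Fin n → Fin (2 ^ m)) → En n)
    (hX : ∀ b i, |X b i - (b i : ℝ) / 2 ^ m| ≤ (2 : ℝ)⁻¹ ^ m) :
    Fro Finset.univ X (M.P m) (8 ^ n * (2 : ℝ) ^ s) s ((2 : ℝ)⁻¹ ^ m) := by
  refine ⟨fun b _ => M.nonneg m b, fun c r hr => ?_⟩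
  have hr0 : 0 < r := lt_of_lt_of_le (by positivity) hr
  by_cases hr1 : 1 < r
  · calc ∑ b ∈ Finset.univ with ‖X b - c‖ ≤ r, M.P m b
        ≤ ∑ b, M.P m b := Finset.sum_le_sum_of_subset_of_nonneg (Finset.filter_subset _ _)
            (fun b _ _ => M.nonneg m b)
      _ = 1 := M.sum_eq_one m
      _ ≤ 8 ^ n * (2 : ℝ) ^ s * r ^ s := by
          have h1 : (1 : ℝ) ≤ 8 ^ n := one_le_pow₀ (by norm_num)
          have h2 : (1 : ℝ) ≤ (2 : ℝ) ^ s := Real.one_le_rpow (by norm_num) hs.le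
          have h3 : (1 : ℝ) ≤ r ^ s := Real.one_le_rpow hr1.le hs.le
          have h4 : (1 : ℝ) ≤ 8 ^ n * (2 : ℝ) ^ s := by nlinarith
          nlinarith
  · push_neg at hr1
    -- the scale
    have hex : ∃ k : ℕ, (2 : ℝ)⁻¹ ^ (k + 1) < r ∧ r ≤ (2 : ℝ)⁻¹ ^ k := by
      have hex0 : ∃ k : ℕ, (2 : ℝ)⁻¹ ^ (k + 1) < r := by
        obtain ⟨k, hk⟩ := exists_pow_lt_of_lt_one hr0 (show (2 : ℝ)⁻¹ < 1 by norm_num)
        exact ⟨k, lt_of_le_of_lt (pow_le_pow_of_le_one (by norm_num) (by norm_num)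
          (Nat.le_succ k)) hk⟩
      refine ⟨Nat.find hex0, Nat.find_spec hex0, ?_⟩
      rcases hk : Nat.find hex0 with _ | k
      · simpa using hr1
      · have := Nat.find_min hex0 (m := k) (by omega)
        exact not_lt.1 this
    obtain ⟨k, hk1, hk2⟩ := hex
    have hkm : k ≤ m := by
      by_contra h
      push_neg at h
      have : (2 : ℝ)⁻¹ ^ k < (2 : ℝ)⁻¹ ^ m :=
        pow_lt_pow_right_of_lt_one₀ (by norm_num) (by norm_num) h
      linarith
    obtain ⟨j, rfl⟩ : ∃ j, m = k + j := ⟨m - k, by omega⟩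
    have hkj : (2 : ℝ)⁻¹ ^ (k + j) ≤ (2 : ℝ)⁻¹ ^ k :=
      pow_le_pow_of_le_one (by norm_num) (by norm_num) (by omega)
    -- the ancestors
    let T : Fin n → Finset (Fin (2 ^ k)) := fun i =>
      Finset.univ.filter (fun a => ((a : ℕ) : ℤ) ∈ Finset.Icc (⌊(2 : ℝ) ^ k * c i⌋ - 3)
        (⌊(2 : ℝ) ^ k * c i⌋ + 4))
    have hT : ∀ i, (T i).card ≤ 8 := by
      intro i
      have h1 : (T i).card ≤ (Finset.Icc (⌊(2 : ℝ) ^ k * c i⌋ - 3)
          (⌊(2 : ℝ) ^ k * c i⌋ + 4)).card := by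
        refine Finset.card_le_card_of_injOn (fun a : Fin (2 ^ k) => ((a : ℕ) : ℤ)) ?_ ?_
        · intro a ha
          have := (Finset.mem_filter.1 ha).2
          exact this
        · intro a _ a' _ h
          have h' : ((a : ℕ) : ℤ) = ((a' : ℕ) : ℤ) := h
          exact Fin.ext (by exact_mod_cast h')
      refine h1.trans ?_
      rw [Int.card_Icc]
      omega
    let S : Finset (Fin n → Fin (2 ^ k)) := Fintype.piFinset T
    have hS : (S.card : ℝ) ≤ 8 ^ n := by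
      have : S.card ≤ 8 ^ n := by
        rw [Fintype.card_piFinset]
        calc ∏ i, (T i).card ≤ ∏ _i : Fin n, 8 := Finset.prod_le_prod' (fun i _ => hT i)
          _ = 8 ^ n := by simp
      exact_mod_cast this
    have hmem : ∀ b, ‖X b - c‖ ≤ r → anc j b ∈ S := by
      intro b hb
      rw [Fintype.mem_piFinset]
      intro i
      simp only [T, Finset.mem_filter, Finset.mem_univ, true_and, Finset.mem_Icc]
      have h1 : |X b i - c i| ≤ r := by
        have := (PiLp.norm_apply_le (X b - c) i).trans hb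
        simpa [Real.norm_eq_abs] using this
      have h2 := hX b i
      rw [abs_le] at h1 h2
      have hdiv1 : (anc j b i : ℕ) * 2 ^ j ≤ (b i : ℕ) := Nat.div_mul_le_self _ _
      have hdiv2 : (b i : ℕ) < ((anc j b i : ℕ) + 1) * 2 ^ j := by
        have : (b i : ℕ) / 2 ^ j < (b i : ℕ) / 2 ^ j + 1 := Nat.lt_succ_self _
        exact (Nat.div_lt_iff_lt_mul (by positivity)).1 this
      have hd1 : ((anc j b i : ℕ) : ℝ) * 2 ^ j ≤ ((b i : ℕ) : ℝ) := by exact_mod_cast hdiv1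
      have hd2 : ((b i : ℕ) : ℝ) < (((anc j b i : ℕ) : ℝ) + 1) * 2 ^ j := by
        exact_mod_cast hdiv2
      set B : ℝ := ((b i : ℕ) : ℝ) / 2 ^ (k + j) with hB
      set t : ℝ := (2 : ℝ)⁻¹ ^ k with ht
      have hp : (0 : ℝ) < 2 ^ k := by positivity
      have htk : (2 : ℝ) ^ k * t = 1 := by
        rw [ht, inv_pow]
        exact mul_inv_cancel₀ hp.ne'
      have hBk : (2 : ℝ) ^ k * B = ((b i : ℕ) : ℝ) / 2 ^ j := by
        rw [hB]
        have e : (2 : ℝ) ^ (k + j) = 2 ^ k * 2 ^ j := pow_add 2 k j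
        rw [e]
        field_simp
      have hpj : (0 : ℝ) < 2 ^ j := by positivity
      have g1 : ((anc j b i : ℕ) : ℝ) ≤ 2 ^ k * B := by
        rw [hBk, le_div_iff₀ hpj]; exact hd1
      have g2 : 2 ^ k * B < ((anc j b i : ℕ) : ℝ) + 1 := by
        rw [hBk, div_lt_iff₀ hpj]; exact hd2
      have u1 : B ≤ c i + 2 * t := by linarith [h1.1, h1.2, h2.1, h2.2]
      have u2 : c i - 2 * t ≤ B := by linarith [h1.1, h1.2, h2.1, h2.2]
      have v1 : 2 ^ k * B ≤ 2 ^ k * c i + 2 := by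
        have := mul_le_mul_of_nonneg_left u1 hp.le
        nlinarith
      have v2 : 2 ^ k * c i - 2 ≤ 2 ^ k * B := by
        have := mul_le_mul_of_nonneg_left u2 hp.le
        nlinarith
      have f1 := Int.floor_le ((2 : ℝ) ^ k * c i)
      have f2 := Int.lt_floor_add_one ((2 : ℝ) ^ k * c i)
      constructor
      · have : ((⌊(2 : ℝ) ^ k * c i⌋ : ℤ) : ℝ) - 3 ≤ (((anc j b i : ℕ) : ℤ) : ℝ) := by
          push_cast
          linarith
        exact_mod_cast this
      · have : (((anc j b i : ℕ) : ℤ) : ℝ) ≤ ((⌊(2 : ℝ) ^ k * c i⌋ : ℤ) : ℝ) + 4 := by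
          push_cast
          linarith
        exact_mod_cast this
    have hsk : (2 : ℝ) ^ (-(s * k)) ≤ (2 * r) ^ s := by
      have h1 : (2 : ℝ)⁻¹ ^ k ≤ 2 * r := by
        rw [pow_succ] at hk1
        linarith
      have h2 : (2 : ℝ) ^ (-(s * k)) = ((2 : ℝ)⁻¹ ^ k) ^ s := by
        rw [← Real.rpow_natCast, ← Real.rpow_mul (by norm_num), Real.inv_rpow (by norm_num),
          ← Real.rpow_neg (by norm_num)]
        congr 1
        ring
      rw [h2]
      exact Real.rpow_le_rpow (by positivity) h1 hs.le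
    calc ∑ b ∈ Finset.univ with ‖X b - c‖ ≤ r, M.P (k + j) b
        ≤ ∑ b : Fin n → Fin (2 ^ (k + j)), M.P (k + j) b *
            (if anc j b ∈ S then (1 : ℝ) else 0) := by
          rw [Finset.sum_filter]
          refine Finset.sum_le_sum (fun b _ => ?_)
          by_cases hb : ‖X b - c‖ ≤ r
          · rw [if_pos hb, if_pos (hmem b hb), mul_one]
          · rw [if_neg hb]
            exact mul_nonneg (M.nonneg _ _) (by split_ifs <;> norm_num)
      _ = ∑ a : Fin n → Fin (2 ^ k), M.P k a * (if a ∈ S then (1 : ℝ) else 0) :=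
          M.sum_anc k j (fun a => if a ∈ S then (1 : ℝ) else 0)
      _ = ∑ a ∈ S, M.P k a := by
          simp only [mul_ite, mul_one, mul_zero]
          rw [← Finset.sum_filter]
          refine Finset.sum_congr ?_ (fun _ _ => rfl)
          ext a; simp
      _ ≤ ∑ _a ∈ S, (2 : ℝ) ^ (-(s * k)) := Finset.sum_le_sum (fun a _ => M.bound k a)
      _ = S.card * (2 : ℝ) ^ (-(s * k)) := by rw [Finset.sum_const, nsmul_eq_mul]
      _ ≤ 8 ^ n * (2 * r) ^ s := by
          apply mul_le_mul hS hsk (by positivity) (by positivity)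
      _ = 8 ^ n * (2 : ℝ) ^ s * r ^ s := by
          rw [Real.mul_rpow (by norm_num) hr0.le]; ring

end

end Pool.Agent.H47A
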