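import Pool.Agent.Helper47_Angle.Content

/-! # Module M10: most points lie in infinitely many saturated cubes -/

set_option autoImplicit false

namespace Pool.Agent.H47A

open scoped BigOperators Classical ENNReal
open MeasureTheory

noncomputable section

/-- In a nonsaturated cube the `s'`-content is smaller than the `s`-content. -/
theorem cont_le_of_not_sat {n : ℕ} {s s' : ℝ} (hs : 0 < s) (hss' : s < s') (A : Set (En n))
    (Q : Dy n) (h : ¬ Sat s A Q) :
    cont s' (A ∩ cube Q) ≤ (ENNReal.ofReal ((2 : ℝ) ^ (-(s' - s)))) ^ Q.1 *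
      cont s (A ∩ cube Q) := by
  set c : ℝ≥0∞ := ENNReal.ofReal ((2 : ℝ) ^ (-(s' - s))) with hc
  have hc1 : c ≤ 1 := by
    rw [hc, ENNReal.ofReal_le_one]
    exact Real.rpow_le_one_of_one_le_of_nonpos (by norm_num) (by linarith)
  have hlt : cont s (A ∩ cube Q) < wt s Q :=
    lt_of_le_of_ne (cont_le_wt s Set.inter_subset_right) h
  have hcfin : c ^ Q.1 ≠ ∞ := ENNReal.pow_ne_top (ne_top_of_le_ne_top ENNReal.one_ne_top hc1)
  have hfin : cont s (A ∩ cube Q) ≠ ∞ := ne_top_of_lt hlt
  have key : ∀ b : ℝ≥0∞, cont s (A ∩ cube Q) < b → cont s' (A ∩ cube Q) ≤ c ^ Q.1 * b := by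
    intro b hb
    obtain ⟨𝒬, h1, h2⟩ := exists_cover_of_lt (lt_min hb hlt)
    refine (cont_le_of_cover s' 𝒬 h1).trans ?_
    have h3 : ∀ P : 𝒬, wt s' (P : Dy n) ≤ c ^ Q.1 * wt s (P : Dy n) := by
      intro P
      have h4 : wt s (P : Dy n) < wt s Q :=
        lt_of_le_of_lt (ENNReal.le_tsum P) (h2.trans_le (min_le_right _ _))
      have h5 : Q.1 < (P : Dy n).1 := wt_lt_iff_level hs.le h4
      have h6 : wt s' (P : Dy n) = c ^ (P : Dy n).1 * wt s (P : Dy n) := by
        rw [hc, wt, wt, ← ENNReal.ofReal_pow (by positivity), ← ENNReal.ofReal_mul (by positivity)]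
        congr 1
        rw [← Real.rpow_natCast, ← Real.rpow_mul (by norm_num), ← Real.rpow_add (by norm_num)]
        congr 1
        ring
      rw [h6]
      gcongr ?_ * _
      exact pow_le_pow_of_le_one (by simp) hc1 h5.le
    calc ∑' P : 𝒬, wt s' (P : Dy n) ≤ ∑' P : 𝒬, c ^ Q.1 * wt s (P : Dy n) :=
          ENNReal.tsum_le_tsum h3
      _ = c ^ Q.1 * ∑' P : 𝒬, wt s (P : Dy n) := ENNReal.tsum_mul_left
      _ ≤ c ^ Q.1 * b := by
          gcongr
          exact h2.le.trans (min_le_left _ _)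
  refine ENNReal.le_mul_of_forall_lt (Or.inr hfin) (Or.inl hcfin) ?_
  intro a' ha' b' hb'
  exact (key b' hb').trans (by gcongr)

/-- The points of `A` in `Q` all of whose small dyadic cubes are not saturated. -/
def Zs {n : ℕ} (s : ℝ) (A : Set (En n)) (Q : Dy n) : Set (En n) :=
  {x | x ∈ A ∩ cube Q ∧ ∀ k' : ℕ, Q.1 ≤ k' → ¬ Sat s A (cell k' x)}

theorem Zs_bound {n : ℕ} {s s' : ℝ} (hs : 0 < s) (hss' : s < s') (A : Set (En n)) (j : ℕ) :
    ∀ Q : Dy n, cont s' (Zs s A Q) ≤ (ENNReal.ofReal ((2 : ℝ) ^ (-(s' - s)))) ^ (Q.1 + j) *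
      cont s (A ∩ cube Q) := by
  induction j with
  | zero =>
    intro Q
    by_cases hQ : Sat s A Q
    · have : Zs s A Q = ∅ := by
        ext x
        simp only [Zs, Set.mem_setOf_eq, Set.mem_empty_iff_false, iff_false, not_and, not_forall,
          not_not]
        intro hx
        have hxQ : cell Q.1 x = Q := hx.2
        exact ⟨Q.1, le_rfl, by rw [hxQ]; exact hQ⟩
      rw [this, cont_empty]
      exact bot_le
    · refine (cont_mono s' ?_).trans (cont_le_of_not_sat hs hss' A Q hQ)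
      intro x hx
      exact hx.1
  | succ j ih =>
    intro Q
    by_cases hQ : Sat s A Q
    · have : Zs s A Q = ∅ := by
        ext x
        simp only [Zs, Set.mem_setOf_eq, Set.mem_empty_iff_false, iff_false, not_and, not_forall,
          not_not]
        intro hx
        have hxQ : cell Q.1 x = Q := hx.2
        exact ⟨Q.1, le_rfl, by rw [hxQ]; exact hQ⟩
      rw [this, cont_empty]
      exact bot_le
    · calc cont s' (Zs s A Q) ≤ cont s' (⋃ e : Fin n → Fin 2, Zs s A (child Q e)) := by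
            apply cont_mono
            intro x hx
            obtain ⟨e, he⟩ := exists_child hx.1.2
            refine Set.mem_iUnion.2 ⟨e, ⟨⟨hx.1.1, he⟩, fun k' hk' => hx.2 k' ?_⟩⟩
            have : Q.1 + 1 ≤ k' := hk'
            omega
        _ ≤ ∑' e : Fin n → Fin 2, cont s' (Zs s A (child Q e)) := cont_iUnion_le s' _
        _ = ∑ e : Fin n → Fin 2, cont s' (Zs s A (child Q e)) := tsum_fintype _
        _ ≤ ∑ e : Fin n → Fin 2, (ENNReal.ofReal ((2 : ℝ) ^ (-(s' - s)))) ^ (Q.1 + (j + 1)) *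
              cont s (A ∩ cube (child Q e)) := by
            refine Finset.sum_le_sum (fun e _ => ?_)
            have := ih (child Q e)
            have h1 : (child Q e).1 + j = Q.1 + (j + 1) := by
              show Q.1 + 1 + j = Q.1 + (j + 1)
              omega
            rwa [h1] at this
        _ = (ENNReal.ofReal ((2 : ℝ) ^ (-(s' - s)))) ^ (Q.1 + (j + 1)) *
              ∑ e : Fin n → Fin 2, cont s (A ∩ cube (child Q e)) := by rw [Finset.mul_sum]
        _ = _ := by rw [cont_children s hs.le A Q hQ]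

theorem Zs_zero {n : ℕ} {s s' : ℝ} (hs : 0 < s) (hss' : s < s') (A : Set (En n)) (Q : Dy n) :
    cont s' (Zs s A Q) = 0 := by
  set c : ℝ≥0∞ := ENNReal.ofReal ((2 : ℝ) ^ (-(s' - s))) with hc
  have hc1 : c < 1 := by
    rw [hc, ENNReal.ofReal_lt_one]
    exact Real.rpow_lt_one_of_one_lt_of_neg (by norm_num) (by linarith)
  have hfin : cont s (A ∩ cube Q) ≠ ∞ :=
    ne_top_of_le_ne_top ENNReal.ofReal_ne_top (cont_le_wt s Set.inter_subset_right)
  have hlim : Filter.Tendsto (fun j : ℕ => c ^ (Q.1 + j) * cont s (A ∩ cube Q)) Filter.atTop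
      (nhds 0) := by
    have h1 : Filter.Tendsto (fun j : ℕ => c ^ (Q.1 + j)) Filter.atTop (nhds 0) := by
      have := (ENNReal.tendsto_pow_atTop_nhds_zero_of_lt_one hc1).comp
        (Filter.tendsto_add_atTop_nat Q.1)
      refine this.congr (fun j => ?_)
      simp [add_comm]
    have h2 := ENNReal.Tendsto.mul_const h1 (Or.inr hfin) (b := cont s (A ∩ cube Q))
    simpa using h2
  have h3 : cont s' (Zs s A Q) ≤ 0 := ge_of_tendsto' hlim (fun j => Zs_bound hs hss' A j Q)
  exact le_antisymm h3 bot_le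

theorem recurrence {n : ℕ} (s s' : ℝ) (hs : 0 < s) (hss' : s < s') (A : Set (En n))
    (h : 0 < cont s' A) :
    0 < cont s' {x ∈ A | ∀ k : ℕ, ∃ k' : ℕ, k ≤ k' ∧ Sat s A (cell k' x)} := by
  set Y : Set (En n) := {x ∈ A | ∀ k : ℕ, ∃ k' : ℕ, k ≤ k' ∧ Sat s A (cell k' x)} with hY
  by_contra hcon
  have hY0 : cont s' Y = 0 := by
    rw [not_lt] at hcon
    exact le_antisymm hcon bot_le
  have hsub : A ⊆ ⋃ o : Option (Dy n), (match o with
      | none => Y
      | some Q => Zs s A Q) := by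
    intro x hx
    by_cases hxY : x ∈ Y
    · exact Set.mem_iUnion.2 ⟨none, hxY⟩
    · have h1 : ∃ k : ℕ, ∀ k' : ℕ, k ≤ k' → ¬ Sat s A (cell k' x) := by
        by_contra h2
        push_neg at h2
        exact hxY ⟨hx, h2⟩
      obtain ⟨k, hk⟩ := h1
      refine Set.mem_iUnion.2 ⟨some (cell k x), ⟨⟨hx, ?_⟩, fun k' hk' => hk k' hk'⟩⟩
      show cell (cell k x).1 x = cell k x
      rfl
  have h1 := (cont_mono s' hsub).trans (cont_iUnion_le s' _)
  have h2 : ∑' o : Option (Dy n), cont s' (match o with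
      | none => Y
      | some Q => Zs s A Q) = 0 := by
    rw [ENNReal.tsum_eq_zero]
    rintro (_ | Q)
    · exact hY0
    · exact Zs_zero hs hss' A Q
  rw [h2] at h1
  exact absurd h (not_lt.2 h1)

end

end Pool.Agent.H47A
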