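import Pool.Agent.Helper47_Angle.Prep
import Pool.Agent.Helper47_Angle.Capac
import Pool.Agent.Helper47_Angle.Cone
import Pool.Agent.Helper47_Angle.Content
import Pool.Agent.Helper47_Angle.DimH
import Pool.Agent.Helper47_Angle.FourPoint
import Pool.Agent.Helper47_Angle.MassEx
import Pool.Agent.Helper47_Angle.MassFro
import Pool.Agent.Helper47_Angle.Recur

/-! # Final assembly -/

set_option autoImplicit false

namespace Pool.Agent.H47A

open scoped BigOperators Classical ENNReal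
open MeasureTheory

noncomputable section

theorem triple_anc {n : ℕ} {s s' : ℝ} {A A' : Set (En n)} {Q Q' : Dy n} (M : Mass n s A Q)
    (M' : Mass n s' A' Q') (m j : ℕ)
    (G : (Fin n → Fin (2 ^ m)) → (Fin n → Fin (2 ^ m)) → (Fin n → Fin (2 ^ m)) → ℝ) :
    ∑ b : Fin n → Fin (2 ^ (m + j)), ∑ c : Fin n → Fin (2 ^ (m + j)),
      ∑ d : Fin n → Fin (2 ^ (m + j)), M.P (m + j) b * M'.P (m + j) c * M'.P (m + j) d *
        G (anc j b) (anc j c) (anc j d) =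
    ∑ a, ∑ c, ∑ d, M.P m a * M'.P m c * M'.P m d * G a c d := by
  have h1 : ∀ (a c : Fin n → Fin (2 ^ m)),
      ∑ d : Fin n → Fin (2 ^ (m + j)), M'.P (m + j) d * G a c (anc j d) =
        ∑ d, M'.P m d * G a c d := fun a c => M'.sum_anc m j (fun d => G a c d)
  have h2 : ∀ (a : Fin n → Fin (2 ^ m)),
      ∑ c : Fin n → Fin (2 ^ (m + j)), M'.P (m + j) c *
        (∑ d, M'.P m d * G a (anc j c) d) =
        ∑ c, M'.P m c * ∑ d, M'.P m d * G a c d :=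
    fun a => M'.sum_anc m j (fun c => ∑ d, M'.P m d * G a c d)
  have h3 := M.sum_anc m j (fun a => ∑ c, M'.P m c * ∑ d, M'.P m d * G a c d)
  calc _ = ∑ b : Fin n → Fin (2 ^ (m + j)), M.P (m + j) b *
        ∑ c : Fin n → Fin (2 ^ (m + j)), M'.P (m + j) c *
          ∑ d : Fin n → Fin (2 ^ (m + j)), M'.P (m + j) d * G (anc j b) (anc j c) (anc j d) := by
        refine Finset.sum_congr rfl fun b _ => ?_
        rw [Finset.mul_sum]
        refine Finset.sum_congr rfl fun c _ => ?_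
        rw [Finset.mul_sum, Finset.mul_sum]
        refine Finset.sum_congr rfl fun d _ => ?_
        ring
    _ = ∑ a, M.P m a * ∑ c, M'.P m c * ∑ d, M'.P m d * G a c d := by
        rw [← h3]
        refine Finset.sum_congr rfl fun b _ => ?_
        rw [← h2]
        congr 1
        refine Finset.sum_congr rfl fun c _ => ?_
        rw [h1]
    _ = _ := by
        refine Finset.sum_congr rfl fun a _ => ?_
        rw [Finset.mul_sum]
        refine Finset.sum_congr rfl fun c _ => ?_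
        rw [Finset.mul_sum, Finset.mul_sum]
        refine Finset.sum_congr rfl fun d _ => ?_
        ring

/-- triple sums with weights of total mass one -/
theorem triple_close {α β : Type} [Fintype α] [Fintype β] (p : α → ℝ) (q : β → ℝ)
    (hp : ∀ a, 0 ≤ p a) (hq : ∀ b, 0 ≤ q b) (hp1 : ∑ a, p a = 1) (hq1 : ∑ b, q b = 1)
    (F G : α → β → β → ℝ) (ε : ℝ) (h : ∀ a c d, |F a c d - G a c d| ≤ ε) :
    |∑ a, ∑ c, ∑ d, p a * q c * q d * F a c d - ∑ a, ∑ c, ∑ d, p a * q c * q d * G a c d| ≤ ε := by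
  have h0 : ∑ a, ∑ c, ∑ d, p a * q c * q d * ε = ε := by
    have : ∀ a c, ∑ d, p a * q c * q d * ε = p a * q c * ε := by
      intro a c
      calc ∑ d, p a * q c * q d * ε = ∑ d, (p a * q c * ε) * q d :=
            Finset.sum_congr rfl fun d _ => by ring
        _ = p a * q c * ε := by rw [← Finset.mul_sum, hq1, mul_one]
    simp only [this]
    have : ∀ a, ∑ c, p a * q c * ε = p a * ε := by
      intro a
      calc ∑ c, p a * q c * ε = ∑ c, (p a * ε) * q c :=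
            Finset.sum_congr rfl fun c _ => by ring
        _ = p a * ε := by rw [← Finset.mul_sum, hq1, mul_one]
    simp only [this]
    rw [← Finset.sum_mul, hp1, one_mul]
  rw [← Finset.sum_sub_distrib]
  conv_rhs => rw [← h0]
  refine (Finset.abs_sum_le_sum_abs _ _).trans (Finset.sum_le_sum fun a _ => ?_)
  rw [← Finset.sum_sub_distrib]
  refine (Finset.abs_sum_le_sum_abs _ _).trans (Finset.sum_le_sum fun c _ => ?_)
  rw [← Finset.sum_sub_distrib]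
  refine (Finset.abs_sum_le_sum_abs _ _).trans (Finset.sum_le_sum fun d _ => ?_)
  rw [← mul_sub, abs_mul, abs_of_nonneg (mul_nonneg (mul_nonneg (hp a) (hq c)) (hq d))]
  exact mul_le_mul_of_nonneg_left (h a c d) (mul_nonneg (mul_nonneg (hp a) (hq c)) (hq d))

/-- comparison of the fine functional with the coarse one -/
theorem fine_coarse {n : ℕ} {s s' : ℝ} {A A' : Set (En n)} {Q Q' : Dy n} (M : Mass n s A Q)
    (M' : Mass n s' A' Q') (κ r δ ε η : ℝ)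
    (hη : ∀ u u' v v' : En n, ‖u‖ ≤ 2 * (n + 1) → ‖u'‖ ≤ 2 * (n + 1) → ‖v‖ ≤ 2 * (n + 1) →
      ‖v'‖ ≤ 2 * (n + 1) → ‖u - u'‖ ≤ η → ‖v - v'‖ ≤ η → |Psi κ r δ u v - Psi κ r δ u' v'| ≤ ε)
    (m j : ℕ) (hm : 4 * (n + 1) * (2 : ℝ)⁻¹ ^ m ≤ η)
    (X Z Yc : (Fin n → Fin (2 ^ (m + j))) → En n) (Y : En n)
    (hX : ∀ b i, |X b i - (b i : ℝ) / 2 ^ (m + j)| ≤ (2 : ℝ)⁻¹ ^ (m + j))
    (hZ : ∀ b i, |Z b i - (b i : ℝ) / 2 ^ (m + j)| ≤ (2 : ℝ)⁻¹ ^ (m + j))
    (hY : ‖Y‖ ≤ n + 1) (hYc : ∀ c, ‖Yc c‖ ≤ n + 1) (hYY : ∀ c, ‖Yc c - Y‖ ≤ η / 2) :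
    |∑ b, ∑ c, ∑ d, M.P (m + j) b * M'.P (m + j) c * M'.P (m + j) d *
        Psi κ r δ (X b - Yc c) (Z d - Z c) - TT κ r δ m (M.P m) Y (M'.P m)| ≤ ε := by
  have h1 := triple_anc M M' m j (fun a c d => Psi κ r δ (pos a - Y) (pos d - pos c))
  unfold TT
  rw [← h1]
  have hpos : ∀ b : Fin n → Fin (2 ^ (m + j)), ‖(pos (anc j b) : En n)‖ ≤ n + 1 := by
    intro b
    apply norm_le_of_near (m := m) _ (anc j b)
    intro i
    rw [pos_coord]; simp
  have hXn : ∀ b, ‖X b‖ ≤ n + 1 := fun b => norm_le_of_near _ b (hX b)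
  have hZn : ∀ b, ‖Z b‖ ≤ n + 1 := fun b => norm_le_of_near _ b (hZ b)
  have hsub : ∀ u v : En n, ‖u‖ ≤ n + 1 → ‖v‖ ≤ n + 1 → ‖u - v‖ ≤ 2 * (n + 1) := by
    intro u v hu hv
    exact (norm_sub_le _ _).trans (by linarith)
  apply triple_close (M.P (m + j)) (M'.P (m + j)) (M.nonneg _) (M'.nonneg _) (M.sum_eq_one _)
    (M'.sum_eq_one _) (fun b c d => Psi κ r δ (X b - Yc c) (Z d - Z c))
    (fun b c d => Psi κ r δ (pos (anc j b) - Y) (pos (anc j d) - pos (anc j c)))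
  intro b c d
  apply hη
  · exact hsub _ _ (hXn b) (hYc c)
  · exact hsub _ _ (hpos b) hY
  · exact hsub _ _ (hZn d) (hZn c)
  · exact hsub _ _ (hpos d) (hpos c)
  · have h2 := near_anc (X b) b (hX b)
    have h3 : X b - Yc c - (pos (anc j b) - Y) = (X b - pos (anc j b)) - (Yc c - Y) := by abel
    rw [h3]
    refine (norm_sub_le _ _).trans ?_
    have := hYY c
    linarith
  · have h2 := near_anc (Z d) d (hZ d)
    have h2' := near_anc (Z c) c (hZ c)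
    have h3 : Z d - Z c - (pos (anc j d) - pos (anc j c)) =
      (Z d - pos (anc j d)) - (Z c - pos (anc j c)) := by abel
    rw [h3]
    refine (norm_sub_le _ _).trans ?_
    linarith

/-- same type implies close functionals -/
theorem TT_type {n : ℕ} (κ r δ : ℝ) (hδ : 0 < δ) (m : ℕ) (P P' P'' : (Fin n → Fin (2 ^ m)) → ℝ)
    (Y : En n) (hP : ∀ a, 0 ≤ P a) (hP1 : ∑ a, P a = 1) (hP' : ∀ a, 0 ≤ P' a)
    (hP'1 : ∑ a, P' a = 1) (hP'' : ∀ a, 0 ≤ P'' a) (hP''1 : ∑ a, P'' a = 1) (t : ℝ)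
    (h : ∀ a, |P' a - P'' a| ≤ t) :
    |TT κ r δ m P Y P' - TT κ r δ m P Y P''| ≤
      2 * ((Fintype.card (Fin n → Fin (2 ^ m)) : ℕ) : ℝ) * t * δ⁻¹ := by
  set N : ℝ := ((Fintype.card (Fin n → Fin (2 ^ m)) : ℕ) : ℝ) with hN
  have key : ∀ a : Fin n → Fin (2 ^ m),
      |∑ c, ∑ d, P' c * P' d * Psi κ r δ (pos a - Y) (pos d - pos c) -
        ∑ c, ∑ d, P'' c * P'' d * Psi κ r δ (pos a - Y) (pos d - pos c)| ≤ 2 * N * t * δ⁻¹ := by
    intro a
    set G : (Fin n → Fin (2 ^ m)) → (Fin n → Fin (2 ^ m)) → ℝ :=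
      fun c d => Psi κ r δ (pos a - Y) (pos d - pos c) with hG
    have hG0 : ∀ c d, 0 ≤ G c d := fun c d => Psi_nonneg _ _ hδ _ _
    have hG1 : ∀ c d, G c d ≤ δ⁻¹ := fun c d => Psi_le _ _ hδ _ _
    have h1 : ∑ c, ∑ d, P' c * P' d * G c d - ∑ c, ∑ d, P'' c * P'' d * G c d =
        ∑ c, ∑ d, (P' c * (P' d - P'' d) * G c d + (P' c - P'' c) * P'' d * G c d) := by
      rw [← Finset.sum_sub_distrib]
      refine Finset.sum_congr rfl fun c _ => ?_
      rw [← Finset.sum_sub_distrib]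
      refine Finset.sum_congr rfl fun d _ => ?_
      ring
    rw [h1]
    have h2 : ∀ c, |∑ d, (P' c * (P' d - P'' d) * G c d + (P' c - P'' c) * P'' d * G c d)| ≤
        P' c * (N * t * δ⁻¹) + t * δ⁻¹ := by
      intro c
      refine (Finset.abs_sum_le_sum_abs _ _).trans ?_
      calc ∑ d, |P' c * (P' d - P'' d) * G c d + (P' c - P'' c) * P'' d * G c d|
          ≤ ∑ d, (P' c * (t * δ⁻¹) + t * δ⁻¹ * P'' d) := by
            refine Finset.sum_le_sum fun d _ => (abs_add_le _ _).trans ?_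
            rw [abs_mul, abs_mul, abs_mul, abs_mul, abs_of_nonneg (hP' c), abs_of_nonneg (hP'' d),
              abs_of_nonneg (hG0 c d)]
            have ht : 0 ≤ t := (abs_nonneg _).trans (h d)
            have e1 : |P' d - P'' d| * G c d ≤ t * δ⁻¹ :=
              mul_le_mul (h d) (hG1 c d) (hG0 c d) ht
            have e2 : |P' c - P'' c| * G c d ≤ t * δ⁻¹ :=
              mul_le_mul (h c) (hG1 c d) (hG0 c d) ht
            have e3 := mul_le_mul_of_nonneg_left e1 (hP' c)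
            have e4 := mul_le_mul_of_nonneg_right e2 (hP'' d)
            nlinarith
        _ = P' c * (N * t * δ⁻¹) + t * δ⁻¹ := by
            have e5 : ∑ d, t * δ⁻¹ * P'' d = t * δ⁻¹ := by rw [← Finset.mul_sum, hP''1, mul_one]
            rw [Finset.sum_add_distrib, e5, Finset.sum_const, Finset.card_univ,
              nsmul_eq_mul, ← hN]
            ring
    refine (Finset.abs_sum_le_sum_abs _ _).trans ((Finset.sum_le_sum fun c _ => h2 c).trans ?_)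
    rw [Finset.sum_add_distrib, ← Finset.sum_mul, hP'1, Finset.sum_const, Finset.card_univ,
      nsmul_eq_mul, ← hN]
    linarith
  have e : ∀ P₀ : (Fin n → Fin (2 ^ m)) → ℝ, TT κ r δ m P Y P₀ =
      ∑ a, P a * ∑ c, ∑ d, P₀ c * P₀ d * Psi κ r δ (pos a - Y) (pos d - pos c) := by
    intro P₀
    unfold TT
    refine Finset.sum_congr rfl fun a _ => ?_
    rw [Finset.mul_sum]
    refine Finset.sum_congr rfl fun c _ => ?_
    rw [Finset.mul_sum]
    refine Finset.sum_congr rfl fun d _ => ?_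
    ring
  rw [e, e, ← Finset.sum_sub_distrib]
  refine (Finset.abs_sum_le_sum_abs _ _).trans ?_
  calc ∑ a, |P a * ∑ c, ∑ d, P' c * P' d * Psi κ r δ (pos a - Y) (pos d - pos c) -
        P a * ∑ c, ∑ d, P'' c * P'' d * Psi κ r δ (pos a - Y) (pos d - pos c)|
      ≤ ∑ a, P a * (2 * N * t * δ⁻¹) := by
        refine Finset.sum_le_sum fun a _ => ?_
        rw [← mul_sub, abs_mul, abs_of_nonneg (hP a)]
        exact mul_le_mul_of_nonneg_left (key a) (hP a)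
    _ = 2 * N * t * δ⁻¹ := by rw [← Finset.sum_mul, hP1, one_mul]

/-! ### geometry of cubes -/

theorem uc_sub_uc {n : ℕ} (Q : Dy n) (x y : En n) : uc Q x - uc Q y = (2 : ℝ) ^ Q.1 • (x - y) := by
  unfold uc
  rw [smul_sub]; abel

theorem mem_cube_iff {n : ℕ} (Q : Dy n) (x : En n) :
    x ∈ cube Q ↔ ∀ i, ⌊(2 : ℝ) ^ Q.1 * x i⌋ = Q.2 i := by
  unfold cube cell
  constructor
  · intro h i
    have h' : (Q.1, fun i => ⌊(2 : ℝ) ^ Q.1 * x i⌋) = Q := h
    have := congrArg Prod.snd h'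
    exact congrFun this i
  · intro h
    show (Q.1, fun i => ⌊(2 : ℝ) ^ Q.1 * x i⌋) = Q
    refine Prod.ext rfl (funext h)

theorem mem_cube_cell {n : ℕ} (k : ℕ) (x : En n) : x ∈ cube (cell k x) := by
  rw [mem_cube_iff]; intro i; rfl

/-- two points of a cube are close -/
theorem dist_of_mem_cube {n : ℕ} (Q : Dy n) (x y : En n) (hx : x ∈ cube Q) (hy : y ∈ cube Q) :
    ‖x - y‖ ≤ (n + 1) * (2 : ℝ)⁻¹ ^ Q.1 := by
  apply norm_le_of_coord _ _ (by positivity)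
  intro i
  rw [mem_cube_iff] at hx hy
  have h1 := hx i
  have h2 := hy i
  rw [Int.floor_eq_iff] at h1 h2
  have h3 : |(2 : ℝ) ^ Q.1 * (x i - y i)| ≤ 1 := by
    rw [mul_sub, abs_le]; constructor <;> linarith
  rw [abs_mul, abs_of_pos (by positivity : (0 : ℝ) < 2 ^ Q.1)] at h3
  rw [PiLp.sub_apply, inv_pow, ← one_div, le_div_iff₀ (by positivity)]
  linarith

theorem floor_two_pow_mul (k j : ℕ) (t : ℝ) (a : ℤ) (h : ⌊(2 : ℝ) ^ (k + j) * t⌋ = a) :
    ⌊(2 : ℝ) ^ k * t⌋ = a / 2 ^ j := by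
  have h1 := Int.floor_div_natCast ((2 : ℝ) ^ (k + j) * t) (2 ^ j)
  rw [h] at h1
  push_cast at h1
  rw [← h1]
  congr 1
  rw [pow_add]; field_simp

/-- smaller cubes are nested in larger ones -/
theorem cube_subset_of_mem {n : ℕ} (Q Q' : Dy n) (h : Q.1 ≤ Q'.1) (x : En n) (hx : x ∈ cube Q)
    (hx' : x ∈ cube Q') : cube Q' ⊆ cube Q := by
  intro y hy
  rw [mem_cube_iff] at *
  obtain ⟨j, hj⟩ := Nat.exists_eq_add_of_le h
  intro i
  have h1 := hx' i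
  have h2 := hy i
  rw [hj] at h1 h2
  rw [floor_two_pow_mul _ _ _ _ h2, ← floor_two_pow_mul _ _ _ _ h1]
  exact hx i

theorem norm_uc_le {n : ℕ} (Q : Dy n) (x : En n) (hx : x ∈ cube Q) : ‖uc Q x‖ ≤ n + 1 := by
  have := norm_le_of_coord (uc Q x) 1 zero_le_one (fun i => ?_)
  · simpa using this
  · rw [mem_cube_iff] at hx
    have h1 := hx i
    rw [Int.floor_eq_iff] at h1
    have h2 : uc Q x i = (2 : ℝ) ^ Q.1 * x i - Q.2 i := rfl
    rw [h2, abs_le]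
    constructor <;> linarith

/-- the chosen points, in unit coordinates -/
def pt {n : ℕ} (S : Set (En n)) (Q : Dy n) (m : ℕ) (b : Fin n → Fin (2 ^ m)) : En n :=
  if h : (S ∩ cube (sub Q m b)).Nonempty then uc Q h.some else pos b

/-- the chosen points, in real coordinates, with a default value -/
def rt {n : ℕ} (S : Set (En n)) (Q : Dy n) (m : ℕ) (y : En n) (b : Fin n → Fin (2 ^ m)) : En n :=
  if h : (S ∩ cube (sub Q m b)).Nonempty then h.some else y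

theorem pt_near {n : ℕ} (S : Set (En n)) (Q : Dy n) (m : ℕ) (b : Fin n → Fin (2 ^ m)) (i : Fin n) :
    |pt S Q m b i - (b i : ℝ) / 2 ^ m| ≤ (2 : ℝ)⁻¹ ^ m := by
  unfold pt
  split_ifs with h
  · exact uc_sub_pos Q b _ h.some_mem.2 i
  · rw [pos_coord]; simp

theorem rt_mem {n : ℕ} (S : Set (En n)) (Q : Dy n) (m : ℕ) (y : En n) (hy : y ∈ S ∩ cube Q)
    (b : Fin n → Fin (2 ^ m)) : rt S Q m y b ∈ S ∩ cube Q := by
  unfold rt
  split_ifs with h
  · exact ⟨h.some_mem.1, sub_subset Q b h.some_mem.2⟩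
  · exact hy

theorem pt_eq_rt {n : ℕ} {s : ℝ} {S : Set (En n)} {Q : Dy n} (M : Mass n s S Q) (m : ℕ) (y : En n)
    (b : Fin n → Fin (2 ^ m)) (hb : M.P m b ≠ 0) : pt S Q m b = uc Q (rt S Q m y b) := by
  have h := M.supp m b hb
  unfold pt rt
  rw [dif_pos h, dif_pos h]

/-- Step L1 -/
theorem choose_vertex {n : ℕ} {α β : Type} [Fintype α] [Fintype β] (κ r δ c₀ : ℝ) (hr : 0 < r)
    (hδ : 0 < δ) (p : α → ℝ) (q : β → ℝ) (hp : ∀ a, 0 ≤ p a) (hq : ∀ b, 0 ≤ q b)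
    (hp1 : ∑ a, p a = 1) (X : α → En n) (Z : β → En n)
    (h : c₀ ≤ ∑ i, ∑ i', ∑ j, ∑ j', p i * p i' * q j * q j' *
          (if r ≤ ‖X i - X i'‖ ∧ r ≤ ‖Z j - Z j'‖ then
            gk δ (Phi κ (X i - X i') (Z j - Z j')) else 0)) :
    ∃ i', p i' ≠ 0 ∧ c₀ ≤ ∑ b, ∑ c, ∑ d, p b * q c * q d * Psi κ r δ (X b - X i') (Z d - Z c) := by
  by_contra hcon
  push Not at hcon
  have h1 : ∑ i, ∑ i', ∑ j, ∑ j', p i * p i' * q j * q j' *
          (if r ≤ ‖X i - X i'‖ ∧ r ≤ ‖Z j - Z j'‖ then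
            gk δ (Phi κ (X i - X i') (Z j - Z j')) else 0) ≤
      ∑ i', p i' * ∑ b, ∑ c, ∑ d, p b * q c * q d * Psi κ r δ (X b - X i') (Z d - Z c) := by
    rw [Finset.sum_comm]
    refine Finset.sum_le_sum fun i' _ => ?_
    rw [Finset.mul_sum]
    refine Finset.sum_le_sum fun i _ => ?_
    rw [Finset.sum_comm, Finset.mul_sum]
    refine Finset.sum_le_sum fun j' _ => ?_
    rw [Finset.mul_sum]
    refine Finset.sum_le_sum fun j _ => ?_
    have e1 := ite_le_Psi κ hr hδ (X i - X i') (Z j - Z j')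
    have e2 : 0 ≤ p i * p i' * q j * q j' :=
      mul_nonneg (mul_nonneg (mul_nonneg (hp i) (hp i')) (hq j)) (hq j')
    refine (mul_le_mul_of_nonneg_left e1 e2).trans (le_of_eq ?_)
    ring
  have h2 : ∃ i', p i' ≠ 0 := by
    by_contra h3
    push Not at h3
    simp [h3] at hp1
  obtain ⟨i₀, hi₀⟩ := h2
  have h3 : ∑ i', p i' * ∑ b, ∑ c, ∑ d, p b * q c * q d * Psi κ r δ (X b - X i') (Z d - Z c) <
      ∑ i', p i' * c₀ := by
    apply Finset.sum_lt_sum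
    · intro i' _
      by_cases hi' : p i' = 0
      · rw [hi']; simp
      · exact mul_le_mul_of_nonneg_left (hcon i' hi').le (hp i')
    · exact ⟨i₀, Finset.mem_univ _,
        mul_lt_mul_of_pos_left (hcon i₀ hi₀) (lt_of_le_of_ne (hp i₀) (Ne.symm hi₀))⟩
  rw [← Finset.sum_mul, hp1, one_mul] at h3
  linarith

/-- Step L2 -/
theorem choose_triple {n : ℕ} {α β : Type} [Fintype α] [Fintype β] (κ r δ δ' c₀ : ℝ) (hr : 0 < r)
    (hδ : 0 < δ) (hc₀ : 0 < c₀)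
    (p : α → ℝ) (q : β → ℝ) (hp : ∀ a, 0 ≤ p a) (hq : ∀ b, 0 ≤ q b)
    (hp1 : ∑ a, p a = 1) (hq1 : ∑ b, q b = 1) (X : α → En n) (Z : β → En n) (Yc : β → En n)
    (h : 3 / 4 * c₀ < ∑ b, ∑ c, ∑ d, p b * q c * q d * Psi κ r δ (X b - Yc c) (Z d - Z c))
    (hst : ∀ c, q c ≠ 0 → |BB κ (Finset.univ.filter (fun b => r / 2 ≤ ‖X b - Yc c‖))
        (Finset.univ.filter (fun d => r / 2 ≤ ‖Z d - Z c‖)) (fun b => X b - Yc c)
        (fun d => Z d - Z c) p q δ -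
      BB κ (Finset.univ.filter (fun b => r / 2 ≤ ‖X b - Yc c‖))
        (Finset.univ.filter (fun d => r / 2 ≤ ‖Z d - Z c‖)) (fun b => X b - Yc c)
        (fun d => Z d - Z c) p q δ'| ≤ c₀ / 4) :
    ∃ b c d, p b ≠ 0 ∧ q c ≠ 0 ∧ q d ≠ 0 ∧ r / 2 ≤ ‖X b - Yc c‖ ∧ r / 2 ≤ ‖Z d - Z c‖ ∧
      c₀ / 2 ≤ gk δ' (Phi κ (X b - Yc c) (Z d - Z c)) := by
  by_contra hcon
  push Not at hcon
  have h1 : ∀ c, q c ≠ 0 → ∑ b, ∑ d, p b * q d * Psi κ r δ (X b - Yc c) (Z d - Z c) ≤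
      3 / 4 * c₀ := by
    intro c hc
    have e1 : ∑ b, ∑ d, p b * q d * Psi κ r δ (X b - Yc c) (Z d - Z c) ≤
        BB κ (Finset.univ.filter (fun b => r / 2 ≤ ‖X b - Yc c‖))
        (Finset.univ.filter (fun d => r / 2 ≤ ‖Z d - Z c‖)) (fun b => X b - Yc c)
        (fun d => Z d - Z c) p q δ := by
      unfold BB
      rw [Finset.sum_filter]
      refine Finset.sum_le_sum fun b _ => ?_
      rw [Finset.sum_filter]
      have e2 : ∀ d, p b * q d * Psi κ r δ (X b - Yc c) (Z d - Z c) ≤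
          p b * q d * (if r / 2 ≤ ‖X b - Yc c‖ ∧ r / 2 ≤ ‖Z d - Z c‖ then
            gk δ (Phi κ (X b - Yc c) (Z d - Z c)) else 0) := fun d =>
        mul_le_mul_of_nonneg_left (Psi_le_ite κ hr hδ _ _) (mul_nonneg (hp b) (hq d))
      split_ifs with hb
      · refine Finset.sum_le_sum fun d _ => (e2 d).trans ?_
        by_cases hd : r / 2 ≤ ‖Z d - Z c‖
        · rw [if_pos ⟨hb, hd⟩, if_pos hd]
        · rw [if_neg (fun hh => hd hh.2), if_neg hd, mul_zero]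
      · have : ∀ d, p b * q d * Psi κ r δ (X b - Yc c) (Z d - Z c) ≤ 0 := by
          intro d
          refine (e2 d).trans ?_
          rw [if_neg (fun hh => hb hh.1), mul_zero]
        exact Finset.sum_nonpos fun d _ => this d
    have e3 : BB κ (Finset.univ.filter (fun b => r / 2 ≤ ‖X b - Yc c‖))
        (Finset.univ.filter (fun d => r / 2 ≤ ‖Z d - Z c‖)) (fun b => X b - Yc c)
        (fun d => Z d - Z c) p q δ' ≤ c₀ / 2 := by
      unfold BB
      have e4 : ∑ b ∈ Finset.univ.filter (fun b => r / 2 ≤ ‖X b - Yc c‖),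
          ∑ d ∈ Finset.univ.filter (fun d => r / 2 ≤ ‖Z d - Z c‖),
            p b * q d * gk δ' (Phi κ (X b - Yc c) (Z d - Z c)) ≤
          ∑ b ∈ Finset.univ.filter (fun b => r / 2 ≤ ‖X b - Yc c‖),
          ∑ d ∈ Finset.univ.filter (fun d => r / 2 ≤ ‖Z d - Z c‖), p b * q d * (c₀ / 2) := by
        refine Finset.sum_le_sum fun b hb => Finset.sum_le_sum fun d hd => ?_
        rw [Finset.mem_filter] at hb hd
        by_cases hpb : p b = 0
        · rw [hpb]; simp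
        by_cases hqd : q d = 0
        · rw [hqd]; simp
        exact mul_le_mul_of_nonneg_left (hcon b c d hpb hc hqd hb.2 hd.2).le
          (mul_nonneg (hp b) (hq d))
      have e5 : ∑ b ∈ Finset.univ.filter (fun b => r / 2 ≤ ‖X b - Yc c‖),
          ∑ d ∈ Finset.univ.filter (fun d => r / 2 ≤ ‖Z d - Z c‖), p b * q d * (c₀ / 2) ≤
          ∑ b, ∑ d, p b * q d * (c₀ / 2) := by
        have e6 : ∀ b, ∑ d ∈ Finset.univ.filter (fun d => r / 2 ≤ ‖Z d - Z c‖),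
            p b * q d * (c₀ / 2) ≤ ∑ d, p b * q d * (c₀ / 2) := fun b =>
          Finset.sum_le_sum_of_subset_of_nonneg (Finset.filter_subset _ _)
            (fun d _ _ => mul_nonneg (mul_nonneg (hp b) (hq d)) (by positivity))
        refine (Finset.sum_le_sum fun b _ => e6 b).trans ?_
        exact Finset.sum_le_sum_of_subset_of_nonneg (Finset.filter_subset _ _)
            (fun b _ _ => Finset.sum_nonneg fun d _ =>
              mul_nonneg (mul_nonneg (hp b) (hq d)) (by positivity))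
      have e7 : ∑ b, ∑ d, p b * q d * (c₀ / 2) = c₀ / 2 := by
        have : ∀ b, ∑ d, p b * q d * (c₀ / 2) = p b * (c₀ / 2) := by
          intro b
          calc ∑ d, p b * q d * (c₀ / 2) = ∑ d, (p b * (c₀ / 2)) * q d :=
                Finset.sum_congr rfl fun d _ => by ring
            _ = _ := by rw [← Finset.mul_sum, hq1, mul_one]
        simp only [this]
        rw [← Finset.sum_mul, hp1, one_mul]
      linarith
    have e8 := abs_le.1 (hst c hc)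
    linarith
  have h2 : ∑ b, ∑ c, ∑ d, p b * q c * q d * Psi κ r δ (X b - Yc c) (Z d - Z c) =
      ∑ c, q c * ∑ b, ∑ d, p b * q d * Psi κ r δ (X b - Yc c) (Z d - Z c) := by
    rw [Finset.sum_comm]
    refine Finset.sum_congr rfl fun c _ => ?_
    rw [Finset.mul_sum]
    refine Finset.sum_congr rfl fun b _ => ?_
    rw [Finset.mul_sum]
    refine Finset.sum_congr rfl fun d _ => ?_
    ring
  have h3 : ∑ c, q c * ∑ b, ∑ d, p b * q d * Psi κ r δ (X b - Yc c) (Z d - Z c) ≤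
      ∑ c, q c * (3 / 4 * c₀) := by
    refine Finset.sum_le_sum fun c _ => ?_
    by_cases hc : q c = 0
    · rw [hc]; simp
    · exact mul_le_mul_of_nonneg_left (h1 c hc) (hq c)
  rw [← Finset.sum_mul, hq1, one_mul] at h3
  linarith

/-- Step L3 -/
theorem sq_le_of_gk {c₀ δ φ : ℝ} (hδ : 0 < δ) (h : c₀ / 2 ≤ gk δ φ) : φ ^ 2 * c₀ ≤ 4 * δ := by
  unfold gk at h
  set y := φ ^ 2 / (2 * δ ^ 2) with hy
  have h1 : -(φ ^ 2) / (2 * δ ^ 2) = -y := by rw [hy]; ring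
  rw [h1] at h
  have h2 : y * Real.exp (-y) ≤ 1 := by
    have h3 := Real.add_one_le_exp y
    have h4 : y ≤ Real.exp y := by linarith
    rw [Real.exp_neg, ← div_eq_mul_inv, div_le_one (Real.exp_pos y)]
    exact h4
  have h5 : φ ^ 2 = 2 * δ ^ 2 * y := by rw [hy]; field_simp
  have h6 : φ ^ 2 * (c₀ / 2) ≤ φ ^ 2 * (δ⁻¹ * Real.exp (-y)) :=
    mul_le_mul_of_nonneg_left h (sq_nonneg _)
  have h7 : φ ^ 2 * (δ⁻¹ * Real.exp (-y)) = 2 * δ * (y * Real.exp (-y)) := by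
    rw [h5]; field_simp
  nlinarith

theorem measurableSet_cell_mem {n : ℕ} (k : ℕ) (S : Set (Dy n)) :
    MeasurableSet {x : En n | cell k x ∈ S} := by
  have h : {x : En n | cell k x ∈ S} = ⋃ Q ∈ {Q : Dy n | Q ∈ S ∧ Q.1 = k}, cube Q := by
    ext x
    simp only [Set.mem_setOf_eq, Set.mem_iUnion, exists_prop]
    constructor
    · intro hx
      exact ⟨cell k x, ⟨hx, rfl⟩, mem_cube_cell k x⟩
    · rintro ⟨Q, ⟨hQ, hk⟩, hx⟩
      have : cell Q.1 x = Q := hx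
      rw [← hk, this]; exact hQ
  rw [h]
  exact MeasurableSet.biUnion (Set.to_countable _) (fun Q _ => measurableSet_cube Q)

theorem mass_le_one {n : ℕ} {s : ℝ} {S : Set (En n)} {Q : Dy n} (hs : 0 < s) (M : Mass n s S Q)
    (m : ℕ) (a : Fin n → Fin (2 ^ m)) : M.P m a ≤ 1 := by
  refine (M.bound m a).trans ?_
  apply Real.rpow_le_one_of_one_le_of_nonpos (by norm_num)
  have : (0 : ℝ) ≤ m := Nat.cast_nonneg m
  nlinarith

theorem floor_close {L : ℕ} (hL : 0 < L) {a b : ℝ} (ha : 0 ≤ a) (ha1 : a ≤ 1) (hb : 0 ≤ b)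
    (hb1 : b ≤ 1) (h : min L ⌊(L : ℝ) * a⌋₊ = min L ⌊(L : ℝ) * b⌋₊) : |a - b| ≤ 1 / L := by
  have hL' : (0 : ℝ) < L := by exact_mod_cast hL
  have key : ∀ c : ℝ, 0 ≤ c → c ≤ 1 → min L ⌊(L : ℝ) * c⌋₊ = ⌊(L : ℝ) * c⌋₊ := by
    intro c hc hc1
    apply min_eq_right
    have : (L : ℝ) * c ≤ L := by nlinarith
    calc ⌊(L : ℝ) * c⌋₊ ≤ ⌊(L : ℝ)⌋₊ := Nat.floor_le_floor this
      _ = L := Nat.floor_natCast L
  rw [key a ha ha1, key b hb hb1] at h
  have h1 := Nat.floor_le (mul_nonneg hL'.le ha)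
  have h2 := Nat.lt_floor_add_one ((L : ℝ) * a)
  have h3 := Nat.floor_le (mul_nonneg hL'.le hb)
  have h4 := Nat.lt_floor_add_one ((L : ℝ) * b)
  rw [h] at h1 h2
  have h5 : |a - b| * L = |(a - b) * L| := by rw [abs_mul, abs_of_pos hL']
  rw [le_div_iff₀ hL', h5, abs_le]
  constructor <;> nlinarith

theorem exists_pow_small (t : ℝ) (ht : 0 < t) : ∃ k : ℕ, ∀ k' : ℕ, k ≤ k' → (2 : ℝ)⁻¹ ^ k' ≤ t := by
  obtain ⟨k, hk⟩ := exists_pow_lt_of_lt_one ht (by norm_num : (2 : ℝ)⁻¹ < 1)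
  exact ⟨k, fun k' hk' => (pow_le_pow_of_le_one (by norm_num) (by norm_num) hk').trans hk.le⟩

theorem Phi_smul {n : ℕ} (κ : ℝ) {a b : ℝ} (ha : 0 < a) (hb : 0 < b) (u v : En n) :
    Phi κ (a • u) (b • v) = a * b * Phi κ u v := by
  unfold Phi
  rw [inner_smul_left, inner_smul_right, norm_smul, norm_smul, Real.norm_of_nonneg ha.le,
    Real.norm_of_nonneg hb.le]
  simp only [conj_trivial]
  ring

theorem compact_zero {n : ℕ} (κ : ℝ) (K : Set (En n)) (hKc : IsCompact K) (A B r₀ c₀ δ₁ : ℝ)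
    (hA : 0 < A) (hB : 0 < B) (hr₀ : 0 < r₀) (hc₀ : 0 < c₀) (hδ₁ : 0 < δ₁)
    (happ : ∀ t : ℕ, ∃ x ∈ K, ∃ W ∈ K, ∃ z ∈ K, r₀ / 2 ≤ ‖A • (x - W)‖ ∧
      r₀ / 2 ≤ ‖B • (z - W)‖ ∧
      (Phi κ (A • (x - W)) (B • (z - W))) ^ 2 * c₀ ≤ 4 * (δ₁ / (t + 1))) :
    ∃ x ∈ K, ∃ W ∈ K, ∃ z ∈ K, x ≠ W ∧ z ≠ W ∧ Phi κ (x - W) (z - W) = 0 := by
  let F1 : En n × En n × En n → En n := fun w => A • (w.1 - w.2.1)
  let F2 : En n × En n × En n → En n := fun w => B • (w.2.2 - w.2.1)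
  have hF1 : Continuous F1 := by
    show Continuous (fun w : En n × En n × En n => A • (w.1 - w.2.1)); fun_prop
  have hF2 : Continuous F2 := by
    show Continuous (fun w : En n × En n × En n => B • (w.2.2 - w.2.1)); fun_prop
  let 𝒦 : Set (En n × En n × En n) := (K ×ˢ K ×ˢ K) ∩ {w | r₀ / 2 ≤ ‖F1 w‖ ∧ r₀ / 2 ≤ ‖F2 w‖}
  have h𝒦c : IsCompact 𝒦 := by
    apply (hKc.prod (hKc.prod hKc)).inter_right
    exact (isClosed_le continuous_const hF1.norm).inter (isClosed_le continuous_const hF2.norm)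
  let f : En n × En n × En n → ℝ := fun w => (Phi κ (F1 w) (F2 w)) ^ 2
  have hf : Continuous f := ((continuous_Phi κ).comp (hF1.prodMk hF2)).pow 2
  have h𝒦ne : 𝒦.Nonempty := by
    obtain ⟨x, hx, W, hW, z, hz, h1, h2, -⟩ := happ 0
    exact ⟨(x, W, z), ⟨hx, hW, hz⟩, h1, h2⟩
  obtain ⟨⟨x, W, z⟩, ⟨⟨hx, hW, hz⟩, h20, h21⟩, hmin⟩ := h𝒦c.exists_isMinOn h𝒦ne hf.continuousOn
  have h20' : r₀ / 2 ≤ ‖A • (x - W)‖ := h20
  have h21' : r₀ / 2 ≤ ‖B • (z - W)‖ := h21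
  set g : ℝ := (Phi κ (A • (x - W)) (B • (z - W))) ^ 2 with hg
  have hmin' : ∀ x' ∈ K, ∀ W' ∈ K, ∀ z' ∈ K, r₀ / 2 ≤ ‖A • (x' - W')‖ →
      r₀ / 2 ≤ ‖B • (z' - W')‖ → g ≤ (Phi κ (A • (x' - W')) (B • (z' - W'))) ^ 2 := by
    intro x' hx' W' hW' z' hz' h1 h2
    have : f (x, W, z) ≤ f (x', W', z') := hmin ⟨⟨hx', hW', hz'⟩, h1, h2⟩
    exact this
  have hg0 : g = 0 := by
    apply le_antisymm _ (sq_nonneg _)
    by_contra hcon
    push Not at hcon
    obtain ⟨t, ht⟩ := exists_nat_gt (4 * δ₁ / (g * c₀))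
    obtain ⟨x', hx', W', hW', z', hz', h1, h2, h3⟩ := happ t
    have h4 := hmin' x' hx' W' hW' z' hz' h1 h2
    rw [div_lt_iff₀ (by positivity)] at ht
    have h6 : g * c₀ ≤ 4 * (δ₁ / (t + 1)) :=
      (mul_le_mul_of_nonneg_right h4 hc₀.le).trans h3
    have ht1 : (0 : ℝ) < t + 1 := by positivity
    rw [← mul_div_assoc, le_div_iff₀ ht1] at h6
    nlinarith [mul_pos hcon hc₀]
  have h22 : Phi κ (A • (x - W)) (B • (z - W)) = 0 := by
    rw [hg] at hg0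
    exact pow_eq_zero_iff (two_ne_zero) |>.1 hg0
  rw [Phi_smul κ hA hB] at h22
  have h23 : Phi κ (x - W) (z - W) = 0 := by
    rcases mul_eq_zero.1 h22 with h | h
    · exact absurd h (mul_pos hA hB).ne'
    · exact h
  refine ⟨x, hx, W, hW, z, hz, ?_, ?_, h23⟩
  · rintro rfl
    rw [sub_self, smul_zero, norm_zero] at h20'
    linarith
  · rintro rfl
    rw [sub_self, smul_zero, norm_zero] at h21'
    linarith

theorem core {n : ℕ} (θ : ℝ) (hθ : 0 < θ) (hθπ : θ < Real.pi) (E : Set (En n))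
    (hE : MeasurableSet E) (hd : ENNReal.ofReal ((n : ℝ) / 2 + 5) ≤ dimH E) :
    ∃ x ∈ E, ∃ y ∈ E, ∃ z ∈ E, x ≠ y ∧ z ≠ y ∧ Phi (Real.cos θ) (x - y) (z - y) = 0 := by
  have hn0 : (0 : ℝ) ≤ n := Nat.cast_nonneg n
  set κ := Real.cos θ with hκ
  set s : ℝ := (n : ℝ) / 2 + 4 with hs_def
  set s' : ℝ := (n : ℝ) / 2 + 9 / 2 with hs'_def
  have hs0 : 0 < s := by positivity
  have hs'0 : 0 < s' := by positivity
  have hss' : s < s' := by rw [hs_def, hs'_def]; linarith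
  have hs : ((n : ℝ) + 1) / 2 + 3 ≤ s := by rw [hs_def]; linarith
  set A₀ : ℝ := 8 ^ n * (2 : ℝ) ^ s with hA₀
  have hA₀p : 0 < A₀ := by positivity
  obtain ⟨C, hC, hstab⟩ := cone_stab n κ s A₀ (2 * (n + 1)) (Real.abs_cos_le_one θ) hs hA₀p.le
    (by linarith)
  obtain ⟨c₀, r₀, δ₀, hc₀, hr₀, hδ₀, h4⟩ := four_point_pos n θ s A₀ (n + 1) hθ hθπ hs hA₀p
    (by linarith)
  set δ₁ : ℝ := min (min δ₀ 1) (c₀ / (4 * C)) with hδ₁_def
  have hδ₁ : 0 < δ₁ := lt_min (lt_min hδ₀ one_pos) (by positivity)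
  have hδ₁0 : δ₁ ≤ δ₀ := (min_le_left _ _).trans (min_le_left _ _)
  have hδ₁1 : δ₁ ≤ 1 := (min_le_left _ _).trans (min_le_right _ _)
  have hδ₁C : C * δ₁ ≤ c₀ / 4 := by
    have h1 : δ₁ ≤ c₀ / (4 * C) := min_le_right _ _
    rw [le_div_iff₀ (by positivity)] at h1
    linarith
  obtain ⟨ρ₀, hρ₀, h4'⟩ := h4 δ₁ hδ₁ hδ₁0
  obtain ⟨η, hη, huni⟩ := Psi_unif (n := n) κ r₀ δ₁ (2 * (n + 1)) (c₀ / 16) (by positivity)
  obtain ⟨ma, hma⟩ := exists_pow_small (η / (4 * (n + 1))) (by positivity)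
  obtain ⟨mb, hmb⟩ := exists_pow_small ρ₀ hρ₀
  set m := max ma mb with hm_def
  have hm1 : 4 * (n + 1) * (2 : ℝ)⁻¹ ^ m ≤ η := by
    have h1 := hma m (le_max_left _ _)
    rw [le_div_iff₀ (by positivity)] at h1
    linarith
  have hm2 : (2 : ℝ)⁻¹ ^ m ≤ ρ₀ := hmb m (le_max_right _ _)
  set N : ℝ := ((Fintype.card (Fin n → Fin (2 ^ m)) : ℕ) : ℝ) with hN_def
  have hN0 : 0 ≤ N := Nat.cast_nonneg _
  obtain ⟨L, hL⟩ := exists_nat_gt (max 0 (2 * N * δ₁⁻¹ / (c₀ / 16)))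
  have hL0 : (0 : ℝ) < L := lt_of_le_of_lt (le_max_left _ _) hL
  have hL0' : 0 < L := by exact_mod_cast hL0
  have hL1 : 2 * N * (1 / L) * δ₁⁻¹ ≤ c₀ / 16 := by
    have h1 := (lt_of_le_of_lt (le_max_right _ _) hL).le
    rw [div_le_iff₀ (by positivity)] at h1
    have h2 : 2 * N * (1 / L) * δ₁⁻¹ = 2 * N * δ₁⁻¹ / L := by ring
    rw [h2, div_le_iff₀ hL0]
    linarith
  -- the compact set `K`
  have hdim : ENNReal.ofReal s' < dimH E := by
    refine lt_of_lt_of_le ?_ hd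
    rw [ENNReal.ofReal_lt_ofReal_iff (by positivity), hs'_def]
    linarith
  obtain ⟨K, hKE, hKc, hKpos⟩ := exists_compact s' hs'0 E hE (cont_pos_of_dimH s' hs'0 E hdim)
  have hKm : MeasurableSet K := hKc.measurableSet
  let MK : ∀ Q, Sat s K Q → Mass n s K Q := fun Q h => (exists_mass s hs0 K Q h).some
  let τ : Dy n → ((Fin n → Fin (2 ^ m)) → Fin (L + 1)) := fun Q =>
    if h : Sat s K Q then
      (fun a => ⟨min L ⌊(L : ℝ) * (MK Q h).P m a⌋₊, Nat.lt_succ_of_le (min_le_left _ _)⟩)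
    else fun _ => 0
  have hτ : ∀ Q Q' (h : Sat s K Q) (h' : Sat s K Q'), τ Q = τ Q' →
      ∀ a, |(MK Q h).P m a - (MK Q' h').P m a| ≤ 1 / L := by
    intro Q Q' h h' hh a
    have h1 := congrFun hh a
    simp only [τ, dif_pos h, dif_pos h'] at h1
    have h2 := congrArg Fin.val h1
    exact floor_close hL0' ((MK Q h).nonneg m a) (mass_le_one hs0 _ m a)
      ((MK Q' h').nonneg m a) (mass_le_one hs0 _ m a) h2
  let Y : ((Fin n → Fin (2 ^ m)) → Fin (L + 1)) → Set (En n) := fun a =>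
    {x ∈ K | ∀ k : ℕ, ∃ k' : ℕ, k ≤ k' ∧ Sat s K (cell k' x) ∧ τ (cell k' x) = a}
  have hrec := recurrence s s' hs0 hss' K hKpos
  have hcov : {x ∈ K | ∀ k : ℕ, ∃ k' : ℕ, k ≤ k' ∧ Sat s K (cell k' x)} ⊆ ⋃ a, Y a := by
    rintro x ⟨hxK, hx⟩
    by_contra hcon
    rw [Set.mem_iUnion] at hcon
    push Not at hcon
    have h1 : ∀ a, ∃ k : ℕ, ∀ k' : ℕ, k ≤ k' → Sat s K (cell k' x) → τ (cell k' x) ≠ a := by
      intro a
      by_contra h2
      push Not at h2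
      exact hcon a ⟨hxK, h2⟩
    choose kf hkf using h1
    obtain ⟨k', hk', hsat⟩ := hx (Finset.univ.sup kf)
    exact hkf (τ (cell k' x)) k' ((Finset.le_sup (f := kf) (Finset.mem_univ _)).trans hk') hsat rfl
  have hYpos : ∃ a, 0 < cont s' (Y a) := by
    by_contra hcon
    push Not at hcon
    have h1 : cont s' (⋃ a, Y a) ≤ ∑' a, cont s' (Y a) := cont_iUnion_le s' Y
    have h2 : ∑' a, cont s' (Y a) = 0 := by
      rw [ENNReal.tsum_eq_zero]
      intro a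
      exact le_antisymm (hcon a) zero_le
    rw [h2] at h1
    exact absurd (lt_of_lt_of_le hrec ((cont_mono s' hcov).trans h1)) (lt_irrefl _)
  obtain ⟨a, ha⟩ := hYpos
  have hYm : MeasurableSet (Y a) := by
    have h1 : Y a = K ∩ ⋂ k : ℕ, ⋃ k' : ℕ, {x | k ≤ k' ∧ Sat s K (cell k' x) ∧
        τ (cell k' x) = a} := by
      ext x
      simp only [Y, Set.mem_inter_iff, Set.mem_iInter, Set.mem_iUnion, Set.mem_setOf_eq]
    rw [h1]
    refine hKm.inter (MeasurableSet.iInter fun k => MeasurableSet.iUnion fun k' => ?_)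
    by_cases hk : k ≤ k'
    · have h2 := measurableSet_cell_mem k' {Q : Dy n | Sat s K Q ∧ τ Q = a}
      convert h2 using 1
      ext x
      simp only [Set.mem_setOf_eq]
      exact ⟨fun h => h.2, fun h => ⟨hk, h⟩⟩
    · have : {x : En n | k ≤ k' ∧ Sat s K (cell k' x) ∧ τ (cell k' x) = a} = ∅ := by
        ext x
        simp only [Set.mem_setOf_eq, Set.mem_empty_iff_false, iff_false]
        exact fun h => hk h.1
      rw [this]; exact MeasurableSet.empty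
  obtain ⟨K', hK'Y, hK'c, hK'pos⟩ := exists_compact s' hs'0 (Y a) hYm ha
  have hK'K : K' ⊆ K := fun x hx => (hK'Y hx).1
  -- a saturated cube for `K'`
  have hrec' := recurrence s s' hs0 hss' K' hK'pos
  have hne : {x ∈ K' | ∀ k : ℕ, ∃ k' : ℕ, k ≤ k' ∧ Sat s K' (cell k' x)}.Nonempty := by
    rw [Set.nonempty_iff_ne_empty]
    intro h
    rw [h, cont_empty] at hrec'
    exact lt_irrefl _ hrec'
  obtain ⟨x₀, hx₀K', hx₀⟩ := hne
  obtain ⟨kQ, -, hQ⟩ := hx₀ 0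
  set Q := cell kQ x₀ with hQ_def
  obtain ⟨k₀, -, hQ0, hQ0a⟩ := (hK'Y hx₀K').2 0
  set Q₀ := cell k₀ x₀ with hQ₀_def
  let M : Mass n s K' Q := (exists_mass s hs0 K' Q hQ).some
  let M₀ : Mass n s K Q₀ := MK Q₀ hQ0
  have h5 := h4' (Fin n → Fin (2 ^ m)) (Fin n → Fin (2 ^ m)) Finset.univ Finset.univ
    (pt K' Q m) (pt K Q₀ m) (M.P m) (M₀.P m) ((2 : ℝ)⁻¹ ^ m) (by positivity) hm2
    (M.fro hs0 m _ (pt_near K' Q m)) (M₀.fro hs0 m _ (pt_near K Q₀ m))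
    (fun i _ => norm_le_of_near _ i (pt_near K' Q m i))
    (fun i _ => norm_le_of_near _ i (pt_near K Q₀ m i)) (M.sum_eq_one m) (M₀.sum_eq_one m)
  obtain ⟨i', hi', h6⟩ := choose_vertex κ r₀ δ₁ c₀ hr₀ hδ₁ (M.P m) (M₀.P m) (M.nonneg m)
    (M₀.nonneg m) (M.sum_eq_one m) (pt K' Q m) (pt K Q₀ m) h5
  set y : En n := (M.supp m i' hi').some with hy_def
  have hyK' : y ∈ K' := (M.supp m i' hi').some_mem.1
  have hyQ : y ∈ cube Q := sub_subset Q i' (M.supp m i' hi').some_mem.2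
  have hyY : pt K' Q m i' = uc Q y := by
    unfold pt
    rw [dif_pos (M.supp m i' hi')]
  rw [hyY] at h6
  have h7 := fine_coarse M M₀ κ r₀ δ₁ (c₀ / 16) η huni m 0 hm1 (pt K' Q m) (pt K Q₀ m)
    (fun _ => uc Q y) (uc Q y) (pt_near K' Q m) (pt_near K Q₀ m) (norm_uc_le Q y hyQ)
    (fun _ => norm_uc_le Q y hyQ) (fun _ => by rw [sub_self, norm_zero]; positivity)
  have h8 : 15 / 16 * c₀ ≤ TT κ r₀ δ₁ m (M.P m) (uc Q y) (M₀.P m) := by
    have h9 := (abs_le.1 h7).2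
    have h10 : ∑ b, ∑ c, ∑ d, M.P m b * M₀.P m c * M₀.P m d *
      Psi κ r₀ δ₁ (pt K' Q m b - uc Q y) (pt K Q₀ m d - pt K Q₀ m c) -
        TT κ r₀ δ₁ m (M.P m) (uc Q y) (M₀.P m) ≤ c₀ / 16 := h9
    linarith
  -- the small cube of the same type
  obtain ⟨kc, hkc⟩ := exists_pow_small (η / 2 / (2 ^ Q.1 * (n + 1))) (by positivity)
  obtain ⟨k', hk', hQ'sat, hQ'a⟩ := (hK'Y hyK').2 (max kc Q.1)
  set Q' := cell k' y with hQ'_def
  have hQ'1 : Q'.1 = k' := rfl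
  have hyQ' : y ∈ cube Q' := mem_cube_cell k' y
  have hQ'Q : cube Q' ⊆ cube Q := by
    apply cube_subset_of_mem Q Q' _ y hyQ hyQ'
    rw [hQ'1]; exact (le_max_right _ _).trans hk'
  let M' : Mass n s K Q' := MK Q' hQ'sat
  have h11 : 14 / 16 * c₀ ≤ TT κ r₀ δ₁ m (M.P m) (uc Q y) (M'.P m) := by
    have h12 := TT_type κ r₀ δ₁ hδ₁ m (M.P m) (M₀.P m) (M'.P m) (uc Q y) (M.nonneg m)
      (M.sum_eq_one m) (M₀.nonneg m) (M₀.sum_eq_one m) (M'.nonneg m) (M'.sum_eq_one m) (1 / L)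
      (hτ Q₀ Q' hQ0 hQ'sat (by rw [hQ0a, hQ'a]))
    have h13 := (abs_le.1 h12).2
    rw [← hN_def] at h13
    linarith
  -- approximate solutions
  have happ : ∀ t : ℕ, ∃ x ∈ K, ∃ W ∈ K, ∃ z ∈ K, r₀ / 2 ≤ ‖(2 : ℝ) ^ Q.1 • (x - W)‖ ∧
      r₀ / 2 ≤ ‖(2 : ℝ) ^ Q'.1 • (z - W)‖ ∧
      (Phi κ ((2 : ℝ) ^ Q.1 • (x - W)) ((2 : ℝ) ^ Q'.1 • (z - W))) ^ 2 * c₀ ≤
        4 * (δ₁ / (t + 1)) := by
    intro t
    set δ' : ℝ := δ₁ / (t + 1) with hδ'_def
    have ht1 : (0 : ℝ) < t + 1 := by positivity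
    have hδ' : 0 < δ' := by positivity
    have hδ'1 : δ' ≤ δ₁ := by
      rw [hδ'_def]
      exact div_le_self hδ₁.le (by have : (0 : ℝ) ≤ t := Nat.cast_nonneg t
                                   linarith)
    obtain ⟨j, hj⟩ := exists_pow_small (δ' ^ 2) (by positivity)
    have hj' : (2 : ℝ)⁻¹ ^ (m + j) ≤ δ' ^ 2 := hj _ (Nat.le_add_left _ _)
    set X := pt K' Q (m + j) with hX_def
    set Z := pt K Q' (m + j) with hZ_def
    set W := rt K Q' (m + j) y with hW_def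
    have hWm : ∀ c, W c ∈ K ∩ cube Q' := rt_mem K Q' (m + j) y ⟨hK'K hyK', hyQ'⟩
    have hWn : ∀ c, ‖uc Q (W c)‖ ≤ n + 1 := fun c => norm_uc_le Q _ (hQ'Q (hWm c).2)
    have hXn : ∀ b, ‖X b‖ ≤ n + 1 := fun b => norm_le_of_near _ b (pt_near K' Q (m + j) b)
    have hZn : ∀ b, ‖Z b‖ ≤ n + 1 := fun b => norm_le_of_near _ b (pt_near K Q' (m + j) b)
    have h14 := fine_coarse M M' κ r₀ δ₁ (c₀ / 16) η huni m j hm1 X Z
      (fun c => uc Q (W c)) (uc Q y) (pt_near K' Q (m + j)) (pt_near K Q' (m + j))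
      (norm_uc_le Q y hyQ) hWn (fun c => by
        rw [uc_sub_uc, norm_smul, Real.norm_of_nonneg (by positivity)]
        have h15 := dist_of_mem_cube Q' (W c) y (hWm c).2 hyQ'
        have h16 := hkc k' ((le_max_left _ _).trans hk')
        rw [hQ'1] at h15
        rw [le_div_iff₀ (by positivity)] at h16
        have h17 := mul_le_mul_of_nonneg_left h15 (by positivity : (0 : ℝ) ≤ 2 ^ Q.1)
        nlinarith)
    have h18 : 3 / 4 * c₀ < ∑ b, ∑ c, ∑ d, M.P (m + j) b * M'.P (m + j) c * M'.P (m + j) d *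
        Psi κ r₀ δ₁ (X b - uc Q (W c)) (Z d - Z c) := by
      have h19 := (abs_le.1 h14).1
      linarith
    obtain ⟨b, c, d, hb, hc, hd', hXb, hZd, hgk⟩ := choose_triple κ r₀ δ₁ δ' c₀ hr₀ hδ₁ hc₀
      (M.P (m + j)) (M'.P (m + j)) (M.nonneg _) (M'.nonneg _) (M.sum_eq_one _) (M'.sum_eq_one _)
      X Z (fun c => uc Q (W c)) h18 (fun c _ => by
        refine (hstab _ _ _ _ _ _ _ _ ((2 : ℝ)⁻¹ ^ (m + j)) δ₁ δ' (by positivity)
          (((M.fro hs0 (m + j) X (pt_near K' Q (m + j))).sub_const (uc Q (W c))).subset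
            (Finset.filter_subset _ _))
          (((M'.fro hs0 (m + j) Z (pt_near K Q' (m + j))).sub_const (Z c)).subset
            (Finset.filter_subset _ _))
          (fun b _ => (norm_sub_le _ _).trans (by have := hXn b; have := hWn c; linarith))
          (fun d _ => (norm_sub_le _ _).trans (by have := hZn d; have := hZn c; linarith))
          hδ' hδ'1 hδ₁1 hj').1.trans hδ₁C)
    have e1 : X b = uc Q (rt K' Q (m + j) y b) := pt_eq_rt M (m + j) y b hb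
    have e2 : Z d = uc Q' (W d) := pt_eq_rt M' (m + j) y d hd'
    have e3 : Z c = uc Q' (W c) := pt_eq_rt M' (m + j) y c hc
    rw [e1, uc_sub_uc] at hXb hgk
    rw [e2, e3, uc_sub_uc] at hZd hgk
    exact ⟨rt K' Q (m + j) y b, hK'K (rt_mem K' Q (m + j) y ⟨hyK', hyQ⟩ b).1, W c, (hWm c).1,
      W d, (hWm d).1, hXb, hZd, sq_le_of_gk hδ' hgk⟩
  obtain ⟨x, hx, W, hW, z, hz, hxW, hzW, h0⟩ := compact_zero κ K hKc ((2 : ℝ) ^ Q.1)
    ((2 : ℝ) ^ Q'.1) r₀ c₀ δ₁ (by positivity) (by positivity) hr₀ hc₀ hδ₁ happ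
  exact ⟨x, hKE hx, W, hKE hW, z, hKE hz, hxW, hzW, h0⟩

theorem main {n : ℕ} (θ : ℝ) (hθ : 0 < θ) (hθπ : θ < Real.pi) (E : Set (En n))
    (hE : MeasurableSet E) (hd : ENNReal.ofReal ((n : ℝ) / 2 + 5) ≤ dimH E) :
    ∃ x ∈ E, ∃ y ∈ E, ∃ z ∈ E,
      x ≠ y ∧ z ≠ y ∧ x ≠ z ∧ EuclideanGeometry.angle x y z = θ := by
  obtain ⟨x, hx, y, hy, z, hz, hxy, hzy, h⟩ := core θ hθ hθπ E hE hd
  have hang : EuclideanGeometry.angle x y z = θ := by
    unfold EuclideanGeometry.angle InnerProductGeometry.angle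
    rw [vsub_eq_sub, vsub_eq_sub]
    have h1 : 0 < ‖x - y‖ := norm_pos_iff.2 (sub_ne_zero.2 hxy)
    have h2 : 0 < ‖z - y‖ := norm_pos_iff.2 (sub_ne_zero.2 hzy)
    have h3 : inner ℝ (x - y) (z - y) = Real.cos θ * ‖x - y‖ * ‖z - y‖ := by
      unfold Phi at h; linarith
    rw [h3]
    have h4 : Real.cos θ * ‖x - y‖ * ‖z - y‖ / (‖x - y‖ * ‖z - y‖) = Real.cos θ := by
      field_simp
    rw [h4, Real.arccos_cos hθ.le hθπ.le]
  refine ⟨x, hx, y, hy, z, hz, hxy, hzy, ?_, hang⟩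
  rintro rfl
  rw [EuclideanGeometry.angle_self_of_ne hxy] at hang
  exact hθ.ne hang

end

end Pool.Agent.H47A
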