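import Pool.Agent.Helper47_Angle.Defs
set_option autoImplicit false
namespace Pool.Agent.H47A
open scoped BigOperators Classical ENNReal
open MeasureTheory
noncomputable section

namespace M6

/-! ## statements of the modules used -/

def GaussSumSt : Prop := ∀ (s a : ℝ) (_ : 0 ≤ s) (_ : 0 < a),
    ∃ C : ℝ, 0 < C ∧ ∀ (F : Type) [NormedAddCommGroup F] (ι : Type) (I : Finset ι) (X : ι → F)
      (p : ι → ℝ) (A ρ t : ℝ) (c : F), Fro I X p A s ρ → 0 ≤ A → 0 < t → ρ ≤ t →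
      ∑ i ∈ I, p i * Real.exp (-(a * (‖X i - c‖ / t) ^ 2)) ≤ C * A * t ^ s

def ConeSt : Prop := ∀ (n : ℕ) (κ s A R : ℝ) (_ : |κ| ≤ 1) (_ : ((n : ℝ) + 1) / 2 + 3 ≤ s)
    (_ : 0 ≤ A) (_ : 1 ≤ R),
    ∃ C : ℝ, 0 < C ∧ ∀ (ι ι' : Type) (I : Finset ι) (J : Finset ι') (x : ι → En n) (z : ι' → En n)
      (p : ι → ℝ) (q : ι' → ℝ) (ρ δ δ' : ℝ), 0 < ρ → Fro I x p A s ρ → Fro J z q A s ρ →
      (∀ i ∈ I, ‖x i‖ ≤ R) → (∀ j ∈ J, ‖z j‖ ≤ R) → 0 < δ' → δ' ≤ δ → δ ≤ 1 → ρ ≤ δ' ^ 2 →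
      |BB κ I J x z p q δ - BB κ I J x z p q δ'| ≤ C * δ ∧ BB κ I J x z p q δ' ≤ C

def RandMapSt : Prop := ∀ (m : ℕ) (_ : 1 ≤ m) (θ : ℝ) (_ : 0 < θ) (_ : θ < Real.pi),
    ∃ (Ω : Type) (_ : MeasurableSpace Ω) (P : Measure Ω) (_ : IsProbabilityMeasure P)
      (g : Ω → En (2 * m) →ₗ[ℝ] En (2 * m)) (C : ℝ), 0 < C ∧
      (∀ u, Measurable (fun ω => g ω u)) ∧
      (∀ ω u, ‖u‖ ≤ ‖g ω u‖) ∧ (∀ ω u, ‖g ω u‖ ≤ 2 * ‖u‖) ∧
      (∀ ω u, inner ℝ u (g ω u) = Real.cos θ * ‖u‖ * ‖g ω u‖) ∧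
      ∀ u v : En (2 * m), ∀ δ : ℝ, 0 < δ → δ ≤ ‖u‖ →
        ∫ ω, Real.exp (-(‖v - g ω u‖ ^ 2) / (4 * δ ^ 2)) ∂P ≤ C * (δ / ‖u‖) ^ (2 * m - 1)

def GaussLowerSt : Prop := ∀ (N : ℕ) (R : ℝ) (_ : 1 ≤ R),
    ∃ c : ℝ, 0 < c ∧ ∀ (ι ι' : Type) (I : Finset ι) (J : Finset ι') (x : ι → En N)
      (z : ι' → En N) (p : ι → ℝ) (q : ι' → ℝ) (g : En N →ₗ[ℝ] En N) (δ : ℝ),
      (∀ u, ‖g u‖ ≤ 2 * ‖u‖) → 0 < δ → δ ≤ 1 → (∀ i ∈ I, 0 ≤ p i) → (∀ j ∈ J, 0 ≤ q j) →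
      ∑ i ∈ I, p i = 1 → ∑ j ∈ J, q j = 1 → (∀ i ∈ I, ‖x i‖ ≤ R) → (∀ j ∈ J, ‖z j‖ ≤ R) →
      c * δ ^ N ≤ ∑ i ∈ I, ∑ i' ∈ I, ∑ j ∈ J, ∑ j' ∈ J, p i * p i' * q j * q j' *
        Real.exp (-(‖(z j - z j') - g (x i - x i')‖ ^ 2) / (2 * δ ^ 2))

/-! ## the four fold sum -/

section W

variable {n : ℕ} {ι ι' : Type}

def W (I : Finset ι) (J : Finset ι') (x : ι → En n) (z : ι' → En n) (p : ι → ℝ) (q : ι' → ℝ)
    (F : En n → En n → ℝ) : ℝ :=
  ∑ i ∈ I, ∑ i' ∈ I, ∑ j ∈ J, ∑ j' ∈ J, p i * p i' * q j * q j' * F (x i - x i') (z j - z j')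

variable {I : Finset ι} {J : Finset ι'} {x : ι → En n} {z : ι' → En n} {p : ι → ℝ} {q : ι' → ℝ}

theorem W_mono (hp : ∀ i ∈ I, 0 ≤ p i) (hq : ∀ j ∈ J, 0 ≤ q j) {F G : En n → En n → ℝ}
    (h : ∀ i ∈ I, ∀ i' ∈ I, ∀ j ∈ J, ∀ j' ∈ J,
      F (x i - x i') (z j - z j') ≤ G (x i - x i') (z j - z j')) :
    W I J x z p q F ≤ W I J x z p q G := by
  unfold W
  refine Finset.sum_le_sum fun i hi => Finset.sum_le_sum fun i' hi' =>
    Finset.sum_le_sum fun j hj => Finset.sum_le_sum fun j' hj' => ?_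
  refine mul_le_mul_of_nonneg_left (h i hi i' hi' j hj j' hj') ?_
  exact mul_nonneg (mul_nonneg (mul_nonneg (hp i hi) (hp i' hi')) (hq j hj)) (hq j' hj')

theorem W_add (F G : En n → En n → ℝ) :
    W I J x z p q (fun u v => F u v + G u v) = W I J x z p q F + W I J x z p q G := by
  unfold W
  simp only [mul_add, Finset.sum_add_distrib]

theorem W_const_mul (c : ℝ) (F : En n → En n → ℝ) :
    W I J x z p q (fun u v => c * F u v) = c * W I J x z p q F := by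
  unfold W
  simp only [Finset.mul_sum]
  refine Finset.sum_congr rfl fun i _ => Finset.sum_congr rfl fun i' _ =>
    Finset.sum_congr rfl fun j _ => Finset.sum_congr rfl fun j' _ => ?_
  ring

theorem W_sum (S : Finset ℕ) (F : ℕ → En n → En n → ℝ) :
    W I J x z p q (fun u v => ∑ k ∈ S, F k u v) = ∑ k ∈ S, W I J x z p q (F k) := by
  induction S using Finset.induction_on with
  | empty => simp [W]
  | insert a S ha ih =>
    simp only [Finset.sum_insert ha]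
    rw [W_add, ih]

theorem W_eq (F : En n → En n → ℝ) :
    W I J x z p q F = ∑ i' ∈ I, ∑ j' ∈ J, p i' * q j' *
      ∑ i ∈ I, ∑ j ∈ J, p i * q j * F (x i - x i') (z j - z j') := by
  unfold W
  rw [Finset.sum_comm]
  refine Finset.sum_congr rfl fun i' _ => ?_
  have h1 : ∀ i ∈ I, ∑ j ∈ J, ∑ j' ∈ J, p i * p i' * q j * q j' * F (x i - x i') (z j - z j') =
      ∑ j' ∈ J, ∑ j ∈ J, p i * p i' * q j * q j' * F (x i - x i') (z j - z j') :=
    fun i _ => Finset.sum_comm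
  rw [Finset.sum_congr rfl h1, Finset.sum_comm]
  refine Finset.sum_congr rfl fun j' _ => ?_
  rw [Finset.mul_sum]
  refine Finset.sum_congr rfl fun i _ => ?_
  rw [Finset.mul_sum]
  refine Finset.sum_congr rfl fun j _ => ?_
  ring

theorem W_le (hp : ∀ i ∈ I, 0 ≤ p i) (hq : ∀ j ∈ J, 0 ≤ q j) (hp1 : ∑ i ∈ I, p i = 1)
    (hq1 : ∑ j ∈ J, q j = 1) {F : En n → En n → ℝ} {B : ℝ}
    (h : ∀ i' ∈ I, ∀ j' ∈ J,
      ∑ i ∈ I, ∑ j ∈ J, p i * q j * F (x i - x i') (z j - z j') ≤ B) :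
    W I J x z p q F ≤ B := by
  rw [W_eq]
  have h2 : ∑ i' ∈ I, ∑ j' ∈ J, p i' * q j' * B = B := by
    have : ∀ i' ∈ I, ∑ j' ∈ J, p i' * q j' * B = p i' * B := by
      intro i' _
      have h3 : ∀ j' ∈ J, p i' * q j' * B = q j' * (p i' * B) := fun j' _ => by ring
      rw [Finset.sum_congr rfl h3, ← Finset.sum_mul, hq1, one_mul]
    rw [Finset.sum_congr rfl this, ← Finset.sum_mul, hp1, one_mul]
  calc _ ≤ ∑ i' ∈ I, ∑ j' ∈ J, p i' * q j' * B := by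
        refine Finset.sum_le_sum fun i' hi' => Finset.sum_le_sum fun j' hj' => ?_
        exact mul_le_mul_of_nonneg_left (h i' hi' j' hj') (mul_nonneg (hp i' hi') (hq j' hj'))
    _ = B := h2

theorem W_const_le (hp : ∀ i ∈ I, 0 ≤ p i) (hq : ∀ j ∈ J, 0 ≤ q j) (hp1 : ∑ i ∈ I, p i = 1)
    (hq1 : ∑ j ∈ J, q j = 1) (B : ℝ) : W I J x z p q (fun _ _ => B) ≤ B := by
  refine W_le hp hq hp1 hq1 fun i' _ j' _ => le_of_eq ?_
  have : ∀ i ∈ I, ∑ j ∈ J, p i * q j * B = p i * B := by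
    intro i _
    have h3 : ∀ j ∈ J, p i * q j * B = q j * (p i * B) := fun j _ => by ring
    rw [Finset.sum_congr rfl h3, ← Finset.sum_mul, hq1, one_mul]
  rw [Finset.sum_congr rfl this, ← Finset.sum_mul, hp1, one_mul]

end W

/-! ## isometric embedding -/

theorem exists_isom {n N : ℕ} (h : n ≤ N) : Nonempty (En n →ₗᵢ[ℝ] En N) := by
  let b := (EuclideanSpace.basisFun (Fin n) ℝ)
  let f : En n →ₗ[ℝ] En N :=
    b.toBasis.constr ℝ (fun i => (EuclideanSpace.basisFun (Fin N) ℝ) (Fin.castLE h i))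
  refine ⟨f.isometryOfOrthonormal (v := b.toBasis) ?_ ?_⟩
  · simp [b.orthonormal]
  · have h1 : f ∘ b.toBasis = (EuclideanSpace.basisFun (Fin N) ℝ) ∘ (Fin.castLE h) := by
      funext i
      simp only [f, Function.comp_apply, Module.Basis.constr_basis]
    rw [h1]
    exact (EuclideanSpace.basisFun (Fin N) ℝ).orthonormal.comp _ (Fin.castLE_injective h)

/-! ## elementary estimates -/

theorem poly_exp (s : ℝ) : ∃ C : ℝ, 0 < C ∧ ∀ y : ℝ, 0 ≤ y →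
    Real.exp (-(y ^ 2) / 8) * (y + 1) ^ s ≤ C * Real.exp (-(1 / 16 * y ^ 2)) := by
  refine ⟨(Nat.factorial ⌈s⌉₊ : ℝ) * Real.exp 5, by positivity, fun y hy => ?_⟩
  have h1 : (y + 1) ^ s ≤ (y + 1) ^ (⌈s⌉₊ : ℕ) := by
    rw [← Real.rpow_natCast]
    exact Real.rpow_le_rpow_of_exponent_le (by linarith) (Nat.le_ceil s)
  have h2 : (y + 1) ^ (⌈s⌉₊ : ℕ) / (Nat.factorial ⌈s⌉₊ : ℝ) ≤ Real.exp (y + 1) :=
    Real.pow_div_factorial_le_exp _ (by linarith) _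
  have h3 : Real.exp (y + 1) ≤ Real.exp (y ^ 2 / 16 + 5) := by
    apply Real.exp_le_exp.2
    nlinarith [sq_nonneg (y / 4 - 2)]
  have h4 : (y + 1) ^ s ≤ (Nat.factorial ⌈s⌉₊ : ℝ) * Real.exp (y ^ 2 / 16 + 5) := by
    rw [div_le_iff₀ (by positivity)] at h2
    calc (y + 1) ^ s ≤ Real.exp (y + 1) * (Nat.factorial ⌈s⌉₊ : ℝ) := h1.trans h2
      _ ≤ Real.exp (y ^ 2 / 16 + 5) * (Nat.factorial ⌈s⌉₊ : ℝ) :=
          mul_le_mul_of_nonneg_right h3 (by positivity)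
      _ = _ := by ring
  calc Real.exp (-(y ^ 2) / 8) * (y + 1) ^ s
      ≤ Real.exp (-(y ^ 2) / 8) * ((Nat.factorial ⌈s⌉₊ : ℝ) * Real.exp (y ^ 2 / 16 + 5)) :=
        mul_le_mul_of_nonneg_left h4 (Real.exp_pos _).le
    _ = (Nat.factorial ⌈s⌉₊ : ℝ) * (Real.exp (-(y ^ 2) / 8) * Real.exp (y ^ 2 / 16 + 5)) := by
        ring
    _ = (Nat.factorial ⌈s⌉₊ : ℝ) * (Real.exp 5 * Real.exp (-(1 / 16 * y ^ 2))) := by
        rw [← Real.exp_add, ← Real.exp_add]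
        congr 2
        ring
    _ = _ := by ring

theorem exp_small (N : ℕ) (hN : 1 ≤ N) (r : ℝ) (hr : 0 < r) (c : ℝ) (hc : 0 < c) :
    ∃ d₀ : ℝ, 0 < d₀ ∧ ∀ d : ℝ, 0 < d → d ≤ d₀ → d ≤ 1 →
      Real.exp (-(r ^ 2) / (8 * d ^ 2)) ≤ c * d ^ N := by
  refine ⟨c * r ^ (2 * N) / (Nat.factorial N * 8 ^ N), by positivity, fun d hd hd0 hd1 => ?_⟩
  set y := r ^ 2 / (8 * d ^ 2) with hy
  have hy0 : 0 < y := by positivity
  have h1 : y ^ N / (Nat.factorial N : ℝ) ≤ Real.exp y := Real.pow_div_factorial_le_exp _ hy0.le _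
  have h2 : Real.exp (-(r ^ 2) / (8 * d ^ 2)) = (Real.exp y)⁻¹ := by
    rw [← Real.exp_neg]; congr 1; rw [hy]; ring
  have h3 : (Real.exp y)⁻¹ ≤ (y ^ N / (Nat.factorial N : ℝ))⁻¹ :=
    inv_anti₀ (by positivity) h1
  have h4 : (y ^ N / (Nat.factorial N : ℝ))⁻¹ =
      (Nat.factorial N * 8 ^ N / r ^ (2 * N)) * d ^ N * d ^ N := by
    rw [hy, div_pow, mul_pow]
    have e1 : (r ^ 2) ^ N = r ^ (2 * N) := by rw [pow_mul]
    have e2 : (d ^ 2) ^ N = d ^ N * d ^ N := by rw [← pow_mul, two_mul, pow_add]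
    rw [e1, e2]
    field_simp
  have h5 : d ^ N ≤ d := by
    calc d ^ N ≤ d ^ 1 := pow_le_pow_of_le_one hd.le hd1 hN
      _ = d := pow_one d
  have h6 : (Nat.factorial N * 8 ^ N / r ^ (2 * N)) * d ^ N ≤ c := by
    have : d ^ N ≤ c * r ^ (2 * N) / (Nat.factorial N * 8 ^ N) := h5.trans hd0
    calc (Nat.factorial N * 8 ^ N / r ^ (2 * N)) * d ^ N
        ≤ (Nat.factorial N * 8 ^ N / r ^ (2 * N)) *
          (c * r ^ (2 * N) / (Nat.factorial N * 8 ^ N)) :=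
          mul_le_mul_of_nonneg_left this (by positivity)
      _ = c := by field_simp
  rw [h2]
  refine h3.trans ?_
  rw [h4]
  exact mul_le_mul_of_nonneg_right h6 (by positivity)

/-! ## the kernel -/

section kernel

variable {n N : ℕ} {Ω : Type} [MeasurableSpace Ω] (P : Measure Ω)
  (g : Ω → En N →ₗ[ℝ] En N) (e : En n →ₗᵢ[ℝ] En N)

def K (d : ℝ) (u v : En n) : ℝ := ∫ ω, Real.exp (-(‖e v - g ω (e u)‖ ^ 2) / (2 * d ^ 2)) ∂P

variable [IsProbabilityMeasure P] {P g}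

theorem meas (hgm : ∀ u, Measurable (fun ω => g ω u)) (a : ℝ) (U V : En N) :
    Measurable (fun ω => Real.exp (-(‖V - g ω U‖ ^ 2) / a)) := by
  have h1 : Measurable (fun ω => V - g ω U) := (hgm U).const_sub V
  exact Real.measurable_exp.comp (((h1.norm.pow_const 2).neg).div_const a)

theorem exp_le_one' (a t : ℝ) (ha : 0 ≤ a) : Real.exp (-(t ^ 2) / a) ≤ 1 := by
  rw [Real.exp_le_one_iff]
  exact div_nonpos_of_nonpos_of_nonneg (by nlinarith [sq_nonneg t]) ha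

theorem integrable' (hgm : ∀ u, Measurable (fun ω => g ω u)) (a : ℝ) (ha : 0 ≤ a) (U V : En N) :
    Integrable (fun ω => Real.exp (-(‖V - g ω U‖ ^ 2) / a)) P := by
  refine Integrable.of_bound (meas hgm a U V).aestronglyMeasurable 1 ?_
  filter_upwards with ω
  rw [Real.norm_of_nonneg (Real.exp_pos _).le]
  exact exp_le_one' a _ ha

theorem K_le_of_pointwise (hgm : ∀ u, Measurable (fun ω => g ω u)) (d : ℝ) (u v : En n) (B : ℝ)
    (h : ∀ ω, Real.exp (-(‖e v - g ω (e u)‖ ^ 2) / (2 * d ^ 2)) ≤ B) : K P g e d u v ≤ B := by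
  unfold K
  calc _ ≤ ∫ _ω : Ω, B ∂P :=
        integral_mono (integrable' hgm _ (by positivity) _ _) (integrable_const B) h
    _ = B := by simp

theorem K_le_one (hgm : ∀ u, Measurable (fun ω => g ω u)) (d : ℝ) (u v : En n) :
    K P g e d u v ≤ 1 :=
  K_le_of_pointwise e hgm d u v 1 fun ω => exp_le_one' _ _ (by positivity)

theorem exp_mono_norm {t r a : ℝ} (hr : 0 ≤ r) (h : r ≤ t) (ha : 0 ≤ a) :
    Real.exp (-(t ^ 2) / a) ≤ Real.exp (-(r ^ 2) / a) := by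
  apply Real.exp_le_exp.2
  apply div_le_div_of_nonneg_right _ ha
  nlinarith

theorem K_far (hgm : ∀ u, Measurable (fun ω => g ω u)) (hg2 : ∀ ω u, ‖g ω u‖ ≤ 2 * ‖u‖)
    (d : ℝ) (u v : En n) (h : 4 * ‖u‖ < ‖v‖) :
    K P g e d u v ≤ Real.exp (-((‖v‖ / d) ^ 2) / 8) := by
  refine K_le_of_pointwise e hgm d u v _ fun ω => ?_
  have h1 : ‖v‖ / 2 ≤ ‖e v - g ω (e u)‖ := by
    have h2 := norm_sub_norm_le (e v) (g ω (e u))
    have h3 := hg2 ω (e u)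
    rw [e.norm_map] at h2 h3
    linarith
  refine (exp_mono_norm (by positivity) h1 (by positivity)).trans (le_of_eq ?_)
  congr 1
  ring

theorem K_small (hgm : ∀ u, Measurable (fun ω => g ω u)) (hg1 : ∀ ω u, ‖u‖ ≤ ‖g ω u‖)
    (d r : ℝ) (u v : En n) (h : ‖v‖ ≤ ‖u‖ / 2) (hr : 0 ≤ r) (hru : r ≤ ‖u‖) :
    K P g e d u v ≤ Real.exp (-(r ^ 2) / (8 * d ^ 2)) := by
  refine K_le_of_pointwise e hgm d u v _ fun ω => ?_
  have h1 : r / 2 ≤ ‖e v - g ω (e u)‖ := by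
    have h2 := norm_sub_norm_le (g ω (e u)) (e v)
    have h3 := hg1 ω (e u)
    rw [norm_sub_rev, e.norm_map] at h2
    rw [e.norm_map] at h3
    linarith
  refine (exp_mono_norm (by positivity) h1 (by positivity)).trans (le_of_eq ?_)
  congr 1
  ring

omit [MeasurableSpace Ω] in
theorem phi_le {κ : ℝ} (hκ : |κ| ≤ 1) (hgi : ∀ ω u, inner ℝ u (g ω u) = κ * ‖u‖ * ‖g ω u‖)
    (ω : Ω) (u v : En n) : |Phi κ u v| ≤ 2 * ‖u‖ * ‖e v - g ω (e u)‖ := by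
  have h1 : Phi κ u v = inner ℝ (e u) (e v - g ω (e u)) +
      κ * ‖u‖ * (‖g ω (e u)‖ - ‖e v‖) := by
    unfold Phi
    rw [inner_sub_right, hgi, e.inner_map_map, e.norm_map, e.norm_map]
    ring
  have h2 : |(inner ℝ (e u) (e v - g ω (e u)) : ℝ)| ≤ ‖u‖ * ‖e v - g ω (e u)‖ := by
    have := abs_real_inner_le_norm (e u) (e v - g ω (e u))
    rwa [e.norm_map] at this
  have h3 : |κ * ‖u‖ * (‖g ω (e u)‖ - ‖e v‖)| ≤ ‖u‖ * ‖e v - g ω (e u)‖ := by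
    rw [abs_mul, abs_mul, abs_of_nonneg (norm_nonneg u)]
    have h4 : |‖g ω (e u)‖ - ‖e v‖| ≤ ‖e v - g ω (e u)‖ := by
      rw [norm_sub_rev]; exact abs_norm_sub_norm_le _ _
    calc |κ| * ‖u‖ * |‖g ω (e u)‖ - ‖e v‖|
        ≤ 1 * ‖u‖ * ‖e v - g ω (e u)‖ := by
          apply mul_le_mul (mul_le_mul_of_nonneg_right hκ (norm_nonneg _)) h4 (abs_nonneg _)
          positivity
      _ = _ := by ring
  rw [h1]
  calc _ ≤ _ := abs_add_le _ _
    _ ≤ ‖u‖ * ‖e v - g ω (e u)‖ + ‖u‖ * ‖e v - g ω (e u)‖ := add_le_add h2 h3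
    _ = _ := by ring

theorem K_main {κ Cg : ℝ} {M : ℕ} (hκ : |κ| ≤ 1) (hgm : ∀ u, Measurable (fun ω => g ω u))
    (hgi : ∀ ω u, inner ℝ u (g ω u) = κ * ‖u‖ * ‖g ω u‖)
    (hgK : ∀ u v : En N, ∀ δ : ℝ, 0 < δ → δ ≤ ‖u‖ →
        ∫ ω, Real.exp (-(‖v - g ω u‖ ^ 2) / (4 * δ ^ 2)) ∂P ≤ Cg * (δ / ‖u‖) ^ M)
    (d : ℝ) (hd : 0 < d) (u v : En n) (hdu : d ≤ ‖u‖) :
    K P g e d u v ≤ Cg * (d / ‖u‖) ^ M *
      Real.exp (-(Phi κ u v) ^ 2 / (16 * ‖u‖ ^ 2 * d ^ 2)) := by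
  have hu : 0 < ‖u‖ := hd.trans_le hdu
  have h1 : ∀ ω, Real.exp (-(‖e v - g ω (e u)‖ ^ 2) / (2 * d ^ 2)) ≤
      Real.exp (-(Phi κ u v) ^ 2 / (16 * ‖u‖ ^ 2 * d ^ 2)) *
        Real.exp (-(‖e v - g ω (e u)‖ ^ 2) / (4 * d ^ 2)) := by
    intro ω
    rw [← Real.exp_add]
    apply Real.exp_le_exp.2
    have h2 := phi_le e hκ hgi ω u v
    set w := ‖e v - g ω (e u)‖ with hw
    have hw0 : 0 ≤ w := norm_nonneg _
    have h3 : (Phi κ u v) ^ 2 ≤ (2 * ‖u‖ * w) ^ 2 := by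
      rw [← sq_abs (Phi κ u v)]
      exact pow_le_pow_left₀ (abs_nonneg _) h2 2
    have h4 : (Phi κ u v) ^ 2 / (16 * ‖u‖ ^ 2 * d ^ 2) ≤ w ^ 2 / (4 * d ^ 2) := by
      rw [div_le_div_iff₀ (by positivity) (by positivity)]
      nlinarith [mul_le_mul_of_nonneg_right h3 (show 0 ≤ 4 * d ^ 2 by positivity)]
    have h5 : -(w ^ 2) / (2 * d ^ 2) = -(w ^ 2 / (4 * d ^ 2)) - w ^ 2 / (4 * d ^ 2) := by
      field_simp
      ring
    rw [h5, neg_div, neg_div]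
    linarith
  have h6 := hgK (e u) (e v) d hd (by rw [e.norm_map]; exact hdu)
  rw [e.norm_map] at h6
  calc K P g e d u v ≤ ∫ ω, Real.exp (-(Phi κ u v) ^ 2 / (16 * ‖u‖ ^ 2 * d ^ 2)) *
        Real.exp (-(‖e v - g ω (e u)‖ ^ 2) / (4 * d ^ 2)) ∂P := by
        unfold K
        exact integral_mono (integrable' hgm _ (by positivity) _ _)
          ((integrable' hgm _ (by positivity) _ _).const_mul _) h1
    _ = Real.exp (-(Phi κ u v) ^ 2 / (16 * ‖u‖ ^ 2 * d ^ 2)) *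
        ∫ ω, Real.exp (-(‖e v - g ω (e u)‖ ^ 2) / (4 * d ^ 2)) ∂P := by
        rw [integral_const_mul]
    _ ≤ Real.exp (-(Phi κ u v) ^ 2 / (16 * ‖u‖ ^ 2 * d ^ 2)) * (Cg * (d / ‖u‖) ^ M) :=
        mul_le_mul_of_nonneg_left h6 (Real.exp_pos _).le
    _ = _ := by ring

theorem W_K {ι ι' : Type} (hgm : ∀ u, Measurable (fun ω => g ω u)) (I : Finset ι) (J : Finset ι')
    (x : ι → En n) (z : ι' → En n) (p : ι → ℝ) (q : ι' → ℝ) (d c : ℝ)
    (h : ∀ ω, c ≤ ∑ i ∈ I, ∑ i' ∈ I, ∑ j ∈ J, ∑ j' ∈ J, p i * p i' * q j * q j' *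
        Real.exp (-(‖(e (z j) - e (z j')) - g ω (e (x i) - e (x i'))‖ ^ 2) / (2 * d ^ 2))) :
    c ≤ W I J x z p q (K P g e d) := by
  have hint : ∀ i i' j j', Integrable (fun ω => p i * p i' * q j * q j' *
        Real.exp (-(‖(e (z j) - e (z j')) - g ω (e (x i) - e (x i'))‖ ^ 2) / (2 * d ^ 2))) P :=
    fun i i' j j' => (integrable' hgm _ (by positivity) _ _).const_mul _
  have h1 : c ≤ ∫ ω, ∑ i ∈ I, ∑ i' ∈ I, ∑ j ∈ J, ∑ j' ∈ J, p i * p i' * q j * q j' *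
        Real.exp (-(‖(e (z j) - e (z j')) - g ω (e (x i) - e (x i'))‖ ^ 2) / (2 * d ^ 2)) ∂P := by
    calc c = ∫ _ω : Ω, c ∂P := by simp
      _ ≤ _ := by
        refine integral_mono (integrable_const c) ?_ h
        exact integrable_finsetSum _ fun i _ => integrable_finsetSum _ fun i' _ =>
          integrable_finsetSum _ fun j _ => integrable_finsetSum _ fun j' _ => hint i i' j j'
  refine h1.trans (le_of_eq ?_)
  unfold W
  rw [integral_finsetSum _ fun i _ => integrable_finsetSum _ fun i' _ =>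
          integrable_finsetSum _ fun j _ => integrable_finsetSum _ fun j' _ => hint i i' j j']
  refine Finset.sum_congr rfl fun i _ => ?_
  rw [integral_finsetSum _ fun i' _ =>
          integrable_finsetSum _ fun j _ => integrable_finsetSum _ fun j' _ => hint i i' j j']
  refine Finset.sum_congr rfl fun i' _ => ?_
  rw [integral_finsetSum _ fun j _ => integrable_finsetSum _ fun j' _ => hint i i' j j']
  refine Finset.sum_congr rfl fun j _ => ?_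
  rw [integral_finsetSum _ fun j' _ => hint i i' j j']
  refine Finset.sum_congr rfl fun j' _ => ?_
  rw [integral_const_mul]
  unfold K
  simp only [map_sub]

end kernel

/-! ## slices -/

section slices

variable {n : ℕ} {ι ι' : Type} {I : Finset ι} {J : Finset ι'} {X : ι → En n} {Z : ι' → En n}
  {p : ι → ℝ} {q : ι' → ℝ} {A s ρ : ℝ}

theorem far_slice (h0 : GaussSumSt) (s : ℝ) (hs : 0 ≤ s) : ∃ C : ℝ, 0 < C ∧
    ∀ (n : ℕ) (ι ι' : Type) (I : Finset ι) (J : Finset ι') (X : ι → En n) (Z : ι' → En n)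
      (p : ι → ℝ) (q : ι' → ℝ) (A ρ d : ℝ), 0 ≤ A → Fro I X p A s ρ → Fro J Z q A s ρ →
      0 < d → ρ ≤ d →
      ∑ i ∈ I, ∑ j ∈ J, p i * q j *
        (if 4 * ‖X i‖ < ‖Z j‖ then Real.exp (-((‖Z j‖ / d) ^ 2) / 8) else 0) ≤
        C * A ^ 2 * (d ^ s * d ^ s) := by
  obtain ⟨C1, hC1, h1⟩ := poly_exp s
  obtain ⟨C2, hC2, h2⟩ := h0 s (1 / 16) hs (by norm_num)
  refine ⟨C1 * C2, by positivity, ?_⟩
  intro n ι ι' I J X Z p q A ρ d hA hX hZ hd hρ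
  rw [Finset.sum_comm]
  have h3 : ∀ j ∈ J, ∑ i ∈ I, p i * q j *
        (if 4 * ‖X i‖ < ‖Z j‖ then Real.exp (-((‖Z j‖ / d) ^ 2) / 8) else 0) ≤
        (C1 * A * d ^ s) * (q j * Real.exp (-(1 / 16 * (‖Z j - 0‖ / d) ^ 2))) := by
    intro j hj
    set y := ‖Z j‖ / d with hy
    have hy0 : 0 ≤ y := by positivity
    have h4 : ∑ i ∈ I, p i * q j * (if 4 * ‖X i‖ < ‖Z j‖ then Real.exp (-(y ^ 2) / 8) else 0) =
        q j * Real.exp (-(y ^ 2) / 8) * ∑ i ∈ I with 4 * ‖X i‖ < ‖Z j‖, p i := by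
      rw [Finset.sum_filter, Finset.mul_sum]
      refine Finset.sum_congr rfl fun i _ => ?_
      split_ifs <;> ring
    have h5 : ∑ i ∈ I with 4 * ‖X i‖ < ‖Z j‖, p i ≤ A * (d ^ s * (y + 1) ^ s) := by
      have h6 : ∑ i ∈ I with 4 * ‖X i‖ < ‖Z j‖, p i ≤ ∑ i ∈ I with ‖X i - 0‖ ≤ ‖Z j‖ + d, p i := by
        apply Finset.sum_le_sum_of_subset_of_nonneg
        · intro i hi
          rw [Finset.mem_filter] at hi ⊢
          refine ⟨hi.1, ?_⟩
          rw [sub_zero]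
          have := norm_nonneg (X i)
          linarith [hi.2]
        · intro i hi _
          exact hX.1 i (Finset.mem_filter.1 hi).1
      have h7 := hX.2 0 (‖Z j‖ + d) (by have := norm_nonneg (Z j); linarith)
      have h8 : (‖Z j‖ + d) ^ s = d ^ s * (y + 1) ^ s := by
        rw [← Real.mul_rpow hd.le (by positivity)]
        congr 1
        rw [hy]; field_simp
      rw [h8] at h7
      exact h6.trans h7
    rw [h4]
    have hq : 0 ≤ q j := hZ.1 j hj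
    calc q j * Real.exp (-(y ^ 2) / 8) * ∑ i ∈ I with 4 * ‖X i‖ < ‖Z j‖, p i
        ≤ q j * Real.exp (-(y ^ 2) / 8) * (A * (d ^ s * (y + 1) ^ s)) :=
          mul_le_mul_of_nonneg_left h5 (by positivity)
      _ = (q j * A * d ^ s) * (Real.exp (-(y ^ 2) / 8) * (y + 1) ^ s) := by ring
      _ ≤ (q j * A * d ^ s) * (C1 * Real.exp (-(1 / 16 * y ^ 2))) :=
          mul_le_mul_of_nonneg_left (h1 y hy0) (by positivity)
      _ = _ := by rw [sub_zero]; ring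
  calc _ ≤ ∑ j ∈ J, (C1 * A * d ^ s) * (q j * Real.exp (-(1 / 16 * (‖Z j - 0‖ / d) ^ 2))) :=
        Finset.sum_le_sum h3
    _ = (C1 * A * d ^ s) * ∑ j ∈ J, q j * Real.exp (-(1 / 16 * (‖Z j - 0‖ / d) ^ 2)) := by
        rw [Finset.mul_sum]
    _ ≤ (C1 * A * d ^ s) * (C2 * A * d ^ s) :=
        mul_le_mul_of_nonneg_left (h2 (En n) ι' J Z q A ρ d 0 hZ hA hd hρ) (by positivity)
    _ = _ := by ring

theorem tiny_slice (hA : 0 ≤ A) (hX : Fro I X p A s ρ) (hZ : Fro J Z q A s ρ) {d : ℝ} (hd : 0 < d)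
    (hρ : ρ ≤ d) :
    ∑ i ∈ I, ∑ j ∈ J, p i * q j * (if ‖X i‖ ≤ 16 * d ∧ ‖Z j‖ ≤ 64 * d then 1 else 0) ≤
      16 ^ s * 64 ^ s * A ^ 2 * (d ^ s * d ^ s) := by
  have h1 : ∑ i ∈ I, ∑ j ∈ J, p i * q j * (if ‖X i‖ ≤ 16 * d ∧ ‖Z j‖ ≤ 64 * d then 1 else 0) =
      (∑ i ∈ I with ‖X i - 0‖ ≤ 16 * d, p i) * (∑ j ∈ J with ‖Z j - 0‖ ≤ 64 * d, q j) := by
    rw [Finset.sum_filter, Finset.sum_filter, Finset.sum_mul_sum]
    refine Finset.sum_congr rfl fun i _ => Finset.sum_congr rfl fun j _ => ?_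
    rw [sub_zero, sub_zero]
    by_cases ha : ‖X i‖ ≤ 16 * d <;> by_cases hb : ‖Z j‖ ≤ 64 * d <;> simp [ha, hb]
  have h2 := hX.2 0 (16 * d) (by linarith)
  have h3 := hZ.2 0 (64 * d) (by linarith)
  rw [Real.mul_rpow (by norm_num) hd.le] at h2 h3
  rw [h1]
  have h4 : 0 ≤ ∑ j ∈ J with ‖Z j - 0‖ ≤ 64 * d, q j :=
    Finset.sum_nonneg fun j hj => hZ.1 j (Finset.mem_filter.1 hj).1
  calc _ ≤ (A * (16 ^ s * d ^ s)) * (A * (64 ^ s * d ^ s)) :=
        mul_le_mul h2 h3 h4 (by positivity)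
    _ = _ := by ring

theorem Phi_smul (κ : ℝ) {r : ℝ} (hr : 0 ≤ r) (u v : En n) :
    Phi κ (r • u) (r • v) = r ^ 2 * Phi κ u v := by
  unfold Phi
  rw [inner_smul_left, inner_smul_right, norm_smul, norm_smul, Real.norm_of_nonneg hr]
  simp only [conj_trivial]
  ring

theorem shell_slice (h3 : ConeSt) (n : ℕ) (κ s A : ℝ) (hκ : |κ| ≤ 1)
    (hs : ((n : ℝ) + 1) / 2 + 3 ≤ s) (hA : 0 ≤ A) : ∃ C : ℝ, 0 < C ∧
    ∀ (ι ι' : Type) (I : Finset ι) (J : Finset ι') (X : ι → En n) (Z : ι' → En n)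
      (p : ι → ℝ) (q : ι' → ℝ) (ρ d r : ℝ), 0 < ρ → Fro I X p A s ρ → Fro J Z q A s ρ →
      0 < d → 8 * d ≤ r → r ≤ 1 → ρ ≤ d ^ 2 →
      ∑ i ∈ I, ∑ j ∈ J, p i * q j *
        (if r ≤ ‖X i‖ ∧ ‖X i‖ ≤ 2 * r ∧ ‖Z j‖ ≤ 8 * r then
          Real.exp (-(Phi κ (X i) (Z j)) ^ 2 / (64 * r ^ 2 * d ^ 2)) else 0) ≤
        C * (d / r) * (r ^ s * r ^ s) := by
  obtain ⟨C, hC, h⟩ := h3 n κ s A 8 hκ hs hA (by norm_num)
  refine ⟨C * Real.sqrt 32, by positivity, ?_⟩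
  intro ι ι' I J X Z p q ρ d r hρ hX hZ hd hdr hr1 hρd
  have hr : 0 < r := by linarith
  set d' := Real.sqrt 32 * (d / r) with hd'
  have hd'0 : 0 < d' := by positivity
  have hd'2 : d' ^ 2 = 32 * (d / r) ^ 2 := by
    rw [hd', mul_pow, Real.sq_sqrt (by norm_num)]
  have hdr8 : d / r ≤ 1 / 8 := by
    rw [div_le_div_iff₀ hr (by norm_num)]; linarith
  have hd'1 : d' ≤ 1 := by
    have h1 : d' ^ 2 ≤ 1 := by
      rw [hd'2]
      have : 0 < d / r := by positivity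
      nlinarith
    nlinarith
  set I' := I.filter (fun i => ‖X i‖ ≤ 2 * r) with hI'
  set J' := J.filter (fun j => ‖Z j‖ ≤ 8 * r) with hJ'
  have hX' := (hX.subset (Finset.filter_subset (fun i => ‖X i‖ ≤ 2 * r) I)).scale hr hρ.le
  have hZ' := (hZ.subset (Finset.filter_subset (fun j => ‖Z j‖ ≤ 8 * r) J)).scale hr hρ.le
  have hn : ∀ (v : En n), ‖r⁻¹ • v‖ = ‖v‖ / r := by
    intro v
    rw [norm_smul, Real.norm_of_nonneg (inv_nonneg.2 hr.le)]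
    field_simp
  have hb1 : ∀ i ∈ I', ‖r⁻¹ • X i‖ ≤ 8 := by
    intro i hi
    rw [hn, div_le_iff₀ hr]
    have := (Finset.mem_filter.1 hi).2
    linarith
  have hb2 : ∀ j ∈ J', ‖r⁻¹ • Z j‖ ≤ 8 := by
    intro j hj
    rw [hn, div_le_iff₀ hr]
    exact (Finset.mem_filter.1 hj).2
  have hρr : ρ / r ≤ d' ^ 2 := by
    rw [hd'2, div_pow, div_le_iff₀ hr]
    have h1 : 32 * (d ^ 2 / r ^ 2) * r = 32 * d ^ 2 / r := by field_simp
    rw [h1, le_div_iff₀ hr]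
    nlinarith [mul_pos hd hd]
  have h4 := (h ι ι' I' J' (fun i => r⁻¹ • X i) (fun j => r⁻¹ • Z j) (fun i => p i / r ^ s)
    (fun j => q j / r ^ s) (ρ / r) d' d' (by positivity) hX' hZ' hb1 hb2 hd'0 le_rfl hd'1 hρr).2
  have hrs : 0 < r ^ s := Real.rpow_pos_of_pos hr s
  have h5 : ∑ i ∈ I', ∑ j ∈ J', p i * q j *
      Real.exp (-(Phi κ (X i) (Z j)) ^ 2 / (64 * r ^ 2 * d ^ 2)) =
      (r ^ s * r ^ s * d') * BB κ I' J' (fun i => r⁻¹ • X i) (fun j => r⁻¹ • Z j)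
        (fun i => p i / r ^ s) (fun j => q j / r ^ s) d' := by
    unfold BB
    rw [Finset.mul_sum]
    refine Finset.sum_congr rfl fun i _ => ?_
    rw [Finset.mul_sum]
    refine Finset.sum_congr rfl fun j _ => ?_
    rw [Phi_smul κ (inv_nonneg.2 hr.le)]
    unfold gk
    have h6 : -((r⁻¹ ^ 2 * Phi κ (X i) (Z j)) ^ 2) / (2 * d' ^ 2) =
        -(Phi κ (X i) (Z j)) ^ 2 / (64 * r ^ 2 * d ^ 2) := by
      rw [hd'2]
      field_simp
      ring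
    rw [h6]
    field_simp
  have h7 : ∑ i ∈ I, ∑ j ∈ J, p i * q j *
        (if r ≤ ‖X i‖ ∧ ‖X i‖ ≤ 2 * r ∧ ‖Z j‖ ≤ 8 * r then
          Real.exp (-(Phi κ (X i) (Z j)) ^ 2 / (64 * r ^ 2 * d ^ 2)) else 0) ≤
      ∑ i ∈ I', ∑ j ∈ J', p i * q j *
      Real.exp (-(Phi κ (X i) (Z j)) ^ 2 / (64 * r ^ 2 * d ^ 2)) := by
    rw [hI', Finset.sum_filter]
    refine Finset.sum_le_sum fun i hi => ?_
    have hp := hX.1 i hi
    split_ifs with ha
    · rw [hJ', Finset.sum_filter]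
      refine Finset.sum_le_sum fun j hj => ?_
      have hq := hZ.1 j hj
      by_cases hb : ‖Z j‖ ≤ 8 * r
      · rw [if_pos hb]
        refine mul_le_mul_of_nonneg_left ?_ (mul_nonneg hp hq)
        split_ifs
        · exact le_rfl
        · exact (Real.exp_pos _).le
      · rw [if_neg hb, if_neg (fun hc => hb hc.2.2)]
        simp
    · refine le_of_eq (Finset.sum_eq_zero fun j _ => ?_)
      rw [if_neg (fun hc => ha hc.2.1)]
      simp
  refine h7.trans ?_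
  rw [h5]
  calc (r ^ s * r ^ s * d') * BB κ I' J' (fun i => r⁻¹ • X i) (fun j => r⁻¹ • Z j)
        (fun i => p i / r ^ s) (fun j => q j / r ^ s) d' ≤ (r ^ s * r ^ s * d') * C :=
        mul_le_mul_of_nonneg_left h4 (by positivity)
    _ = _ := by rw [hd']; ring

end slices

/-! ## assembly -/

theorem relax {Cg d a b t φ : ℝ} {M : ℕ} (hCg : 0 ≤ Cg) (hd : 0 < d) (ha : 0 < a) (hat : a ≤ t)
    (htb : t ≤ b) :
    Cg * (d / t) ^ M * Real.exp (-φ ^ 2 / (16 * t ^ 2 * d ^ 2)) ≤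
      Cg * (d / a) ^ M * Real.exp (-φ ^ 2 / (16 * b ^ 2 * d ^ 2)) := by
  have ht : 0 < t := ha.trans_le hat
  have h1 : (d / t) ^ M ≤ (d / a) ^ M :=
    pow_le_pow_left₀ (by positivity) (div_le_div_of_nonneg_left hd.le ha hat) M
  have h2 : Real.exp (-φ ^ 2 / (16 * t ^ 2 * d ^ 2)) ≤ Real.exp (-φ ^ 2 / (16 * b ^ 2 * d ^ 2)) := by
    apply Real.exp_le_exp.2
    rw [neg_div, neg_div]
    apply neg_le_neg
    apply div_le_div_of_nonneg_left (sq_nonneg _) (by positivity)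
    have : t ^ 2 ≤ b ^ 2 := pow_le_pow_left₀ ht.le htb 2
    have h3 : 0 < d ^ 2 := by positivity
    nlinarith
  exact mul_le_mul (mul_le_mul_of_nonneg_left h1 hCg) h2 (Real.exp_pos _).le (by positivity)

theorem sum_half (r : ℝ) (hr : 0 ≤ r) (K : ℕ) :
    ∑ k ∈ Finset.range K, r / 2 ^ (k + 1) ≤ r := by
  have h : ∀ K : ℕ, ∑ k ∈ Finset.range K, r / 2 ^ (k + 1) = r - r / 2 ^ K := by
    intro K
    induction K with
    | zero => simp
    | succ K ih =>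
      rw [Finset.sum_range_succ, ih]
      have : (2 : ℝ) ^ K ≠ 0 := by positivity
      field_simp
      ring
  rw [h K]
  have : 0 ≤ r / 2 ^ K := by positivity
  linarith

theorem rpow_two_le {r s : ℝ} {M : ℕ} (hr : 0 < r) (hr1 : r ≤ 1) (hs : (M : ℝ) ≤ 2 * s) :
    r ^ s * r ^ s ≤ r ^ M := by
  rw [← Real.rpow_add hr, ← Real.rpow_natCast]
  exact Real.rpow_le_rpow_of_exponent_ge hr hr1 (by linarith)

theorem four_point_pos_of (h0 : GaussSumSt) (h3 : ConeSt) (h4 : RandMapSt) (h5 : GaussLowerSt)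
    (n : ℕ) (θ s A R : ℝ) (hθ : 0 < θ) (hθπ : θ < Real.pi)
    (hs : ((n : ℝ) + 1) / 2 + 3 ≤ s) (hA : 0 < A) (hR : 1 ≤ R) :
    ∃ c₀ r₀ δ₀ : ℝ, 0 < c₀ ∧ 0 < r₀ ∧ 0 < δ₀ ∧ ∀ δ : ℝ, 0 < δ → δ ≤ δ₀ →
      ∃ ρ₀ : ℝ, 0 < ρ₀ ∧ ∀ (ι ι' : Type) (I : Finset ι) (J : Finset ι') (x : ι → En n)
        (z : ι' → En n) (p : ι → ℝ) (q : ι' → ℝ) (ρ : ℝ), 0 < ρ → ρ ≤ ρ₀ →
        Fro I x p A s ρ → Fro J z q A s ρ → (∀ i ∈ I, ‖x i‖ ≤ R) → (∀ j ∈ J, ‖z j‖ ≤ R) →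
        ∑ i ∈ I, p i = 1 → ∑ j ∈ J, q j = 1 →
        c₀ ≤ ∑ i ∈ I, ∑ i' ∈ I, ∑ j ∈ J, ∑ j' ∈ J, p i * p i' * q j * q j' *
          (if r₀ ≤ ‖x i - x i'‖ ∧ r₀ ≤ ‖z j - z j'‖ then
            gk δ (Phi (Real.cos θ) (x i - x i') (z j - z j')) else 0) := by
  have hn0 : (0 : ℝ) ≤ n := Nat.cast_nonneg n
  have hs0 : 0 ≤ s := by linarith
  obtain ⟨m, hm⟩ : ∃ m : ℕ, m = n / 2 + 1 := ⟨_, rfl⟩
  have hm1 : 1 ≤ m := by omega
  have hnN : n ≤ 2 * m := by omega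
  have hNn : 2 * m ≤ n + 2 := by omega
  obtain ⟨M, hM⟩ : ∃ M : ℕ, 2 * m = M + 1 := ⟨2 * m - 1, by omega⟩
  have hM' : 2 * m - 1 = M := by omega
  have hMn : (M : ℝ) + 2 ≤ 2 * s := by
    have h1 : M ≤ n + 1 := by omega
    have h2 : (M : ℝ) ≤ (n : ℝ) + 1 := by exact_mod_cast h1
    linarith
  obtain ⟨e⟩ := exists_isom hnN
  set κ := Real.cos θ with hκdef
  have hκ : |κ| ≤ 1 := Real.abs_cos_le_one θ
  obtain ⟨Ω, _, P, _, g, Cg, hCg, hgm, hg1, hg2, hgi, hgK⟩ := h4 m hm1 θ hθ hθπ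
  obtain ⟨c1, hc1, hlow⟩ := h5 (2 * m) R hR
  obtain ⟨Cf, hCf, hfar⟩ := far_slice h0 s hs0
  obtain ⟨Cs, hCs, hshell⟩ := shell_slice h3 n κ s A hκ hs hA.le
  rw [hM'] at hgK
  -- choice of r1
  obtain ⟨r1, hr1, hr11, hr1c⟩ : ∃ r1 : ℝ, 0 < r1 ∧ r1 ≤ 1 ∧ Cg * Cs * r1 ≤ c1 / 8 := by
    refine ⟨min 1 (c1 / 8 / (Cg * Cs)), by positivity, min_le_left _ _, ?_⟩
    calc Cg * Cs * min 1 (c1 / 8 / (Cg * Cs)) ≤ Cg * Cs * (c1 / 8 / (Cg * Cs)) :=
          mul_le_mul_of_nonneg_left (min_le_right _ _) (by positivity)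
      _ = c1 / 8 := by field_simp
  obtain ⟨dE, hdE, hexp⟩ := exp_small (2 * m) (by omega) r1 hr1 (c1 / 8) (by positivity)
  set Cb := (Cf + 16 ^ s * 64 ^ s) * A ^ 2 with hCb
  have hCb0 : 0 < Cb := by positivity
  obtain ⟨d0, hd0, hd01, hd0r, hd0E, hd0b⟩ : ∃ d0 : ℝ, 0 < d0 ∧ d0 ≤ 1 ∧ d0 ≤ r1 ∧ d0 ≤ dE ∧
      Cb * d0 ≤ c1 / 8 := by
    refine ⟨min (min 1 r1) (min dE (c1 / 8 / Cb)), by positivity,
      (min_le_left _ _).trans (min_le_left _ _), (min_le_left _ _).trans (min_le_right _ _),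
      (min_le_right _ _).trans (min_le_left _ _), ?_⟩
    calc Cb * min (min 1 r1) (min dE (c1 / 8 / Cb)) ≤ Cb * (c1 / 8 / Cb) :=
          mul_le_mul_of_nonneg_left ((min_le_right _ _).trans (min_le_right _ _)) hCb0.le
      _ = c1 / 8 := by field_simp
  have hq32 : 0 < Real.sqrt 32 := by positivity
  have hR0 : 0 < R := by linarith
  refine ⟨c1 * r1 ^ M / (2 * Cg * (Real.sqrt 32 * R)), r1 / 2, Real.sqrt 32 * R * d0,
    by positivity, by positivity, by positivity, ?_⟩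
  intro δ hδ hδ0
  obtain ⟨d, hdδ⟩ : ∃ d : ℝ, δ = Real.sqrt 32 * R * d :=
    ⟨δ / (Real.sqrt 32 * R), by field_simp⟩
  have hd : 0 < d := by
    by_contra hcon
    have : Real.sqrt 32 * R * d ≤ 0 := mul_nonpos_of_nonneg_of_nonpos (by positivity) (by linarith)
    linarith
  have hdd0 : d ≤ d0 := by
    rw [hdδ] at hδ0
    exact le_of_mul_le_mul_left hδ0 (by positivity)
  have hd1 : d ≤ 1 := hdd0.trans hd01
  have hdr1 : d ≤ r1 := hdd0.trans hd0r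
  have hexp' := hexp d hd (hdd0.trans hd0E) hd1
  have hdb : Cb * d ≤ c1 / 8 := (mul_le_mul_of_nonneg_left hdd0 hCb0.le).trans hd0b
  refine ⟨d ^ 2, by positivity, ?_⟩
  intro ι ι' I J x z p q ρ hρ hρ0 hx hz hxR hzR hp1 hq1
  have hρd : ρ ≤ d := hρ0.trans (by nlinarith)
  have hp := hx.1
  have hq := hz.1
  obtain ⟨K0, hK0⟩ : ∃ K0 : ℕ, 1 / d < (2 : ℝ) ^ K0 := pow_unbounded_of_one_lt _ (by norm_num)
  -- the functions
  set F1 : En n → En n → ℝ := fun u v =>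
    (if 4 * ‖u‖ < ‖v‖ then Real.exp (-((‖v‖ / d) ^ 2) / 8) else 0) with hF1
  set F2 : En n → En n → ℝ := fun u v =>
    (if ‖u‖ ≤ 16 * d ∧ ‖v‖ ≤ 64 * d then 1 else 0) with hF2
  set rr : ℕ → ℝ := fun k => r1 / 2 ^ (k + 1) with hrr
  set G3 : ℕ → En n → En n → ℝ := fun k u v =>
    (if rr k ≤ ‖u‖ ∧ ‖u‖ ≤ 2 * rr k ∧ ‖v‖ ≤ 8 * rr k then
          Real.exp (-(Phi κ u v) ^ 2 / (64 * rr k ^ 2 * d ^ 2)) else 0) with hG3
  set w3 : ℕ → ℝ := fun k => if 8 * d ≤ rr k then Cg * (d / rr k) ^ M else 0 with hw3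
  set F4 : ℝ := Real.exp (-(r1 ^ 2) / (8 * d ^ 2)) with hF4
  set T : En n → En n → ℝ := fun u v =>
    (if r1 / 2 ≤ ‖u‖ ∧ r1 / 2 ≤ ‖v‖ then gk δ (Phi κ u v) else 0) with hT
  set w5 : ℝ := Cg * (d / r1) ^ M * δ with hw5
  have hrr0 : ∀ k, 0 < rr k := fun k => by rw [hrr]; positivity
  have hrr1 : ∀ k, rr k ≤ 1 := by
    intro k
    have h1 : rr k ≤ r1 := by
      rw [hrr]
      exact div_le_self hr1.le (one_le_pow₀ (by norm_num))
    exact h1.trans hr11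
  have hw30 : ∀ k, 0 ≤ w3 k := by
    intro k
    simp only [hw3]
    have := hrr0 k
    split_ifs
    · positivity
    · exact le_rfl
  have hw50 : 0 < w5 := by rw [hw5]; positivity
  have hG30 : ∀ k u v, 0 ≤ G3 k u v := by
    intro k u v
    simp only [hG3]
    split_ifs
    · exact (Real.exp_pos _).le
    · exact le_rfl
  have hT0 : ∀ u v, 0 ≤ T u v := by
    intro u v
    simp only [hT]
    split_ifs
    · exact gk_nonneg hδ _
    · exact le_rfl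
  have hF10 : ∀ u v, 0 ≤ F1 u v := by
    intro u v
    simp only [hF1]
    split_ifs
    · exact (Real.exp_pos _).le
    · exact le_rfl
  have hF20 : ∀ u v, 0 ≤ F2 u v := by
    intro u v
    simp only [hF2]
    split_ifs
    · exact zero_le_one
    · exact le_rfl
  have hF40 : 0 ≤ F4 := (Real.exp_pos _).le
  have hS0 : ∀ u v, 0 ≤ ∑ k ∈ Finset.range K0, w3 k * G3 k u v := fun u v =>
    Finset.sum_nonneg fun k _ => mul_nonneg (hw30 k) (hG30 k u v)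
  -- pointwise bound
  have hpt : ∀ u v : En n, ‖u‖ ≤ 2 * R → K P g e d u v ≤
      F1 u v + (F2 u v + ((∑ k ∈ Finset.range K0, w3 k * G3 k u v) + (F4 + w5 * T u v))) := by
    intro u v huR
    have a1 := hF10 u v
    have a2 := hF20 u v
    have a3 := hS0 u v
    have a5 : 0 ≤ w5 * T u v := mul_nonneg hw50.le (hT0 u v)
    rcases lt_or_ge (4 * ‖u‖) ‖v‖ with hc | hc
    · have h1 := K_far e (P := P) hgm hg2 d u v hc
      have h2 : F1 u v = Real.exp (-((‖v‖ / d) ^ 2) / 8) := by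
        simp only [hF1]; rw [if_pos hc]
      linarith
    rcases le_or_gt ‖u‖ (16 * d) with hc2 | hc2
    · have h1 := K_le_one e (P := P) hgm d u v
      have h2 : F2 u v = 1 := by
        simp only [hF2]; rw [if_pos ⟨hc2, by linarith⟩]
      linarith
    have hu : 0 < ‖u‖ := by linarith
    have hmain := K_main e (P := P) hκ hgm hgi hgK d hd u v (by linarith)
    rcases lt_or_ge ‖u‖ r1 with hc3 | hc3
    · -- shell
      obtain ⟨k, hk1, hk2⟩ := exists_nat_pow_near (x := r1 / ‖u‖) (y := 2)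
        (by rw [le_div_iff₀ hu]; linarith) (by norm_num)
      have hk1' : ‖u‖ ≤ 2 * rr k := by
        rw [le_div_iff₀ hu] at hk1
        have h1 : 2 * rr k = r1 / 2 ^ k := by
          simp only [hrr]; rw [pow_succ]; field_simp
        rw [h1, le_div_iff₀ (by positivity)]
        linarith
      have hk2' : rr k ≤ ‖u‖ := by
        rw [div_lt_iff₀ hu] at hk2
        simp only [hrr]
        rw [div_le_iff₀ (by positivity)]
        linarith
      have hkK : k < K0 := by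
        have h1 : (2 : ℝ) ^ k < 2 ^ K0 := by
          calc (2 : ℝ) ^ k ≤ r1 / ‖u‖ := hk1
            _ ≤ 1 / d := by
              rw [div_le_div_iff₀ hu hd]
              nlinarith
            _ < _ := hK0
        exact (pow_lt_pow_iff_right₀ (by norm_num)).1 h1
      have hk8 : 8 * d ≤ rr k := by linarith
      have h1 := relax (φ := Phi κ u v) (M := M) hCg.le hd (hrr0 k) hk2' hk1'
      have h2 : w3 k * G3 k u v = Cg * (d / rr k) ^ M *
          Real.exp (-(Phi κ u v) ^ 2 / (16 * (2 * rr k) ^ 2 * d ^ 2)) := by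
        simp only [hw3, hG3]
        rw [if_pos hk8, if_pos ⟨hk2', hk1', by linarith⟩]
        congr 3
        ring
      have h3 : w3 k * G3 k u v ≤ ∑ k ∈ Finset.range K0, w3 k * G3 k u v :=
        Finset.single_le_sum (f := fun k => w3 k * G3 k u v)
          (fun k _ => mul_nonneg (hw30 k) (hG30 k u v)) (Finset.mem_range.2 hkK)
      linarith
    · rcases lt_or_ge ‖v‖ (‖u‖ / 2) with hc4 | hc4
      · have h1 := K_small e (P := P) hgm hg1 d r1 u v hc4.le hr1.le hc3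
        linarith
      · have h1 := relax (φ := Phi κ u v) (M := M) hCg.le hd hr1 hc3 huR
        have h2 : w5 * T u v = Cg * (d / r1) ^ M *
          Real.exp (-(Phi κ u v) ^ 2 / (16 * (2 * R) ^ 2 * d ^ 2)) := by
          simp only [hw5, hT]
          rw [if_pos ⟨by linarith, by linarith⟩]
          unfold gk
          have h3 : 2 * δ ^ 2 = 16 * (2 * R) ^ 2 * d ^ 2 := by
            rw [hdδ, mul_pow, mul_pow, Real.sq_sqrt (by norm_num)]
            ring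
          rw [h3]
          field_simp
        linarith
  -- the sums
  have hlowW : c1 * d ^ (2 * m) ≤ W I J x z p q (K P g e d) := by
    apply W_K e hgm
    intro ω
    exact hlow ι ι' I J (fun i => e (x i)) (fun j => e (z j)) p q (g ω) d (hg2 ω) hd hd1 hp hq
      hp1 hq1 (fun i hi => by rw [e.norm_map]; exact hxR i hi)
      (fun j hj => by rw [e.norm_map]; exact hzR j hj)
  have hW1 : W I J x z p q F1 ≤ Cf * A ^ 2 * (d ^ s * d ^ s) := by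
    refine W_le hp hq hp1 hq1 fun i' _ j' _ => ?_
    exact hfar n ι ι' I J (fun i => x i - x i') (fun j => z j - z j') p q A ρ d hA.le
      (hx.sub_const _) (hz.sub_const _) hd hρd
  have hW2 : W I J x z p q F2 ≤ 16 ^ s * 64 ^ s * A ^ 2 * (d ^ s * d ^ s) := by
    refine W_le hp hq hp1 hq1 fun i' _ j' _ => ?_
    exact tiny_slice hA.le (hx.sub_const _) (hz.sub_const _) hd hρd
  have hW3 : ∀ k, W I J x z p q (fun u v => w3 k * G3 k u v) ≤ Cg * Cs * d ^ (2 * m) * rr k := by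
    intro k
    have hrk := hrr0 k
    rw [W_const_mul]
    by_cases hk8 : 8 * d ≤ rr k
    · have h1 : w3 k = Cg * (d / rr k) ^ M := by simp only [hw3]; rw [if_pos hk8]
      have h2 : W I J x z p q (G3 k) ≤ Cs * (d / rr k) * (rr k ^ s * rr k ^ s) := by
        refine W_le hp hq hp1 hq1 fun i' _ j' _ => ?_
        exact hshell ι ι' I J (fun i => x i - x i') (fun j => z j - z j') p q ρ d (rr k) hρ
          (hx.sub_const _) (hz.sub_const _) hd hk8 (hrr1 k) hρ0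
      have h3 : rr k ^ s * rr k ^ s ≤ rr k ^ (M + 2) :=
        rpow_two_le hrk (hrr1 k) (by push_cast; linarith)
      calc w3 k * W I J x z p q (G3 k)
          ≤ (Cg * (d / rr k) ^ M) * (Cs * (d / rr k) * (rr k ^ s * rr k ^ s)) := by
            rw [h1]; exact mul_le_mul_of_nonneg_left h2 (by positivity)
        _ ≤ (Cg * (d / rr k) ^ M) * (Cs * (d / rr k) * rr k ^ (M + 2)) :=
            mul_le_mul_of_nonneg_left (mul_le_mul_of_nonneg_left h3 (by positivity))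
              (by positivity)
        _ = _ := by
            rw [hM, div_pow]
            field_simp
            ring
    · have h1 : w3 k = 0 := by simp only [hw3]; rw [if_neg hk8]
      rw [h1, zero_mul]
      positivity
  have hWS : W I J x z p q (fun u v => ∑ k ∈ Finset.range K0, w3 k * G3 k u v) ≤
      c1 / 8 * d ^ (2 * m) := by
    rw [W_sum]
    calc _ ≤ ∑ k ∈ Finset.range K0, Cg * Cs * d ^ (2 * m) * rr k :=
          Finset.sum_le_sum fun k _ => hW3 k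
      _ = Cg * Cs * d ^ (2 * m) * ∑ k ∈ Finset.range K0, rr k := by rw [Finset.mul_sum]
      _ ≤ Cg * Cs * d ^ (2 * m) * r1 :=
          mul_le_mul_of_nonneg_left (sum_half r1 hr1.le K0) (by positivity)
      _ = (Cg * Cs * r1) * d ^ (2 * m) := by ring
      _ ≤ _ := mul_le_mul_of_nonneg_right hr1c (by positivity)
  have hW4 : W I J x z p q (fun _ _ => F4) ≤ c1 / 8 * d ^ (2 * m) :=
    (W_const_le hp hq hp1 hq1 F4).trans hexp'
  have hW12 : Cf * A ^ 2 * (d ^ s * d ^ s) + 16 ^ s * 64 ^ s * A ^ 2 * (d ^ s * d ^ s) ≤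
      c1 / 8 * d ^ (2 * m) := by
    have h1 : d ^ s * d ^ s ≤ d ^ (M + 2) := rpow_two_le hd hd1 (by push_cast; linarith)
    calc _ = Cb * (d ^ s * d ^ s) := by rw [hCb]; ring
      _ ≤ Cb * d ^ (M + 2) := mul_le_mul_of_nonneg_left h1 hCb0.le
      _ = (Cb * d) * d ^ (2 * m) := by rw [hM]; ring
      _ ≤ _ := mul_le_mul_of_nonneg_right hdb (by positivity)
  have hWK : W I J x z p q (K P g e d) ≤ W I J x z p q F1 + (W I J x z p q F2 +
      (W I J x z p q (fun u v => ∑ k ∈ Finset.range K0, w3 k * G3 k u v) +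
        (W I J x z p q (fun _ _ => F4) + w5 * W I J x z p q T))) := by
    rw [← W_const_mul, ← W_add, ← W_add, ← W_add, ← W_add]
    refine W_mono hp hq fun i hi i' hi' j hj j' hj' => hpt _ _ ?_
    calc ‖x i - x i'‖ ≤ ‖x i‖ + ‖x i'‖ := norm_sub_le _ _
      _ ≤ 2 * R := by linarith [hxR i hi, hxR i' hi']
  have hdN : 0 < d ^ (2 * m) := by positivity
  have hfin : c1 / 2 * d ^ (2 * m) ≤ w5 * W I J x z p q T := by
    have := mul_pos hc1 hdN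
    linarith
  have hfin2 : w5 * (c1 * r1 ^ M / (2 * Cg * (Real.sqrt 32 * R))) ≤ w5 * W I J x z p q T := by
    refine le_trans (le_of_eq ?_) hfin
    rw [hw5, hdδ, hM, div_pow]
    field_simp
    ring
  exact le_of_mul_le_mul_left hfin2 hw50

end M6
end
end Pool.Agent.H47A
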