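import Pool.Agent.Helper47_Angle.GaussSum
set_option autoImplicit false
namespace Pool.Agent.H47A
open scoped BigOperators Classical ENNReal
open MeasureTheory
noncomputable section

namespace Osc

/-- trigonometric sum -/
def T {N : ℕ} {ι : Type} (I : Finset ι) (X : ι → En N) (p : ι → ℝ) (ζ : En N) : ℂ :=
  ∑ i ∈ I, (p i : ℂ) * Complex.exp (Complex.I * ((inner ℝ (X i) ζ : ℝ) : ℂ))

theorem integrable_gauss {N : ℕ} (b : ℝ) (hb : 0 < b) :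
    Integrable (fun v : En N => Real.exp (-(b * ‖v‖ ^ 2))) := by
  have h := (GaussianFourier.integrable_cexp_neg_mul_sq_norm_add (V := En N) (b := (b : ℂ))
    (by simpa using hb) 0 0).norm
  refine h.congr (Filter.Eventually.of_forall fun v => ?_)
  simp only [zero_mul, add_zero]
  rw [Complex.norm_exp]
  congr 1
  have : (-(b : ℂ) * (‖v‖ : ℂ) ^ 2) = ((-(b * ‖v‖ ^ 2) : ℝ) : ℂ) := by push_cast; ring
  rw [this, Complex.ofReal_re]

theorem integral_gauss_osc {N : ℕ} (b : ℝ) (hb : 0 < b) (w : En N) :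
    ∫ v : En N, ((Real.exp (-(b * ‖v‖ ^ 2)) : ℝ) : ℂ) *
      Complex.exp (Complex.I * ((inner ℝ w v : ℝ) : ℂ))
      = (((Real.pi / b) ^ ((N : ℝ) / 2) * Real.exp (-(‖w‖ ^ 2 / (4 * b))) : ℝ) : ℂ) := by
  have h := GaussianFourier.integral_cexp_neg_mul_sq_norm_add (V := En N) (b := (b : ℂ))
    (by simpa using hb) Complex.I w
  have e1 : (fun v : En N => ((Real.exp (-(b * ‖v‖ ^ 2)) : ℝ) : ℂ) *
      Complex.exp (Complex.I * ((inner ℝ w v : ℝ) : ℂ)))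
      = fun v : En N => Complex.exp (-(b : ℂ) * (‖v‖ : ℂ) ^ 2 +
        Complex.I * ((inner ℝ w v : ℝ) : ℂ)) := by
    funext v
    rw [Complex.exp_add, Complex.ofReal_exp]
    congr 2
    push_cast; ring
  rw [e1, h]
  have hN : (Module.finrank ℝ (En N) : ℂ) = (N : ℂ) := by simp
  rw [hN]
  have hpos : 0 ≤ Real.pi / b := by positivity
  have e2 : ((Real.pi : ℂ) / (b : ℂ)) ^ ((N : ℂ) / 2) = (((Real.pi / b) ^ ((N : ℝ) / 2) : ℝ) : ℂ) := by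
    rw [Complex.ofReal_cpow hpos]
    push_cast
    rfl
  rw [e2]
  push_cast
  congr 2
  rw [Complex.I_sq]
  field_simp

theorem integral_gauss {N : ℕ} (b : ℝ) (hb : 0 < b) :
    ∫ v : En N, Real.exp (-(b * ‖v‖ ^ 2)) = (Real.pi / b) ^ ((N : ℝ) / 2) := by
  have h := integral_gauss_osc b hb (0 : En N)
  simp only [inner_zero_left, Complex.ofReal_zero, mul_zero, Complex.exp_zero, mul_one, norm_zero,
    ne_eq, OfNat.ofNat_ne_zero, not_false_eq_true, zero_pow, zero_div, neg_zero,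
    Real.exp_zero] at h
  rw [integral_complex_ofReal] at h
  exact_mod_cast h

theorem T_continuous {N : ℕ} {ι : Type} (I : Finset ι) (X : ι → En N) (p : ι → ℝ) :
    Continuous (T I X p) := by
  unfold T
  fun_prop

theorem T_norm_le {N : ℕ} {ι : Type} (I : Finset ι) (X : ι → En N) (p : ι → ℝ) (ζ : En N) :
    ‖T I X p ζ‖ ≤ ∑ i ∈ I, |p i| := by
  unfold T
  refine (norm_sum_le _ _).trans (Finset.sum_le_sum fun i _ => ?_)
  rw [norm_mul, mul_comm Complex.I, Complex.norm_exp_ofReal_mul_I, mul_one]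
  simp

/-- Cauchy-Schwarz with a weight -/
theorem cs_weight {α : Type} [MeasurableSpace α] (μ : Measure α) (w h : α → ℝ)
    (hw : ∀ x, 0 ≤ w x) (i0 : Integrable w μ) (i1 : Integrable (fun x => w x * h x) μ)
    (i2 : Integrable (fun x => w x * h x ^ 2) μ) :
    (∫ x, w x * h x ∂μ) ^ 2 ≤ (∫ x, w x ∂μ) * ∫ x, w x * h x ^ 2 ∂μ := by
  set W := ∫ x, w x ∂μ with hW
  set P := ∫ x, w x * h x ∂μ with hP
  set Q := ∫ x, w x * h x ^ 2 ∂μ with hQ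
  have key : ∀ c : ℝ, 0 ≤ Q - 2 * c * P + c ^ 2 * W := by
    intro c
    have h1 : 0 ≤ ∫ x, w x * (h x - c) ^ 2 ∂μ :=
      integral_nonneg (fun x => mul_nonneg (hw x) (sq_nonneg _))
    have h2 : ∫ x, w x * (h x - c) ^ 2 ∂μ = Q - 2 * c * P + c ^ 2 * W := by
      have : (fun x => w x * (h x - c) ^ 2)
          = fun x => (w x * h x ^ 2 - (2 * c) * (w x * h x)) + c ^ 2 * w x := by
        funext x; ring
      have i3 : Integrable (fun x => w x * h x ^ 2 - (2 * c) * (w x * h x)) μ :=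
        i2.sub (i1.const_mul _)
      have i4 : Integrable (fun x => c ^ 2 * w x) μ := i0.const_mul _
      have i5 : Integrable (fun x => (2 * c) * (w x * h x)) μ := i1.const_mul _
      rw [this, integral_add i3 i4, integral_sub i2 i5, integral_const_mul, integral_const_mul]
    rwa [h2] at h1
  have hW0 : 0 ≤ W := integral_nonneg hw
  rcases hW0.eq_or_lt with h0 | h0
  · have hQ0 : 0 ≤ Q := by simpa using key 0
    by_contra hcon
    push Not at hcon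
    have hP2 : 0 < P ^ 2 := lt_of_le_of_lt (mul_nonneg hW0 hQ0) hcon
    have := key ((Q + 1) / P)
    have hPne : P ≠ 0 := by
      intro hh; rw [hh] at hP2; simp at hP2
    rw [← h0] at this
    have e : 2 * ((Q + 1) / P) * P = 2 * (Q + 1) := by field_simp
    nlinarith
  · have := key (P / W)
    have e1 : 2 * (P / W) * P = 2 * P ^ 2 / W := by ring
    have e2 : (P / W) ^ 2 * W = P ^ 2 / W := by field_simp
    rw [e1, e2] at this
    have h3 : P ^ 2 / W ≤ Q := by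
      have : 2 * P ^ 2 / W = 2 * (P ^ 2 / W) := by ring
      linarith
    rw [div_le_iff₀ h0] at h3
    linarith

theorem integrable_gauss_mul {N : ℕ} (b : ℝ) (hb : 0 < b) (f : En N → ℝ) (hf : Continuous f)
    (M : ℝ) (hM : ∀ v, |f v| ≤ M) :
    Integrable (fun v : En N => Real.exp (-(b * ‖v‖ ^ 2)) * f v) := by
  refine Integrable.mono' ((integrable_gauss b hb).mul_const M) ?_ ?_
  · apply Continuous.aestronglyMeasurable
    fun_prop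
  · refine Filter.Eventually.of_forall fun v => ?_
    rw [norm_mul, Real.norm_eq_abs, Real.norm_eq_abs, abs_of_pos (Real.exp_pos _)]
    exact mul_le_mul_of_nonneg_left (hM v) (Real.exp_pos _).le

/-- Step A -/
theorem stepA {N : ℕ} {ι : Type} (I : Finset ι) (X : ι → En N) (p : ι → ℝ) (ξ : En N) :
    ‖T I X p ξ‖ ^ 2 ≤ ((2 * Real.pi) ^ ((N : ℝ) / 2))⁻¹ *
      ∫ ζ : En N, Real.exp (-((1 / 2) * ‖ξ - ζ‖ ^ 2)) *
        ‖T I X (fun i => p i * Real.exp (‖X i‖ ^ 2 / 2)) ζ‖ ^ 2 := by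
  set p' : ι → ℝ := fun i => p i * Real.exp (‖X i‖ ^ 2 / 2) with hp'
  set G := T I X p' with hG
  set M := ∑ i ∈ I, |p' i| with hM
  have hGM : ∀ v, ‖G v‖ ≤ M := T_norm_le I X p'
  have hGc : Continuous G := T_continuous I X p'
  have h2π : (Real.pi / (1 / 2) : ℝ) = 2 * Real.pi := by ring
  -- change of variables
  have hcv : ∫ ζ : En N, Real.exp (-((1 / 2) * ‖ξ - ζ‖ ^ 2)) * ‖G ζ‖ ^ 2
      = ∫ v : En N, Real.exp (-((1 / 2) * ‖v‖ ^ 2)) * ‖G (ξ - v)‖ ^ 2 := by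
    rw [← integral_sub_left_eq_self (fun v => Real.exp (-((1 / 2) * ‖v‖ ^ 2)) * ‖G (ξ - v)‖ ^ 2)
      (volume : Measure (En N)) ξ]
    simp
  rw [hcv]
  have hrep : ∫ v : En N, ((Real.exp (-((1 / 2) * ‖v‖ ^ 2)) : ℝ) : ℂ) * G (ξ - v)
      = (((2 * Real.pi) ^ ((N : ℝ) / 2) : ℝ) : ℂ) * T I X p ξ := by
    have e1 : (fun v : En N => ((Real.exp (-((1 / 2) * ‖v‖ ^ 2)) : ℝ) : ℂ) * G (ξ - v))
        = fun v => ∑ i ∈ I, ((p' i : ℂ) * Complex.exp (Complex.I * ((inner ℝ (X i) ξ : ℝ) : ℂ))) *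
          (((Real.exp (-((1 / 2) * ‖v‖ ^ 2)) : ℝ) : ℂ) *
            Complex.exp (Complex.I * ((inner ℝ (-X i) v : ℝ) : ℂ))) := by
      funext v
      rw [hG, T, Finset.mul_sum]
      apply Finset.sum_congr rfl
      intro i _
      rw [inner_sub_right, inner_neg_left]
      push_cast
      rw [mul_sub, sub_eq_add_neg, Complex.exp_add]
      ring_nf
    rw [e1, integral_finsetSum]
    · simp_rw [integral_const_mul, integral_gauss_osc (1 / 2) (by norm_num)]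
      rw [T, Finset.mul_sum]
      apply Finset.sum_congr rfl
      intro i _
      rw [norm_neg, h2π, hp']
      have : Real.exp (‖X i‖ ^ 2 / 2) * Real.exp (-(‖X i‖ ^ 2 / (4 * (1 / 2)))) = 1 := by
        rw [← Real.exp_add]
        have : ‖X i‖ ^ 2 / 2 + -(‖X i‖ ^ 2 / (4 * (1 / 2))) = 0 := by ring
        rw [this, Real.exp_zero]
      have hc : ((Real.exp (‖X i‖ ^ 2 / 2) : ℝ) : ℂ) *
          ((Real.exp (-(‖X i‖ ^ 2 / (4 * (1 / 2)))) : ℝ) : ℂ) = 1 := by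
        rw [← Complex.ofReal_mul, this, Complex.ofReal_one]
      rw [Complex.ofReal_mul, Complex.ofReal_mul]
      linear_combination ((p i : ℂ) * Complex.exp (Complex.I * ((inner ℝ (X i) ξ : ℝ) : ℂ)) *
        (((2 * Real.pi) ^ ((N : ℝ) / 2) : ℝ) : ℂ)) * hc
    · intro i _
      apply Integrable.const_mul
      have h := (GaussianFourier.integrable_cexp_neg_mul_sq_norm_add (V := En N)
        (b := ((1 / 2 : ℝ) : ℂ)) (by simp) Complex.I (-X i))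
      refine h.congr (Filter.Eventually.of_forall fun v => ?_)
      simp only
      rw [Complex.exp_add, Complex.ofReal_exp]
      congr 2
      push_cast; ring
  set K : ℝ := (2 * Real.pi) ^ ((N : ℝ) / 2) with hK
  have hK0 : 0 < K := Real.rpow_pos_of_pos (by positivity) _
  have i0 := integrable_gauss (N := N) (1 / 2) (by norm_num)
  have hc1 : Continuous fun v : En N => ‖G (ξ - v)‖ := by fun_prop
  have hM0 : 0 ≤ M := Finset.sum_nonneg fun i _ => abs_nonneg _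
  have i1 : Integrable (fun v : En N => Real.exp (-((1 / 2) * ‖v‖ ^ 2)) * ‖G (ξ - v)‖) :=
    integrable_gauss_mul (1 / 2) (by norm_num) _ hc1 M (fun v => by
      rw [abs_of_nonneg (norm_nonneg _)]; exact hGM _)
  have i2 : Integrable (fun v : En N => Real.exp (-((1 / 2) * ‖v‖ ^ 2)) * ‖G (ξ - v)‖ ^ 2) :=
    integrable_gauss_mul (1 / 2) (by norm_num) _ (hc1.pow 2) (M ^ 2) (fun v => by
      rw [abs_of_nonneg (by positivity)]
      exact pow_le_pow_left₀ (norm_nonneg _) (hGM _) 2)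
  have hcs := cs_weight volume _ _ (fun v : En N => (Real.exp_pos (-((1 / 2) * ‖v‖ ^ 2))).le) i0 i1 i2
  rw [integral_gauss (1 / 2) (by norm_num), h2π] at hcs
  have hn : ‖((K : ℝ) : ℂ) * T I X p ξ‖ ≤ ∫ v : En N, Real.exp (-((1 / 2) * ‖v‖ ^ 2)) * ‖G (ξ - v)‖ := by
    rw [← hrep]
    refine (norm_integral_le_integral_norm _).trans (le_of_eq ?_)
    congr 1
    funext v
    rw [norm_mul, Complex.norm_real, Real.norm_of_nonneg (Real.exp_pos _).le]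
  rw [norm_mul, Complex.norm_real, Real.norm_of_nonneg hK0.le] at hn
  have hn2 : (K * ‖T I X p ξ‖) ^ 2 ≤ (∫ v : En N, Real.exp (-((1 / 2) * ‖v‖ ^ 2)) * ‖G (ξ - v)‖) ^ 2 :=
    pow_le_pow_left₀ (by positivity) hn 2
  have h3 := hn2.trans hcs
  rw [inv_mul_eq_div, le_div_iff₀ hK0]
  have h4 : K * (‖T I X p ξ‖ ^ 2 * K) ≤ K * ∫ v : En N, Real.exp (-((1 / 2) * ‖v‖ ^ 2)) * ‖G (ξ - v)‖ ^ 2 := by
    calc K * (‖T I X p ξ‖ ^ 2 * K) = (K * ‖T I X p ξ‖) ^ 2 := by ring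
      _ ≤ _ := h3
  exact le_of_mul_le_mul_left h4 hK0

/-- Step D -/
theorem stepD {N : ℕ} {ι : Type} (I : Finset ι) (X : ι → En N) (p : ι → ℝ) (b : ℝ) (hb : 0 < b) :
    ∫ ζ : En N, Real.exp (-(b * ‖ζ‖ ^ 2)) * ‖T I X p ζ‖ ^ 2
      = ∑ i ∈ I, ∑ i' ∈ I, p i * p i' *
        ((Real.pi / b) ^ ((N : ℝ) / 2) * Real.exp (-(‖X i - X i'‖ ^ 2 / (4 * b)))) := by
  have h1 : ((∫ ζ : En N, Real.exp (-(b * ‖ζ‖ ^ 2)) * ‖T I X p ζ‖ ^ 2 : ℝ) : ℂ)
      = ∫ ζ : En N, ((Real.exp (-(b * ‖ζ‖ ^ 2)) * ‖T I X p ζ‖ ^ 2 : ℝ) : ℂ) :=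
    integral_ofReal.symm
  have e1 : (fun ζ : En N => ((Real.exp (-(b * ‖ζ‖ ^ 2)) * ‖T I X p ζ‖ ^ 2 : ℝ) : ℂ))
      = fun ζ => ∑ i ∈ I, ∑ i' ∈ I, ((p i : ℂ) * (p i' : ℂ)) *
        (((Real.exp (-(b * ‖ζ‖ ^ 2)) : ℝ) : ℂ) *
          Complex.exp (Complex.I * ((inner ℝ (X i - X i') ζ : ℝ) : ℂ))) := by
    funext ζ
    have hn : ((‖T I X p ζ‖ ^ 2 : ℝ) : ℂ) = T I X p ζ * (starRingEnd ℂ) (T I X p ζ) := by
      rw [Complex.mul_conj, Complex.normSq_eq_norm_sq]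
    have hconj : (starRingEnd ℂ) (T I X p ζ) =
        ∑ i ∈ I, (p i : ℂ) * Complex.exp (-(Complex.I * ((inner ℝ (X i) ζ : ℝ) : ℂ))) := by
      rw [T, map_sum]
      apply Finset.sum_congr rfl
      intro i _
      rw [map_mul, Complex.conj_ofReal, ← Complex.exp_conj, map_mul, Complex.conj_I,
        Complex.conj_ofReal, neg_mul]
    rw [Complex.ofReal_mul, hn, hconj, T, Finset.sum_mul_sum, Finset.mul_sum]
    apply Finset.sum_congr rfl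
    intro i _
    rw [Finset.mul_sum]
    apply Finset.sum_congr rfl
    intro i' _
    rw [inner_sub_left]
    push_cast
    rw [mul_sub, sub_eq_add_neg, Complex.exp_add]
    ring
  apply Complex.ofReal_injective
  rw [h1, e1]
  have hint : ∀ i i' : ι, Integrable (fun ζ : En N => ((p i : ℂ) * (p i' : ℂ)) *
        (((Real.exp (-(b * ‖ζ‖ ^ 2)) : ℝ) : ℂ) *
          Complex.exp (Complex.I * ((inner ℝ (X i - X i') ζ : ℝ) : ℂ)))) := by
    intro i i'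
    apply Integrable.const_mul
    have h := (GaussianFourier.integrable_cexp_neg_mul_sq_norm_add (V := En N)
      (b := ((b : ℝ) : ℂ)) (by simpa using hb) Complex.I (X i - X i'))
    refine h.congr (Filter.Eventually.of_forall fun v => ?_)
    simp only
    rw [Complex.exp_add, Complex.ofReal_exp]
    congr 2
    push_cast; ring
  rw [integral_finsetSum _ (fun i _ => integrable_finsetSum _ fun i' _ => hint i i')]
  rw [Complex.ofReal_sum]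
  apply Finset.sum_congr rfl
  intro i _
  rw [integral_finsetSum _ (fun i' _ => hint i i'), Complex.ofReal_sum]
  apply Finset.sum_congr rfl
  intro i' _
  rw [integral_const_mul, integral_gauss_osc b hb]
  push_cast
  ring

/-- the pointwise weight estimate -/
theorem weight_le {N : ℕ} (R τ : ℝ) (hτ : 1 ≤ |τ|) (Z ζ : En N) (hZ : ‖Z‖ ≤ R) :
    Real.exp (-((1 / 2) * ‖τ • Z - ζ‖ ^ 2)) ≤
      Real.exp (R ^ 2 / 4) * Real.exp (-((8 * τ ^ 2)⁻¹ * ‖ζ‖ ^ 2)) *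
        Real.exp (-((1 / 4) * (‖Z - τ⁻¹ • ζ‖ / |τ|⁻¹) ^ 2)) := by
  have hτ0 : τ ≠ 0 := by
    intro h; rw [h] at hτ; simp at hτ; linarith
  have hτ2 : 1 ≤ τ ^ 2 := by
    rw [← sq_abs]; nlinarith
  have hτp : 0 < τ ^ 2 := by linarith
  have e1 : ‖Z - τ⁻¹ • ζ‖ / |τ|⁻¹ = ‖τ • Z - ζ‖ := by
    have : τ • Z - ζ = τ • (Z - τ⁻¹ • ζ) := by
      rw [smul_sub, smul_smul, mul_inv_cancel₀ hτ0, one_smul]
    rw [this, norm_smul, Real.norm_eq_abs, div_inv_eq_mul, mul_comm]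
  rw [e1, ← Real.exp_add, ← Real.exp_add]
  apply Real.exp_le_exp.2
  have h1 : ‖ζ‖ ≤ ‖τ • Z - ζ‖ + |τ| * R := by
    have h2 : ζ = τ • Z - (τ • Z - ζ) := by abel
    calc ‖ζ‖ = ‖τ • Z - (τ • Z - ζ)‖ := by rw [← h2]
      _ ≤ ‖τ • Z‖ + ‖τ • Z - ζ‖ := norm_sub_le _ _
      _ ≤ |τ| * R + ‖τ • Z - ζ‖ := by
        rw [norm_smul, Real.norm_eq_abs]; gcongr
      _ = _ := by ring
  have hR : 0 ≤ R := (norm_nonneg _).trans hZ
  have h3 : ‖ζ‖ ^ 2 ≤ 2 * ‖τ • Z - ζ‖ ^ 2 + 2 * τ ^ 2 * R ^ 2 := by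
    have h4 : ‖ζ‖ ^ 2 ≤ (‖τ • Z - ζ‖ + |τ| * R) ^ 2 := pow_le_pow_left₀ (norm_nonneg _) h1 2
    have h5 : (|τ| * R) ^ 2 = τ ^ 2 * R ^ 2 := by rw [mul_pow, sq_abs]
    nlinarith [sq_nonneg (‖τ • Z - ζ‖ - |τ| * R)]
  have h6 : (8 * τ ^ 2)⁻¹ * ‖ζ‖ ^ 2 ≤ (1 / 4) * ‖τ • Z - ζ‖ ^ 2 + R ^ 2 / 4 := by
    have h7 : (8 * τ ^ 2)⁻¹ * ‖ζ‖ ^ 2 ≤ (8 * τ ^ 2)⁻¹ * (2 * ‖τ • Z - ζ‖ ^ 2 + 2 * τ ^ 2 * R ^ 2) :=
      mul_le_mul_of_nonneg_left h3 (by positivity)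
    have h8 : (8 * τ ^ 2)⁻¹ * (2 * ‖τ • Z - ζ‖ ^ 2 + 2 * τ ^ 2 * R ^ 2)
        = (1 / 4) * ((τ ^ 2)⁻¹ * ‖τ • Z - ζ‖ ^ 2) + R ^ 2 / 4 := by
      field_simp
      ring
    have h9 : (τ ^ 2)⁻¹ * ‖τ • Z - ζ‖ ^ 2 ≤ 1 * ‖τ • Z - ζ‖ ^ 2 := by
      apply mul_le_mul_of_nonneg_right _ (by positivity)
      exact inv_le_one_of_one_le₀ hτ2
    linarith
  linarith

end Osc

open Osc in
/-- M1 -/
theorem osc_bound (N : ℕ) (s A R : ℝ) (hs : 0 ≤ s) (hA : 0 ≤ A) (hR : 1 ≤ R) :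
    ∃ C : ℝ, 0 < C ∧ ∀ (ι κ : Type) (I : Finset ι) (J : Finset κ) (X : ι → En N) (Z : κ → En N)
      (p : ι → ℝ) (q : κ → ℝ) (ρ τ : ℝ), 0 < ρ → Fro I X p A s ρ → Fro J Z q A s ρ →
      (∀ i ∈ I, ‖X i‖ ≤ R) → (∀ j ∈ J, ‖Z j‖ ≤ R) → 1 ≤ |τ| → |τ| * ρ ≤ 1 →
      ‖∑ i ∈ I, ∑ j ∈ J, ((p i * q j : ℝ) : ℂ) *
        Complex.exp (((τ * inner ℝ (X i) (Z j) : ℝ) : ℂ) * Complex.I)‖ ^ 2
        ≤ C * |τ| ^ ((N : ℝ) - 2 * s) := by
  obtain ⟨C₁, hC₁, hB1⟩ := gauss_sum_le s (1 / 4) hs (by norm_num)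
  obtain ⟨C₂, hC₂, hB2⟩ := gauss_sum_le s 2 hs (by norm_num)
  set K : ℝ := (2 * Real.pi) ^ ((N : ℝ) / 2) with hK
  have hK0 : 0 < K := Real.rpow_pos_of_pos (by positivity) _
  set L : ℝ := (8 * Real.pi) ^ ((N : ℝ) / 2) with hL
  have hL0 : 0 < L := Real.rpow_pos_of_pos (by positivity) _
  set m : ℝ := A * R ^ s with hm
  have hm0 : 0 ≤ m := mul_nonneg hA (Real.rpow_nonneg (by linarith) _)
  set D : ℝ := m * (K⁻¹ * (Real.exp (R ^ 2 / 4) * (C₁ * A) *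
    (L * (Real.exp (R ^ 2 / 2) * m * (Real.exp (R ^ 2 / 2) * (C₂ * A)))))) with hD
  have hD0 : 0 ≤ D := by positivity
  refine ⟨D + 1, by linarith, ?_⟩
  intro ι κ I J X Z p q ρ τ hρ hX hZ hXR hZR hτ1 hτρ
  have hτp : 0 < |τ| := by linarith
  have hτ0 : τ ≠ 0 := abs_pos.1 hτp
  have ht : 0 < |τ|⁻¹ := inv_pos.2 hτp
  have hρt : ρ ≤ |τ|⁻¹ := by
    rw [← one_div, le_div_iff₀ hτp]; linarith
  have hρR : ρ ≤ R := by
    have : |τ|⁻¹ ≤ 1 := inv_le_one_of_one_le₀ hτ1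
    linarith
  have hpm : ∑ i ∈ I, p i ≤ m := hX.mass_le hρR hXR
  have hqm : ∑ j ∈ J, q j ≤ m := hZ.mass_le hρR hZR
  have hq0 : 0 ≤ ∑ j ∈ J, q j := Finset.sum_nonneg hZ.1
  -- rewrite
  have e1 : ∑ i ∈ I, ∑ j ∈ J, ((p i * q j : ℝ) : ℂ) *
        Complex.exp (((τ * inner ℝ (X i) (Z j) : ℝ) : ℂ) * Complex.I)
      = ∑ j ∈ J, (q j : ℂ) * T I X p (τ • Z j) := by
    rw [Finset.sum_comm]
    apply Finset.sum_congr rfl
    intro j _
    rw [T, Finset.mul_sum]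
    apply Finset.sum_congr rfl
    intro i _
    rw [inner_smul_right]
    push_cast
    rw [mul_comm Complex.I]
    ring
  rw [e1]
  -- Cauchy-Schwarz
  have e2 : ‖∑ j ∈ J, (q j : ℂ) * T I X p (τ • Z j)‖ ^ 2
      ≤ (∑ j ∈ J, q j) * ∑ j ∈ J, q j * ‖T I X p (τ • Z j)‖ ^ 2 := by
    have h1 : ‖∑ j ∈ J, (q j : ℂ) * T I X p (τ • Z j)‖ ≤ ∑ j ∈ J, q j * ‖T I X p (τ • Z j)‖ := by
      refine (norm_sum_le _ _).trans (le_of_eq (Finset.sum_congr rfl fun j hj => ?_))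
      rw [norm_mul, Complex.norm_real, Real.norm_of_nonneg (hZ.1 j hj)]
    refine (pow_le_pow_left₀ (norm_nonneg _) h1 2).trans ?_
    exact Finset.sum_sq_le_sum_mul_sum_of_sq_eq_mul J (fun j hj => hZ.1 j hj)
      (fun j hj => mul_nonneg (hZ.1 j hj) (by positivity)) (fun j _ => by ring)
  set p' : ι → ℝ := fun i => p i * Real.exp (‖X i‖ ^ 2 / 2) with hp'
  set G := T I X p' with hG
  set b : ℝ := (8 * τ ^ 2)⁻¹ with hb
  have hτ2 : 0 < τ ^ 2 := by positivity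
  have hb0 : 0 < b := by positivity
  -- Step A summed
  have hGb : ∀ v, ‖G v‖ ≤ ∑ i ∈ I, |p' i| := T_norm_le I X p'
  have hGc : Continuous G := T_continuous I X p'
  have i2 : ∀ ξ : En N, Integrable
      (fun ζ : En N => Real.exp (-((1 / 2) * ‖ξ - ζ‖ ^ 2)) * ‖G ζ‖ ^ 2) := by
    intro ξ
    have h1 : Integrable (fun v : En N => Real.exp (-((1 / 2) * ‖v‖ ^ 2)) * ‖G (ξ - v)‖ ^ 2) := by
      apply integrable_gauss_mul (1 / 2) (by norm_num) _ _ ((∑ i ∈ I, |p' i|) ^ 2)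
      · intro v
        rw [abs_of_nonneg (by positivity)]
        exact pow_le_pow_left₀ (norm_nonneg _) (hGb _) 2
      · fun_prop
    have h2 := h1.comp_sub_left ξ
    simpa using h2
  have iD : Integrable (fun ζ : En N => Real.exp (-(b * ‖ζ‖ ^ 2)) * ‖G ζ‖ ^ 2) := by
    apply integrable_gauss_mul b hb0 _ _ ((∑ i ∈ I, |p' i|) ^ 2)
    · intro v
      rw [abs_of_nonneg (by positivity)]
      exact pow_le_pow_left₀ (norm_nonneg _) (hGb _) 2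
    · fun_prop
  have hA1 : ∑ j ∈ J, q j * ‖T I X p (τ • Z j)‖ ^ 2 ≤
      K⁻¹ * ∫ ζ : En N, (∑ j ∈ J, q j * Real.exp (-((1 / 2) * ‖τ • Z j - ζ‖ ^ 2))) * ‖G ζ‖ ^ 2 := by
    have h1 : ∫ ζ : En N, (∑ j ∈ J, q j * Real.exp (-((1 / 2) * ‖τ • Z j - ζ‖ ^ 2))) * ‖G ζ‖ ^ 2
        = ∑ j ∈ J, q j * ∫ ζ : En N, Real.exp (-((1 / 2) * ‖τ • Z j - ζ‖ ^ 2)) * ‖G ζ‖ ^ 2 := by
      simp_rw [Finset.sum_mul, mul_assoc]
      rw [integral_finsetSum]
      · simp_rw [integral_const_mul]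
      · intro j _
        exact (i2 (τ • Z j)).const_mul _
    rw [h1, Finset.mul_sum]
    apply Finset.sum_le_sum
    intro j hj
    have := stepA I X p (τ • Z j)
    calc q j * ‖T I X p (τ • Z j)‖ ^ 2 ≤ q j * (K⁻¹ * ∫ ζ : En N,
          Real.exp (-((1 / 2) * ‖τ • Z j - ζ‖ ^ 2)) * ‖G ζ‖ ^ 2) :=
          mul_le_mul_of_nonneg_left this (hZ.1 j hj)
      _ = _ := by ring
  have hts : |τ|⁻¹ ^ s = |τ| ^ (-s) := by
    rw [Real.rpow_neg hτp.le, Real.inv_rpow hτp.le]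
  have hw : ∀ ζ : En N, (∑ j ∈ J, q j * Real.exp (-((1 / 2) * ‖τ • Z j - ζ‖ ^ 2)))
      ≤ Real.exp (R ^ 2 / 4) * (C₁ * A) * |τ| ^ (-s) * Real.exp (-(b * ‖ζ‖ ^ 2)) := by
    intro ζ
    have h1 := hB1 (En N) κ J Z q A ρ |τ|⁻¹ (τ⁻¹ • ζ) hZ hA ht hρt
    rw [hts] at h1
    calc (∑ j ∈ J, q j * Real.exp (-((1 / 2) * ‖τ • Z j - ζ‖ ^ 2)))
        ≤ ∑ j ∈ J, q j * (Real.exp (R ^ 2 / 4) * Real.exp (-(b * ‖ζ‖ ^ 2)) *
          Real.exp (-((1 / 4) * (‖Z j - τ⁻¹ • ζ‖ / |τ|⁻¹) ^ 2))) :=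
          Finset.sum_le_sum fun j hj =>
            mul_le_mul_of_nonneg_left (weight_le R τ hτ1 (Z j) ζ (hZR j hj)) (hZ.1 j hj)
      _ = Real.exp (R ^ 2 / 4) * Real.exp (-(b * ‖ζ‖ ^ 2)) *
          ∑ j ∈ J, q j * Real.exp (-((1 / 4) * (‖Z j - τ⁻¹ • ζ‖ / |τ|⁻¹) ^ 2)) := by
          rw [Finset.mul_sum]
          apply Finset.sum_congr rfl
          intro j _
          ring
      _ ≤ Real.exp (R ^ 2 / 4) * Real.exp (-(b * ‖ζ‖ ^ 2)) * (C₁ * A * |τ| ^ (-s)) :=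
          mul_le_mul_of_nonneg_left h1 (by positivity)
      _ = _ := by ring
  have hB : ∫ ζ : En N, (∑ j ∈ J, q j * Real.exp (-((1 / 2) * ‖τ • Z j - ζ‖ ^ 2))) * ‖G ζ‖ ^ 2
      ≤ Real.exp (R ^ 2 / 4) * (C₁ * A) * |τ| ^ (-s) *
        ∫ ζ : En N, Real.exp (-(b * ‖ζ‖ ^ 2)) * ‖G ζ‖ ^ 2 := by
    rw [← integral_const_mul]
    apply integral_mono
    · simp_rw [Finset.sum_mul, mul_assoc]
      apply integrable_finsetSum
      intro j _
      exact (i2 (τ • Z j)).const_mul _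
    · exact iD.const_mul _
    · intro ζ
      simp only
      calc (∑ j ∈ J, q j * Real.exp (-((1 / 2) * ‖τ • Z j - ζ‖ ^ 2))) * ‖G ζ‖ ^ 2
          ≤ (Real.exp (R ^ 2 / 4) * (C₁ * A) * |τ| ^ (-s) * Real.exp (-(b * ‖ζ‖ ^ 2))) * ‖G ζ‖ ^ 2 :=
            mul_le_mul_of_nonneg_right (hw ζ) (by positivity)
        _ = _ := by ring
  -- Step D
  have hLb : (Real.pi / b) ^ ((N : ℝ) / 2) = L * |τ| ^ (N : ℝ) := by
    have h1 : Real.pi / b = (8 * Real.pi) * τ ^ 2 := by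
      rw [hb]; field_simp
    rw [h1, Real.mul_rpow (by positivity) (by positivity), hL]
    congr 1
    rw [← sq_abs, ← Real.rpow_natCast, ← Real.rpow_mul hτp.le]
    congr 1
    push_cast; ring
  have hp'0 : ∀ i ∈ I, 0 ≤ p' i := fun i hi => mul_nonneg (hX.1 i hi) (Real.exp_pos _).le
  have hp'le : ∀ i ∈ I, p' i ≤ Real.exp (R ^ 2 / 2) * p i := by
    intro i hi
    show p i * Real.exp (‖X i‖ ^ 2 / 2) ≤ Real.exp (R ^ 2 / 2) * p i
    rw [mul_comm (Real.exp _)]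
    apply mul_le_mul_of_nonneg_left _ (hX.1 i hi)
    apply Real.exp_le_exp.2
    have := pow_le_pow_left₀ (norm_nonneg _) (hXR i hi) 2
    linarith
  have hDD : ∫ ζ : En N, Real.exp (-(b * ‖ζ‖ ^ 2)) * ‖G ζ‖ ^ 2
      ≤ L * |τ| ^ (N : ℝ) * (Real.exp (R ^ 2 / 2) * m * (Real.exp (R ^ 2 / 2) * (C₂ * A)) *
        |τ| ^ (-s)) := by
    rw [hG, stepD I X p' b hb0, hLb]
    have h1 : ∀ i ∈ I, ∑ i' ∈ I, p' i' * Real.exp (-(‖X i - X i'‖ ^ 2 / (4 * b)))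
        ≤ Real.exp (R ^ 2 / 2) * (C₂ * A * |τ| ^ (-s)) := by
      intro i _
      have h2 := hB2 (En N) ι I X p A ρ |τ|⁻¹ (X i) hX hA ht hρt
      rw [hts] at h2
      calc ∑ i' ∈ I, p' i' * Real.exp (-(‖X i - X i'‖ ^ 2 / (4 * b)))
          ≤ ∑ i' ∈ I, (Real.exp (R ^ 2 / 2) * p i') *
            Real.exp (-(2 * (‖X i' - X i‖ / |τ|⁻¹) ^ 2)) := by
            apply Finset.sum_le_sum
            intro i' hi'
            have e3 : ‖X i - X i'‖ ^ 2 / (4 * b) = 2 * (‖X i' - X i‖ / |τ|⁻¹) ^ 2 := by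
              rw [norm_sub_rev, hb, div_inv_eq_mul, mul_pow, sq_abs]
              field_simp
              ring
            rw [e3]
            exact mul_le_mul_of_nonneg_right (hp'le i' hi') (Real.exp_pos _).le
        _ = Real.exp (R ^ 2 / 2) * ∑ i' ∈ I, p i' *
            Real.exp (-(2 * (‖X i' - X i‖ / |τ|⁻¹) ^ 2)) := by
            rw [Finset.mul_sum]
            apply Finset.sum_congr rfl
            intro i' _
            ring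
        _ ≤ _ := mul_le_mul_of_nonneg_left h2 (Real.exp_pos _).le
    have h3 : ∑ i ∈ I, p' i ≤ Real.exp (R ^ 2 / 2) * m := by
      calc ∑ i ∈ I, p' i ≤ ∑ i ∈ I, Real.exp (R ^ 2 / 2) * p i := Finset.sum_le_sum hp'le
        _ = Real.exp (R ^ 2 / 2) * ∑ i ∈ I, p i := by rw [Finset.mul_sum]
        _ ≤ _ := mul_le_mul_of_nonneg_left hpm (Real.exp_pos _).le
    have hτN : 0 ≤ |τ| ^ (N : ℝ) := Real.rpow_nonneg hτp.le _
    have hτs : 0 ≤ |τ| ^ (-s) := Real.rpow_nonneg hτp.le _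
    calc ∑ i ∈ I, ∑ i' ∈ I, p' i * p' i' *
          (L * |τ| ^ (N : ℝ) * Real.exp (-(‖X i - X i'‖ ^ 2 / (4 * b))))
        = L * |τ| ^ (N : ℝ) * ∑ i ∈ I, p' i *
          ∑ i' ∈ I, p' i' * Real.exp (-(‖X i - X i'‖ ^ 2 / (4 * b))) := by
          rw [Finset.mul_sum]
          apply Finset.sum_congr rfl
          intro i _
          rw [Finset.mul_sum, Finset.mul_sum]
          apply Finset.sum_congr rfl
          intro i' _
          ring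
      _ ≤ L * |τ| ^ (N : ℝ) * ∑ i ∈ I, p' i *
          (Real.exp (R ^ 2 / 2) * (C₂ * A * |τ| ^ (-s))) := by
          apply mul_le_mul_of_nonneg_left _ (by positivity)
          exact Finset.sum_le_sum fun i hi => mul_le_mul_of_nonneg_left (h1 i hi) (hp'0 i hi)
      _ = L * |τ| ^ (N : ℝ) * ((∑ i ∈ I, p' i) *
          (Real.exp (R ^ 2 / 2) * (C₂ * A * |τ| ^ (-s)))) := by
          rw [Finset.sum_mul]
      _ ≤ L * |τ| ^ (N : ℝ) * ((Real.exp (R ^ 2 / 2) * m) *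
          (Real.exp (R ^ 2 / 2) * (C₂ * A * |τ| ^ (-s)))) := by
          gcongr
      _ = _ := by ring
  have hexp : |τ| ^ (-s) * (|τ| ^ (N : ℝ) * |τ| ^ (-s)) = |τ| ^ ((N : ℝ) - 2 * s) := by
    rw [← Real.rpow_add hτp, ← Real.rpow_add hτp]
    congr 1
    ring
  have hτs : 0 ≤ |τ| ^ (-s) := Real.rpow_nonneg hτp.le _
  have hSnn : 0 ≤ ∑ j ∈ J, q j * ‖T I X p (τ • Z j)‖ ^ 2 :=
    Finset.sum_nonneg fun j hj => mul_nonneg (hZ.1 j hj) (by positivity)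
  calc ‖∑ j ∈ J, (q j : ℂ) * T I X p (τ • Z j)‖ ^ 2
      ≤ (∑ j ∈ J, q j) * ∑ j ∈ J, q j * ‖T I X p (τ • Z j)‖ ^ 2 := e2
    _ ≤ m * ∑ j ∈ J, q j * ‖T I X p (τ • Z j)‖ ^ 2 := mul_le_mul_of_nonneg_right hqm hSnn
    _ ≤ m * (K⁻¹ * ∫ ζ : En N,
        (∑ j ∈ J, q j * Real.exp (-((1 / 2) * ‖τ • Z j - ζ‖ ^ 2))) * ‖G ζ‖ ^ 2) :=
        mul_le_mul_of_nonneg_left hA1 hm0
    _ ≤ m * (K⁻¹ * (Real.exp (R ^ 2 / 4) * (C₁ * A) * |τ| ^ (-s) *
        ∫ ζ : En N, Real.exp (-(b * ‖ζ‖ ^ 2)) * ‖G ζ‖ ^ 2)) := by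
        gcongr
    _ ≤ m * (K⁻¹ * (Real.exp (R ^ 2 / 4) * (C₁ * A) * |τ| ^ (-s) *
        (L * |τ| ^ (N : ℝ) * (Real.exp (R ^ 2 / 2) * m * (Real.exp (R ^ 2 / 2) * (C₂ * A)) *
        |τ| ^ (-s))))) := by
        have : 0 ≤ Real.exp (R ^ 2 / 4) * (C₁ * A) * |τ| ^ (-s) := by positivity
        apply mul_le_mul_of_nonneg_left _ hm0
        apply mul_le_mul_of_nonneg_left _ (inv_nonneg.2 hK0.le)
        exact mul_le_mul_of_nonneg_left hDD this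
    _ = D * (|τ| ^ (-s) * (|τ| ^ (N : ℝ) * |τ| ^ (-s))) := by
        rw [hD]; ring
    _ = D * |τ| ^ ((N : ℝ) - 2 * s) := by rw [hexp]
    _ ≤ (D + 1) * |τ| ^ ((N : ℝ) - 2 * s) := by
        apply mul_le_mul_of_nonneg_right (by linarith) (Real.rpow_nonneg hτp.le _)

end
end Pool.Agent.H47A
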