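import Pool.Agent.Helper47_Angle.Defs

/-! # Preparation for the final assembly: cutoffs and the three point functional -/

set_option autoImplicit false

namespace Pool.Agent.H47A

open scoped BigOperators Classical ENNReal
open MeasureTheory

noncomputable section

/-- continuous cutoff -/
def chi (r t : ℝ) : ℝ := max 0 (min 1 (2 * t / r - 1))

theorem chi_nonneg (r t : ℝ) : 0 ≤ chi r t := le_max_left _ _

theorem chi_le_one (r t : ℝ) : chi r t ≤ 1 := max_le zero_le_one (min_le_left _ _)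

theorem chi_eq_one {r t : ℝ} (hr : 0 < r) (h : r ≤ t) : chi r t = 1 := by
  unfold chi
  have : 1 ≤ 2 * t / r - 1 := by
    have : 2 ≤ 2 * t / r := by rw [le_div_iff₀ hr]; linarith
    linarith
  rw [min_eq_left this]
  exact max_eq_right zero_le_one

theorem chi_eq_zero {r t : ℝ} (hr : 0 < r) (h : t < r / 2) : chi r t = 0 := by
  unfold chi
  have : 2 * t / r - 1 ≤ 0 := by
    have : 2 * t / r ≤ 1 := by rw [div_le_iff₀ hr]; linarith
    linarith
  exact max_eq_left ((min_le_right _ _).trans this)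

theorem continuous_chi (r : ℝ) : Continuous (chi r) := by
  unfold chi; fun_prop

theorem continuous_gk (δ : ℝ) : Continuous (gk δ) := by
  unfold gk; fun_prop

theorem continuous_Phi {n : ℕ} (κ : ℝ) : Continuous (fun w : En n × En n => Phi κ w.1 w.2) := by
  unfold Phi; fun_prop

/-- the smooth integrand -/
def Psi {n : ℕ} (κ r δ : ℝ) (u v : En n) : ℝ := chi r ‖u‖ * chi r ‖v‖ * gk δ (Phi κ u v)

theorem continuous_Psi {n : ℕ} (κ r δ : ℝ) :
    Continuous (fun w : En n × En n => Psi κ r δ w.1 w.2) := by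
  unfold Psi
  refine ((continuous_chi r).comp (continuous_norm.comp continuous_fst)).mul
    ((continuous_chi r).comp (continuous_norm.comp continuous_snd)) |>.mul ?_
  exact (continuous_gk δ).comp (continuous_Phi κ)

theorem Psi_nonneg {n : ℕ} (κ r : ℝ) {δ : ℝ} (hδ : 0 < δ) (u v : En n) : 0 ≤ Psi κ r δ u v :=
  mul_nonneg (mul_nonneg (chi_nonneg _ _) (chi_nonneg _ _)) (gk_nonneg hδ _)

theorem Psi_le {n : ℕ} (κ r : ℝ) {δ : ℝ} (hδ : 0 < δ) (u v : En n) : Psi κ r δ u v ≤ δ⁻¹ := by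
  unfold Psi
  have h1 : chi r ‖u‖ * chi r ‖v‖ ≤ 1 :=
    mul_le_one₀ (chi_le_one _ _) (chi_nonneg _ _) (chi_le_one _ _)
  have h2 := gk_le hδ (Phi κ u v)
  have h3 := gk_nonneg hδ (Phi κ u v)
  nlinarith [mul_nonneg (chi_nonneg r ‖u‖) (chi_nonneg r ‖v‖)]

theorem ite_le_Psi {n : ℕ} (κ : ℝ) {r δ : ℝ} (hr : 0 < r) (hδ : 0 < δ) (u v : En n) :
    (if r ≤ ‖u‖ ∧ r ≤ ‖v‖ then gk δ (Phi κ u v) else 0) ≤ Psi κ r δ u v := by
  split_ifs with h
  · unfold Psi
    rw [chi_eq_one hr h.1, chi_eq_one hr h.2]; simp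
  · exact Psi_nonneg κ r hδ u v

theorem Psi_le_ite {n : ℕ} (κ : ℝ) {r δ : ℝ} (hr : 0 < r) (hδ : 0 < δ) (u v : En n) :
    Psi κ r δ u v ≤ if r / 2 ≤ ‖u‖ ∧ r / 2 ≤ ‖v‖ then gk δ (Phi κ u v) else 0 := by
  split_ifs with h
  · unfold Psi
    have h1 : chi r ‖u‖ * chi r ‖v‖ ≤ 1 :=
      mul_le_one₀ (chi_le_one _ _) (chi_nonneg _ _) (chi_le_one _ _)
    have h3 := gk_nonneg hδ (Phi κ u v)
    nlinarith [mul_nonneg (chi_nonneg r ‖u‖) (chi_nonneg r ‖v‖)]
  · rw [not_and_or, not_le, not_le] at h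
    unfold Psi
    rcases h with h | h
    · rw [chi_eq_zero hr h]; simp
    · rw [chi_eq_zero hr h]; simp

theorem Psi_unif {n : ℕ} (κ r δ R ε : ℝ) (hε : 0 < ε) :
    ∃ η : ℝ, 0 < η ∧ ∀ u u' v v' : En n, ‖u‖ ≤ R → ‖u'‖ ≤ R → ‖v‖ ≤ R → ‖v'‖ ≤ R →
      ‖u - u'‖ ≤ η → ‖v - v'‖ ≤ η → |Psi κ r δ u v - Psi κ r δ u' v'| ≤ ε := by
  have hc : IsCompact (Metric.closedBall (0 : En n) R ×ˢ Metric.closedBall (0 : En n) R) :=
    (isCompact_closedBall _ _).prod (isCompact_closedBall _ _)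
  have hu := hc.uniformContinuousOn_of_continuous (continuous_Psi (n := n) κ r δ).continuousOn
  rw [Metric.uniformContinuousOn_iff] at hu
  obtain ⟨η, hη, h⟩ := hu ε hε
  refine ⟨η / 2, by positivity, fun u u' v v' h1 h2 h3 h4 h5 h6 => ?_⟩
  have h7 := h (u, v) ⟨by simpa using h1, by simpa using h3⟩ (u', v')
    ⟨by simpa using h2, by simpa using h4⟩ (by
      rw [Prod.dist_eq, dist_eq_norm, dist_eq_norm]
      exact max_lt (by dsimp; linarith) (by dsimp; linarith))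
  rw [Real.dist_eq] at h7
  exact h7.le

/-- norm bound from coordinates -/
theorem norm_le_of_coord {n : ℕ} (v : En n) (t : ℝ) (ht : 0 ≤ t) (h : ∀ i, |v i| ≤ t) :
    ‖v‖ ≤ (n + 1) * t := by
  rw [EuclideanSpace.norm_eq]
  have h1 : ∑ i, ‖v i‖ ^ 2 ≤ n * t ^ 2 := by
    calc ∑ i, ‖v i‖ ^ 2 ≤ ∑ i : Fin n, t ^ 2 := by
          apply Finset.sum_le_sum
          intro i _
          rw [Real.norm_eq_abs]
          exact pow_le_pow_left₀ (abs_nonneg _) (h i) 2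
      _ = n * t ^ 2 := by simp
  rw [Real.sqrt_le_left (by positivity)]
  refine h1.trans ?_
  have : (0 : ℝ) ≤ n := Nat.cast_nonneg n
  nlinarith [sq_nonneg t, mul_nonneg this (sq_nonneg t), mul_nonneg (mul_nonneg this this) (sq_nonneg t)]

theorem coord_le_norm {n : ℕ} (v : En n) (i : Fin n) : |v i| ≤ ‖v‖ := by
  have := EuclideanSpace.norm_eq v
  rw [this]
  apply Real.le_sqrt_of_sq_le
  have h2 := Finset.single_le_sum (f := fun i => ‖v i‖ ^ 2) (fun i _ => by positivity)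
    (Finset.mem_univ i)
  simpa using h2

/-- three point functional at the coarse level -/
def TT {n : ℕ} (κ r δ : ℝ) (m : ℕ) (P : (Fin n → Fin (2 ^ m)) → ℝ) (Y : En n)
    (P' : (Fin n → Fin (2 ^ m)) → ℝ) : ℝ :=
  ∑ a, ∑ c, ∑ d, P a * P' c * P' d * Psi κ r δ (pos a - Y) (pos d - pos c)

theorem pos_coord {n m : ℕ} (b : Fin n → Fin (2 ^ m)) (i : Fin n) :
    (pos b : En n) i = (b i : ℝ) / 2 ^ m := rfl

theorem pos_bound {n m : ℕ} (b : Fin n → Fin (2 ^ m)) (i : Fin n) :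
    0 ≤ (b i : ℝ) / 2 ^ m ∧ (b i : ℝ) / 2 ^ m + (2 : ℝ)⁻¹ ^ m ≤ 1 := by
  constructor
  · positivity
  · have h1 : ((b i : ℕ) : ℝ) + 1 ≤ 2 ^ m := by
      have := (b i).isLt
      exact_mod_cast this
    rw [inv_pow, ← one_div, ← add_div, div_le_one (by positivity)]
    exact h1

/-- a point near the corner of its cell is in the unit cube -/
theorem norm_le_of_near {n m : ℕ} (X : En n) (b : Fin n → Fin (2 ^ m))
    (h : ∀ i, |X i - (b i : ℝ) / 2 ^ m| ≤ (2 : ℝ)⁻¹ ^ m) : ‖X‖ ≤ n + 1 := by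
  have := norm_le_of_coord X 1 zero_le_one (fun i => ?_)
  · simpa using this
  · have h1 := abs_le.1 (h i)
    have h2 := pos_bound b i
    have h3 : (2 : ℝ)⁻¹ ^ m ≤ 1 := pow_le_one₀ (by norm_num) (by norm_num)
    rw [abs_le]
    constructor <;> linarith

/-- distance between a point near the corner of its cell and the corner of the ancestor -/
theorem near_anc {n m j : ℕ} (X : En n) (b : Fin n → Fin (2 ^ (m + j)))
    (h : ∀ i, |X i - (b i : ℝ) / 2 ^ (m + j)| ≤ (2 : ℝ)⁻¹ ^ (m + j)) :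
    ‖X - pos (anc j b)‖ ≤ (n + 1) * (2 * (2 : ℝ)⁻¹ ^ m) := by
  apply norm_le_of_coord _ _ (by positivity)
  intro i
  have h1 : |(b i : ℝ) / 2 ^ (m + j) - (anc j b i : ℝ) / 2 ^ m| ≤ (2 : ℝ)⁻¹ ^ m := by
    have h2 : ((anc j b i : ℕ) : ℝ) * 2 ^ j ≤ (b i : ℕ) := by
      have : (b i : ℕ) / 2 ^ j * 2 ^ j ≤ (b i : ℕ) := Nat.div_mul_le_self _ _
      exact_mod_cast this
    have h3 : ((b i : ℕ) : ℝ) ≤ ((anc j b i : ℕ) : ℝ) * 2 ^ j + 2 ^ j := by
      have : (b i : ℕ) < ((b i : ℕ) / 2 ^ j) * 2 ^ j + 2 ^ j := by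
        have := Nat.lt_div_mul_add (a := (b i : ℕ)) (b := 2 ^ j) (by positivity)
        exact this
      exact_mod_cast this.le
    generalize ((b i : ℕ) : ℝ) = β at h2 h3 ⊢
    generalize ((anc j b i : ℕ) : ℝ) = γ at h2 h3 ⊢
    have h4 : β / 2 ^ (m + j) - γ / 2 ^ m = (β - γ * 2 ^ j) / 2 ^ (m + j) := by
      rw [pow_add]; field_simp
    rw [h4, abs_of_nonneg (div_nonneg (by linarith) (by positivity)), div_le_iff₀ (by positivity),
      pow_add, inv_pow]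
    have : ((2 : ℝ) ^ m)⁻¹ * (2 ^ m * 2 ^ j) = 2 ^ j := by field_simp
    rw [this]; linarith
  have h5 := h i
  have h6 : (2 : ℝ)⁻¹ ^ (m + j) ≤ (2 : ℝ)⁻¹ ^ m :=
    pow_le_pow_of_le_one (by norm_num) (by norm_num) (by omega)
  have h7 : (X - pos (anc j b)) i = (X i - (b i : ℝ) / 2 ^ (m + j)) +
      ((b i : ℝ) / 2 ^ (m + j) - (anc j b i : ℝ) / 2 ^ m) := by
    rw [PiLp.sub_apply, pos_coord]; ring
  rw [h7]
  exact (abs_add_le _ _).trans (by linarith)

end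

end Pool.Agent.H47A
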