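import Pool.Agent.Helper47_Angle.Defs

/-!
# Module M4a: a random orthogonal complex structure with small ball estimates
-/

set_option autoImplicit false

namespace Pool.Agent.H47A

open scoped BigOperators Classical ENNReal
open MeasureTheory

noncomputable section

/-- Small ball estimate for a rotation invariant random unit vector. -/
theorem small_ball_sphere {F : Type} [NormedAddCommGroup F] [InnerProductSpace ℝ F]
    [FiniteDimensional ℝ F] [MeasurableSpace F] [BorelSpace F] (d : ℕ)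
    (hd : Module.finrank ℝ F = d) (hd1 : 1 ≤ d)
    {Ω : Type} [MeasurableSpace Ω] (P : Measure Ω) [IsProbabilityMeasure P]
    (Y : Ω → F) (hY : Measurable Y)
    (hinv : ∀ q q' : F, ‖q‖ = 1 → ‖q'‖ = 1 → ∀ r : ℝ,
      P {ω | ‖Y ω - q‖ ≤ r} ≤ P {ω | ‖Y ω - q'‖ ≤ r})
    (q : F) (hq : ‖q‖ = 1) (r : ℝ) (hr : 0 < r) :
    P {ω | ‖Y ω - q‖ ≤ 2 * r} ≤ ENNReal.ofReal (3 ^ d * r ^ (d - 1)) := by
  haveI : Nontrivial F := by
    apply Module.nontrivial_of_finrank_pos (R := ℝ)
    omega
  set μ : Measure F := Measure.addHaar with hμ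
  set κ := μ (Metric.ball (0 : F) 1) with hκ
  have hκ0 : κ ≠ 0 := (Metric.measure_ball_pos μ (0 : F) one_pos).ne'
  have hκt : κ ≠ ⊤ := measure_ball_lt_top.ne
  set f0 := P {ω | ‖Y ω - q‖ ≤ 2 * r} with hf0
  set A : Set F := Metric.closedBall (0 : F) (1 + r) \ Metric.ball (0 : F) 1 with hA
  -- the measure of the annulus
  have hvolA : ENNReal.ofReal r * κ ≤ μ A := by
    have h1 : μ (Metric.closedBall (0 : F) (1 + r)) = μ A + κ := by
      have hsub : Metric.ball (0 : F) 1 ⊆ Metric.closedBall (0 : F) (1 + r) := by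
        intro x hx
        rw [Metric.mem_closedBall]
        rw [Metric.mem_ball] at hx
        linarith
      rw [hA, hκ, ← measure_sdiff_add_inter (Metric.closedBall (0 : F) (1 + r))
        (Metric.isOpen_ball.measurableSet : MeasurableSet (Metric.ball (0 : F) 1)),
        Set.inter_eq_right.2 hsub]
    rw [Measure.addHaar_closedBall μ (0 : F) (by linarith : (0 : ℝ) ≤ 1 + r), hd] at h1
    have h2 : 1 + r ≤ (1 + r) ^ d := by
      calc 1 + r = (1 + r) ^ 1 := (pow_one _).symm
        _ ≤ (1 + r) ^ d := pow_le_pow_right₀ (by linarith) hd1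
    have h3 : ENNReal.ofReal r * κ + κ ≤ μ A + κ := by
      rw [← h1]
      calc ENNReal.ofReal r * κ + κ = ENNReal.ofReal (r + 1) * κ := by
            rw [ENNReal.ofReal_add hr.le zero_le_one, ENNReal.ofReal_one]; ring
        _ ≤ ENNReal.ofReal ((1 + r) ^ d) * κ := by
            gcongr; linarith
    exact (ENNReal.add_le_add_iff_right hκt).1 h3
  -- Fubini
  set S : Set (F × Ω) := {p | ‖Y p.2 - p.1‖ ≤ 3 * r} with hS
  have hSm : MeasurableSet S := by
    apply measurableSet_le _ measurable_const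
    exact ((hY.comp measurable_snd).sub measurable_fst).norm
  have hF1 : (μ.prod P) S = ∫⁻ x, P {ω | ‖Y ω - x‖ ≤ 3 * r} ∂μ := by
    rw [Measure.prod_apply hSm]
    rfl
  have hF2 : (μ.prod P) S = ENNReal.ofReal ((3 * r) ^ d) * κ := by
    rw [Measure.prod_apply_symm hSm]
    have : ∀ ω, μ ((fun x => (x, ω)) ⁻¹' S) = ENNReal.ofReal ((3 * r) ^ d) * κ := by
      intro ω
      have h1 : (fun x => (x, ω)) ⁻¹' S = Metric.closedBall (Y ω) (3 * r) := by
        ext x
        simp only [hS, Set.mem_preimage, Set.mem_ofPred_eq, Metric.mem_closedBall]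
        rw [dist_comm, dist_eq_norm]
      rw [h1, Measure.addHaar_closedBall μ _ (by positivity), hd]
    simp [this]
  have hlow : f0 * μ A ≤ ∫⁻ x, P {ω | ‖Y ω - x‖ ≤ 3 * r} ∂μ := by
    have hAm : MeasurableSet A := measurableSet_closedBall.diff measurableSet_ball
    calc f0 * μ A = ∫⁻ x in A, f0 ∂μ := by rw [setLIntegral_const]
      _ ≤ ∫⁻ x in A, P {ω | ‖Y ω - x‖ ≤ 3 * r} ∂μ := by
          apply setLIntegral_mono' hAm
          intro x hx
          rw [hA, Set.mem_sdiff, Metric.mem_closedBall, Metric.mem_ball, dist_zero_right,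
            not_lt] at hx
          have hx0 : 0 < ‖x‖ := by linarith [hx.2]
          set x' : F := ‖x‖⁻¹ • x with hx'
          have hn : ‖x'‖ = 1 := by
            rw [hx', norm_smul, norm_inv, norm_norm, inv_mul_cancel₀ hx0.ne']
          have hdist : ‖x - x'‖ ≤ r := by
            have : x - x' = (1 - ‖x‖⁻¹) • x := by rw [hx', sub_smul, one_smul]
            rw [this, norm_smul, Real.norm_eq_abs, abs_of_nonneg, sub_mul, one_mul,
              inv_mul_cancel₀ hx0.ne']
            · linarith [hx.1]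
            · have : ‖x‖⁻¹ ≤ 1 := inv_le_one_of_one_le₀ hx.2
              linarith
          refine (hinv q x' hq hn (2 * r)).trans (measure_mono ?_)
          intro ω hω
          rw [Set.mem_ofPred_eq] at hω ⊢
          have : Y ω - x = (Y ω - x') - (x - x') := by abel
          rw [this]
          refine (norm_sub_le _ _).trans ?_
          linarith
      _ ≤ ∫⁻ x, P {ω | ‖Y ω - x‖ ≤ 3 * r} ∂μ := setLIntegral_le_lintegral _ _
  have hfin : f0 * ENNReal.ofReal r * κ ≤ ENNReal.ofReal ((3 * r) ^ d) * κ := by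
    calc f0 * ENNReal.ofReal r * κ = f0 * (ENNReal.ofReal r * κ) := by ring
      _ ≤ f0 * μ A := by gcongr
      _ ≤ _ := hlow
      _ = _ := by rw [← hF1, hF2]
  have h4 : f0 * ENNReal.ofReal r ≤ ENNReal.ofReal ((3 * r) ^ d) :=
    (ENNReal.mul_le_mul_iff_left hκ0 hκt).1 hfin
  have h5 : f0 ≤ ENNReal.ofReal ((3 * r) ^ d) / ENNReal.ofReal r := by
    rw [ENNReal.le_div_iff_mul_le (Or.inl (by simpa using hr)) (Or.inl ENNReal.ofReal_ne_top)]
    exact h4
  refine h5.trans (le_of_eq ?_)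
  rw [← ENNReal.ofReal_div_of_pos hr]
  congr 1
  rw [mul_pow, mul_div_assoc]
  congr 1
  rw [div_eq_iff hr.ne', ← pow_succ]
  congr 1
  omega

/-- The standard complex structure. -/
theorem exists_J0 (m : ℕ) : ∃ J : En (2 * m) →L[ℝ] En (2 * m),
    (∀ u, ‖J u‖ = ‖u‖) ∧ ∀ u, inner ℝ u (J u) = (0 : ℝ) := by
  let G := WithLp 2 (En m × En m)
  have hfin : Module.finrank ℝ G = 2 * m := by
    have : Module.finrank ℝ G = Module.finrank ℝ (En m × En m) :=
      (WithLp.linearEquiv 2 ℝ (En m × En m)).finrank_eq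
    rw [this, Module.finrank_prod]
    simp [two_mul]
  let φ : G ≃ₗᵢ[ℝ] En (2 * m) :=
    ((stdOrthonormalBasis ℝ G).reindex (finCongr hfin)).repr
  let T : G →ₗ[ℝ] G :=
    { toFun := fun x => WithLp.toLp 2 (-(x.snd), x.fst)
      map_add' := by
        intro x y
        apply WithLp.ofLp_injective
        refine Prod.ext ?_ rfl
        change -(x.snd + y.snd) = -x.snd + -y.snd
        abel
      map_smul' := by
        intro c x
        apply WithLp.ofLp_injective
        refine Prod.ext ?_ rfl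
        change -(c • x.snd) = c • -x.snd
        rw [smul_neg] }
  have hT1 : ∀ x, ‖T x‖ = ‖x‖ := by
    intro x
    have h1 : ‖T x‖ ^ 2 = ‖x‖ ^ 2 := by
      rw [WithLp.prod_norm_sq_eq_of_L2, WithLp.prod_norm_sq_eq_of_L2]
      simp [T, add_comm]
    exact (sq_eq_sq₀ (norm_nonneg _) (norm_nonneg _)).1 h1
  have hT2 : ∀ x, inner ℝ x (T x) = (0 : ℝ) := by
    intro x
    rw [WithLp.prod_inner_apply]
    simp [T, inner_neg_right, real_inner_comm]
  refine ⟨LinearMap.toContinuousLinearMap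
    ((φ.toLinearEquiv : G →ₗ[ℝ] En (2 * m)) ∘ₗ T ∘ₗ (φ.symm.toLinearEquiv : En (2 * m) →ₗ[ℝ] G)),
    ?_, ?_⟩
  · intro u
    change ‖φ (T (φ.symm u))‖ = ‖u‖
    rw [φ.norm_map, hT1, φ.symm.norm_map]
  · intro u
    change inner ℝ u (φ (T (φ.symm u))) = (0 : ℝ)
    have := hT2 (φ.symm u)
    rw [← φ.inner_map_map, φ.apply_symm_apply] at this
    exact this

theorem exists_random_J (m : ℕ) (hm : 1 ≤ m) :
    ∃ (Ω : Type) (_ : MeasurableSpace Ω) (P : Measure Ω) (_ : IsProbabilityMeasure P)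
      (J : Ω → En (2 * m) →ₗ[ℝ] En (2 * m)) (C : ℝ), 0 < C ∧
      (∀ u, Measurable (fun ω => J ω u)) ∧ (∀ ω u, ‖J ω u‖ = ‖u‖) ∧
      (∀ ω u, inner ℝ u (J ω u) = (0 : ℝ)) ∧
      ∀ u v : En (2 * m), ‖u‖ = 1 → ∀ r : ℝ, 0 < r →
        P {ω | ‖J ω u - v‖ ≤ r} ≤ ENNReal.ofReal (C * r ^ (2 * m - 2)) := by
  obtain ⟨J0, hJ0n, hJ0i⟩ := exists_J0 m
  have hcs : ContinuousStar (En (2 * m) →L[ℝ] En (2 * m)) :=
    ⟨(ContinuousLinearMap.adjoint : (En (2 * m) →L[ℝ] En (2 * m)) ≃ₗᵢ⋆[ℝ] _).continuous⟩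
  let G := unitary (En (2 * m) →L[ℝ] En (2 * m))
  haveI : CompactSpace G := by
    apply isCompact_iff_compactSpace.1
    apply Metric.isCompact_of_isClosed_isBounded isClosed_unitary
    rw [Metric.isBounded_iff_subset_closedBall 0]
    refine ⟨1, fun U hU => ?_⟩
    rw [mem_closedBall_zero_iff]
    haveI : Nontrivial (En (2 * m)) := by
      apply Module.nontrivial_of_finrank_pos (R := ℝ)
      rw [finrank_euclideanSpace_fin]
      omega
    exact (CStarRing.norm_of_mem_unitary hU).le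
  letI : MeasurableSpace G := borel G
  haveI : BorelSpace G := ⟨rfl⟩
  let K0 : TopologicalSpace.PositiveCompacts G := ⊤
  let P : Measure G := Measure.haarMeasure K0
  haveI hP : IsProbabilityMeasure P := by
    constructor
    have := Measure.haarMeasure_self (K₀ := K0)
    simpa [K0, P] using this
  let J : G → En (2 * m) →ₗ[ℝ] En (2 * m) := fun ω =>
    ((ω : En (2 * m) →L[ℝ] En (2 * m)) * J0 * ((star ω : G) : En (2 * m) →L[ℝ] En (2 * m)) :
      En (2 * m) →L[ℝ] En (2 * m))
  have hJ : ∀ ω u, J ω u = (ω : En (2 * m) →L[ℝ] En (2 * m))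
      (J0 (((star ω : G) : En (2 * m) →L[ℝ] En (2 * m)) u)) := fun ω u => rfl
  have hcont : ∀ u, Continuous (fun ω => J ω u) := by
    intro u
    have h1 : Continuous (fun ω : G => ((ω : En (2 * m) →L[ℝ] En (2 * m)) * J0 *
        ((star ω : G) : En (2 * m) →L[ℝ] En (2 * m)) : En (2 * m) →L[ℝ] En (2 * m))) := by
      apply Continuous.mul
      · exact continuous_subtype_val.mul continuous_const
      · exact continuous_subtype_val.comp continuous_star
    exact h1.clm_apply continuous_const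
  have hnorm : ∀ ω u, ‖J ω u‖ = ‖u‖ := by
    intro ω u
    rw [hJ, Unitary.norm_map, hJ0n, Unitary.norm_map]
  have hstar : ∀ (ω : G) (u : En (2 * m)), (ω : En (2 * m) →L[ℝ] En (2 * m))
      (((star ω : G) : En (2 * m) →L[ℝ] En (2 * m)) u) = u := by
    intro ω u
    exact congr($(Unitary.mul_star_self ω).val u)
  have hstar' : ∀ (ω : G) (u : En (2 * m)), ((star ω : G) : En (2 * m) →L[ℝ] En (2 * m))
      ((ω : En (2 * m) →L[ℝ] En (2 * m)) u) = u := by
    intro ω u
    exact congr($(Unitary.star_mul_self ω).val u)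
  have hinner : ∀ ω u, inner ℝ u (J ω u) = (0 : ℝ) := by
    intro ω u
    rw [hJ]
    conv_lhs => rw [← hstar ω u]
    rw [Unitary.inner_map_map, hstar]
    exact hJ0i _
  refine ⟨G, inferInstance, P, hP, J, 3 ^ (2 * m - 1), by positivity,
    fun u => (hcont u).measurable, hnorm, hinner, ?_⟩
  intro u v hu r hr
  by_cases hne : ∃ ω0, ‖J ω0 u - v‖ ≤ r
  swap
  · have : {ω | ‖J ω u - v‖ ≤ r} = ∅ := by
      ext ω
      simp only [Set.mem_ofPred_eq, Set.mem_empty_iff_false, iff_false]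
      exact fun h => hne ⟨ω, h⟩
    rw [this]
    simp
  obtain ⟨ω0, hω0⟩ := hne
  -- the hyperplane
  let F : Submodule ℝ (En (2 * m)) := (ℝ ∙ u)ᗮ
  have hF : ∀ ω, J ω u ∈ F := by
    intro ω
    rw [Submodule.mem_orthogonal_singleton_iff_inner_right]
    exact hinner ω u
  let Y : G → F := fun ω => ⟨J ω u, hF ω⟩
  have hY : Measurable Y := by
    apply Continuous.measurable
    exact (hcont u).subtype_mk _
  have hdim : Module.finrank ℝ F = 2 * m - 1 := by
    have h1 : u ≠ 0 := by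
      intro h
      rw [h, norm_zero] at hu
      exact zero_ne_one hu
    haveI : Fact (Module.finrank ℝ (En (2 * m)) = (2 * m - 1) + 1) := by
      constructor
      rw [finrank_euclideanSpace_fin]
      omega
    exact Submodule.finrank_orthogonal_span_singleton h1
  have hinv : ∀ q q' : F, ‖q‖ = 1 → ‖q'‖ = 1 → ∀ r : ℝ,
      P {ω | ‖Y ω - q‖ ≤ r} ≤ P {ω | ‖Y ω - q'‖ ≤ r} := by
    intro q q' hq hq' r
    let R : En (2 * m) ≃ₗᵢ[ℝ] En (2 * m) :=
      Submodule.reflection (ℝ ∙ ((q : En (2 * m)) - (q' : En (2 * m))))ᗮ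
    let k : G := Unitary.linearIsometryEquiv.symm R
    have hk : ∀ x, (k : En (2 * m) →L[ℝ] En (2 * m)) x = R x := fun x => rfl
    have hku : (k : En (2 * m) →L[ℝ] En (2 * m)) u = u := by
      rw [hk]
      apply Submodule.reflection_mem_subspace_eq_self
      rw [Submodule.mem_orthogonal_singleton_iff_inner_right, inner_sub_left]
      have h1 := q.2
      have h2 := q'.2
      rw [Submodule.mem_orthogonal_singleton_iff_inner_left] at h1 h2
      rw [h1, h2, sub_zero]
    have hksu : ((star k : G) : En (2 * m) →L[ℝ] En (2 * m)) u = u := by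
      conv_lhs => rw [← hku]
      exact hstar' k u
    have hkq : (k : En (2 * m) →L[ℝ] En (2 * m)) (q : En (2 * m)) = q' := by
      rw [hk]
      exact Submodule.reflection_sub (hq.trans hq'.symm)
    have hkJ : ∀ ω, J (k * ω) u = (k : En (2 * m) →L[ℝ] En (2 * m)) (J ω u) := by
      intro ω
      rw [hJ, hJ, star_mul]
      change (k : En (2 * m) →L[ℝ] En (2 * m)) ((ω : En (2 * m) →L[ℝ] En (2 * m))
        (J0 (((star ω : G) : En (2 * m) →L[ℝ] En (2 * m))
          (((star k : G) : En (2 * m) →L[ℝ] En (2 * m)) u)))) = _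
      rw [hksu]
    have hset : {ω | ‖Y ω - q‖ ≤ r} = (fun ω => k * ω) ⁻¹' {ω | ‖Y ω - q'‖ ≤ r} := by
      ext ω
      simp only [Set.mem_ofPred_eq, Set.mem_preimage]
      have h1 : ‖Y ω - q‖ = ‖J ω u - (q : En (2 * m))‖ := rfl
      have h2 : ‖Y (k * ω) - q'‖ = ‖J (k * ω) u - (q' : En (2 * m))‖ := rfl
      rw [h1, h2, hkJ, ← hkq, ← map_sub, Unitary.norm_map]
    rw [hset, measure_preimage_mul]
  have hmain := small_ball_sphere (2 * m - 1) hdim (by omega) P Y hY hinv (Y ω0)
    (by change ‖J ω0 u‖ = 1; rw [hnorm, hu]) r hr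
  refine le_trans (measure_mono ?_) (hmain.trans (le_of_eq ?_))
  · intro ω hω
    rw [Set.mem_ofPred_eq] at hω ⊢
    change ‖J ω u - J ω0 u‖ ≤ 2 * r
    have : J ω u - J ω0 u = (J ω u - v) - (J ω0 u - v) := by abel
    rw [this]
    refine (norm_sub_le _ _).trans ?_
    linarith
  · rw [show 2 * m - 1 - 1 = 2 * m - 2 by omega]

end

end Pool.Agent.H47A
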