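import Pool.Agent.Helper47_Angle.Osc

/-!
# Module M2: stability of the Gaussian form in the width
-/

set_option autoImplicit false
namespace Pool.Agent.H47A
open scoped BigOperators Classical ENNReal
open MeasureTheory
noncomputable section

/-- the Gaussian kernel as a Fourier integral -/
theorem gk_fourier {δ : ℝ} (hδ : 0 < δ) (t : ℝ) :
    ∫ τ : ℝ, Complex.exp (((τ * t : ℝ) : ℂ) * Complex.I) *
      ((Real.exp (-(δ ^ 2 * τ ^ 2 / 2)) : ℝ) : ℂ) = ((√(2 * Real.pi) * gk δ t : ℝ) : ℂ) := by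
  have hb : 0 < ((δ ^ 2 / 2 : ℝ) : ℂ).re := by
    rw [Complex.ofReal_re]; positivity
  have h := fourierIntegral_gaussian hb (t : ℂ)
  have h1 : ∀ τ : ℝ, Complex.exp (((τ * t : ℝ) : ℂ) * Complex.I) *
      ((Real.exp (-(δ ^ 2 * τ ^ 2 / 2)) : ℝ) : ℂ) =
      Complex.exp (Complex.I * t * τ) * Complex.exp (-((δ ^ 2 / 2 : ℝ) : ℂ) * (τ : ℂ) ^ 2) := by
    intro τ
    rw [Complex.ofReal_exp]
    congr 1
    · congr 1; push_cast; ring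
    · congr 1; push_cast; ring
  simp_rw [h1]
  rw [h]
  have h2 : ((Real.pi : ℂ) / ((δ ^ 2 / 2 : ℝ) : ℂ)) ^ (1 / 2 : ℂ) =
      ((√(Real.pi / (δ ^ 2 / 2)) : ℝ) : ℂ) := by
    rw [Real.sqrt_eq_rpow, Complex.ofReal_cpow (by positivity)]
    push_cast
    rfl
  rw [h2]
  have h3 : √(Real.pi / (δ ^ 2 / 2)) = √(2 * Real.pi) * δ⁻¹ := by
    rw [show Real.pi / (δ ^ 2 / 2) = (2 * Real.pi) / δ ^ 2 by field_simp,
      Real.sqrt_div (by positivity), Real.sqrt_sq hδ.le]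
    rfl
  rw [h3]
  unfold gk
  rw [← Complex.ofReal_pow, ← Complex.ofReal_neg, ]
  have h4 : Complex.exp (((-t ^ 2 : ℝ) : ℂ) / (4 * ((δ ^ 2 / 2 : ℝ) : ℂ))) =
      ((Real.exp (-(t ^ 2) / (2 * δ ^ 2)) : ℝ) : ℂ) := by
    rw [Complex.ofReal_exp]
    congr 1
    push_cast
    field_simp
    ring
  rw [h4]
  push_cast
  ring

theorem integrable_gauss {δ : ℝ} (hδ : 0 < δ) (t : ℝ) :
    Integrable (fun τ : ℝ => Complex.exp (((τ * t : ℝ) : ℂ) * Complex.I) *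
      ((Real.exp (-(δ ^ 2 * τ ^ 2 / 2)) : ℝ) : ℂ)) := by
  have h0 : Integrable (fun τ : ℝ => Real.exp (-(δ ^ 2 / 2) * τ ^ 2)) :=
    integrable_exp_neg_mul_sq (by positivity)
  refine h0.mono' ?_ ?_
  · apply Continuous.aestronglyMeasurable
    fun_prop
  · refine Filter.Eventually.of_forall fun τ => ?_
    rw [norm_mul, Complex.norm_exp_ofReal_mul_I, one_mul, Complex.norm_real, Real.norm_eq_abs,
      Real.abs_exp]
    apply le_of_eq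
    congr 1
    ring

/-- the exponential sum -/
def bsum {N : ℕ} {ι κ : Type} (I : Finset ι) (J : Finset κ) (X : ι → En N) (Z : κ → En N)
    (p : ι → ℝ) (q : κ → ℝ) (τ : ℝ) : ℂ :=
  ∑ i ∈ I, ∑ j ∈ J, ((p i * q j : ℝ) : ℂ) *
        Complex.exp (((τ * inner ℝ (X i) (Z j) : ℝ) : ℂ) * Complex.I)

theorem integrable_bsum {N : ℕ} {ι κ : Type} (I : Finset ι) (J : Finset κ) (X : ι → En N)
    (Z : κ → En N) (p : ι → ℝ) (q : κ → ℝ) {δ : ℝ} (hδ : 0 < δ) :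
    Integrable (fun τ : ℝ => bsum I J X Z p q τ * ((Real.exp (-(δ ^ 2 * τ ^ 2 / 2)) : ℝ) : ℂ)) := by
  have : (fun τ : ℝ => bsum I J X Z p q τ * ((Real.exp (-(δ ^ 2 * τ ^ 2 / 2)) : ℝ) : ℂ)) =
      fun τ : ℝ => ∑ i ∈ I, ∑ j ∈ J, ((p i * q j : ℝ) : ℂ) *
        (Complex.exp (((τ * inner ℝ (X i) (Z j) : ℝ) : ℂ) * Complex.I) *
          ((Real.exp (-(δ ^ 2 * τ ^ 2 / 2)) : ℝ) : ℂ)) := by
    ext τ
    rw [bsum, Finset.sum_mul]
    refine Finset.sum_congr rfl fun i _ => ?_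
    rw [Finset.sum_mul]
    refine Finset.sum_congr rfl fun j _ => ?_
    ring
  rw [this]
  refine integrable_finsetSum _ fun i _ => integrable_finsetSum _ fun j _ => ?_
  exact (integrable_gauss hδ _).const_mul _

theorem integral_bsum {N : ℕ} {ι κ : Type} (I : Finset ι) (J : Finset κ) (X : ι → En N)
    (Z : κ → En N) (p : ι → ℝ) (q : κ → ℝ) {δ : ℝ} (hδ : 0 < δ) :
    ∫ τ : ℝ, bsum I J X Z p q τ * ((Real.exp (-(δ ^ 2 * τ ^ 2 / 2)) : ℝ) : ℂ) =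
      ((√(2 * Real.pi) * ∑ i ∈ I, ∑ j ∈ J, p i * q j * gk δ (inner ℝ (X i) (Z j)) : ℝ) : ℂ) := by
  have : (fun τ : ℝ => bsum I J X Z p q τ * ((Real.exp (-(δ ^ 2 * τ ^ 2 / 2)) : ℝ) : ℂ)) =
      fun τ : ℝ => ∑ i ∈ I, ∑ j ∈ J, ((p i * q j : ℝ) : ℂ) *
        (Complex.exp (((τ * inner ℝ (X i) (Z j) : ℝ) : ℂ) * Complex.I) *
          ((Real.exp (-(δ ^ 2 * τ ^ 2 / 2)) : ℝ) : ℂ)) := by
    ext τ
    rw [bsum, Finset.sum_mul]
    refine Finset.sum_congr rfl fun i _ => ?_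
    rw [Finset.sum_mul]
    refine Finset.sum_congr rfl fun j _ => ?_
    ring
  have hij : ∀ i j, ∫ τ : ℝ, ((p i * q j : ℝ) : ℂ) *
        (Complex.exp (((τ * inner ℝ (X i) (Z j) : ℝ) : ℂ) * Complex.I) *
          ((Real.exp (-(δ ^ 2 * τ ^ 2 / 2)) : ℝ) : ℂ)) =
      ((√(2 * Real.pi) * (p i * q j * gk δ (inner ℝ (X i) (Z j))) : ℝ) : ℂ) := by
    intro i j
    rw [integral_const_mul, gk_fourier hδ]
    push_cast
    ring
  have hint : ∀ i j, Integrable (fun τ : ℝ => ((p i * q j : ℝ) : ℂ) *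
        (Complex.exp (((τ * inner ℝ (X i) (Z j) : ℝ) : ℂ) * Complex.I) *
          ((Real.exp (-(δ ^ 2 * τ ^ 2 / 2)) : ℝ) : ℂ))) :=
    fun i j => (integrable_gauss hδ _).const_mul _
  rw [this, integral_finsetSum _ (fun i _ => integrable_finsetSum _ fun j _ => hint i j)]
  simp only [Finset.mul_sum, Complex.ofReal_sum]
  refine Finset.sum_congr rfl fun i _ => ?_
  rw [integral_finsetSum _ (fun j _ => hint i j)]
  exact Finset.sum_congr rfl fun j _ => hij i j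

theorem norm_bsum_le {N : ℕ} {ι κ : Type} (I : Finset ι) (J : Finset κ) (X : ι → En N)
    (Z : κ → En N) (p : ι → ℝ) (q : κ → ℝ) (hp : ∀ i ∈ I, 0 ≤ p i) (hq : ∀ j ∈ J, 0 ≤ q j)
    (τ : ℝ) : ‖bsum I J X Z p q τ‖ ≤ (∑ i ∈ I, p i) * ∑ j ∈ J, q j := by
  rw [Finset.sum_mul_sum]
  refine (norm_sum_le _ _).trans (Finset.sum_le_sum fun i hi => ?_)
  refine (norm_sum_le _ _).trans (Finset.sum_le_sum fun j hj => ?_)
  rw [norm_mul, Complex.norm_exp_ofReal_mul_I, mul_one, Complex.norm_real, Real.norm_eq_abs,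
    abs_of_nonneg (mul_nonneg (hp i hi) (hq j hj))]

/-- elementary bounds for the difference of two Gaussians -/
theorem gdiff_nonneg_le {δ δ' τ : ℝ} (h0 : 0 < δ') (h : δ' ≤ δ) :
    |Real.exp (-(δ ^ 2 * τ ^ 2 / 2)) - Real.exp (-(δ' ^ 2 * τ ^ 2 / 2))| ≤
      min (Real.exp (-(δ' ^ 2 * τ ^ 2 / 2))) (min 1 (δ ^ 2 * τ ^ 2 / 2)) := by
  have h1 : δ' ^ 2 * τ ^ 2 ≤ δ ^ 2 * τ ^ 2 := by
    have : δ' ^ 2 ≤ δ ^ 2 := by nlinarith
    nlinarith [sq_nonneg τ]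
  have h2 : Real.exp (-(δ ^ 2 * τ ^ 2 / 2)) ≤ Real.exp (-(δ' ^ 2 * τ ^ 2 / 2)) :=
    Real.exp_le_exp.2 (by linarith)
  have h3 : 0 < Real.exp (-(δ ^ 2 * τ ^ 2 / 2)) := Real.exp_pos _
  have h4 : Real.exp (-(δ' ^ 2 * τ ^ 2 / 2)) ≤ 1 := by
    rw [Real.exp_le_one_iff]
    have : 0 ≤ δ' ^ 2 * τ ^ 2 := by positivity
    linarith
  have h5 : 1 - δ ^ 2 * τ ^ 2 / 2 ≤ Real.exp (-(δ ^ 2 * τ ^ 2 / 2)) := by
    have := Real.add_one_le_exp (-(δ ^ 2 * τ ^ 2 / 2))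
    linarith
  rw [abs_of_nonpos (by linarith)]
  refine le_min (by linarith) (le_min (by linarith) (by linarith))

theorem min_one_le {x : ℝ} (hx : 0 ≤ x) : min 1 (x ^ 2 / 2) ≤ x := by
  rcases le_total x 2 with h | h
  · exact (min_le_right _ _).trans (by nlinarith)
  · exact (min_le_left _ _).trans (by linarith)

theorem pointwise {B M C δ δ' ρ τ : ℝ} (hB : 0 ≤ B) (hM : 0 ≤ M) (hC : 0 ≤ C) (hb0 : B ≤ M)
    (hb1 : 1 ≤ |τ| → |τ| * ρ ≤ 1 → B ≤ C / |τ| ^ 3)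
    (hδ' : 0 < δ') (hδδ' : δ' ≤ δ) (hδ1 : δ ≤ 1) (hρ : 0 < ρ) (hρδ : ρ ≤ δ' ^ 2) :
    B * |Real.exp (-(δ ^ 2 * τ ^ 2 / 2)) - Real.exp (-(δ' ^ 2 * τ ^ 2 / 2))| ≤
      ((96 * M + 2 * C) * δ) * (1 + τ ^ 2)⁻¹ := by
  have hδ : 0 < δ := hδ'.trans_le hδδ'
  have hg := gdiff_nonneg_le (τ := τ) hδ' hδδ'
  generalize |Real.exp (-(δ ^ 2 * τ ^ 2 / 2)) - Real.exp (-(δ' ^ 2 * τ ^ 2 / 2))| = D at hg ⊢
  have hden : 0 < 1 + τ ^ 2 := by positivity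
  rw [← div_eq_mul_inv, le_div_iff₀ hden]
  have hτ2 : τ ^ 2 = |τ| ^ 2 := (sq_abs τ).symm
  have hMδ : 0 ≤ M * δ := by positivity
  have hCδ : 0 ≤ C * δ := by positivity
  rcases le_total D 0 with hD0 | hD0
  · have : B * D * (1 + τ ^ 2) ≤ 0 :=
      mul_nonpos_of_nonpos_of_nonneg (mul_nonpos_of_nonneg_of_nonpos hB hD0) hden.le
    nlinarith
  rcases le_total |τ| 1 with hτ | hτ
  · -- small frequencies
    have h1 : D ≤ δ ^ 2 * τ ^ 2 / 2 := hg.trans ((min_le_right _ _).trans (min_le_right _ _))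
    have h2 : τ ^ 2 ≤ 1 := by rw [hτ2]; nlinarith [abs_nonneg τ]
    have h3 : D ≤ δ / 2 := by
      have : δ ^ 2 * τ ^ 2 ≤ δ * 1 := mul_le_mul (by nlinarith) h2 (sq_nonneg τ) hδ.le
      linarith
    have h4 : B * D * (1 + τ ^ 2) ≤ M * (δ / 2) * 2 := by
      have h5 : 1 + τ ^ 2 ≤ 2 := by linarith
      gcongr
    nlinarith
  · rcases le_total (|τ| * ρ) 1 with hτρ | hτρ
    · -- middle frequencies
      have h1 : D ≤ δ * |τ| := by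
        refine hg.trans ((min_le_right _ _).trans ?_)
        have := min_one_le (x := δ * |τ|) (by positivity)
        rwa [mul_pow, sq_abs] at this
      have h2 : B * D * (1 + τ ^ 2) ≤ (C / |τ| ^ 3) * (δ * |τ|) * (2 * |τ| ^ 2) := by
        have := hb1 hτ hτρ
        have h6 : 1 + τ ^ 2 ≤ 2 * |τ| ^ 2 := by rw [hτ2]; nlinarith
        gcongr
      have h3 : (C / |τ| ^ 3) * (δ * |τ|) * (2 * |τ| ^ 2) = 2 * C * δ := by
        have : |τ| ≠ 0 := by positivity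
        field_simp
      nlinarith
    · -- high frequencies
      have h1 : D ≤ Real.exp (-(δ' ^ 2 * τ ^ 2 / 2)) := hg.trans (min_le_left _ _)
      have h2 : 1 ≤ δ' ^ 2 * |τ| := by nlinarith
      have h3 : |τ| / 2 ≤ δ' ^ 2 * τ ^ 2 / 2 := by
        rw [hτ2]; nlinarith
      have h4 : D ≤ Real.exp (-(|τ| / 2)) := h1.trans (Real.exp_le_exp.2 (by linarith))
      have h5 : 1 ≤ δ * |τ| := by
        have : δ' ^ 2 ≤ δ := by nlinarith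
        nlinarith
      have h6 : |τ| ^ 3 ≤ 48 * Real.exp (|τ| / 2) := by
        have := Real.pow_div_factorial_le_exp (|τ| / 2) (by positivity) 3
        norm_num [Nat.factorial] at this
        nlinarith
      have h7 : Real.exp (-(|τ| / 2)) * |τ| ^ 3 ≤ 48 := by
        have h8 : Real.exp (-(|τ| / 2)) * Real.exp (|τ| / 2) = 1 := by
          rw [← Real.exp_add]; simp
        have := mul_le_mul_of_nonneg_left h6 (Real.exp_pos (-(|τ| / 2))).le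
        nlinarith
      have h9 : B * D * (1 + τ ^ 2) ≤
          M * Real.exp (-(|τ| / 2)) * (2 * |τ| ^ 2 * (δ * |τ|)) := by
        have h6 : 1 + τ ^ 2 ≤ 2 * |τ| ^ 2 * (δ * |τ|) := by
          rw [hτ2]
          have : |τ| ^ 2 ≤ |τ| ^ 2 * (δ * |τ|) := le_mul_of_one_le_right (by positivity) h5
          nlinarith
        gcongr
      have h10 : M * Real.exp (-(|τ| / 2)) * (2 * |τ| ^ 2 * (δ * |τ|)) =
          2 * M * δ * (Real.exp (-(|τ| / 2)) * |τ| ^ 3) := by ring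
      have h11 : 2 * M * δ * (Real.exp (-(|τ| / 2)) * |τ| ^ 3) ≤ 2 * M * δ * 48 := by
        gcongr
      nlinarith

theorem gauss_stab (N : ℕ) (s A R : ℝ) (hs : (N : ℝ) / 2 + 3 ≤ s) (hA : 0 ≤ A) (hR : 1 ≤ R) :
    ∃ C : ℝ, 0 < C ∧ ∀ (ι κ : Type) (I : Finset ι) (J : Finset κ) (X : ι → En N) (Z : κ → En N)
      (p : ι → ℝ) (q : κ → ℝ) (ρ δ δ' : ℝ), 0 < ρ → Fro I X p A s ρ → Fro J Z q A s ρ →
      (∀ i ∈ I, ‖X i‖ ≤ R) → (∀ j ∈ J, ‖Z j‖ ≤ R) → 0 < δ' → δ' ≤ δ → δ ≤ 1 → ρ ≤ δ' ^ 2 →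
      |∑ i ∈ I, ∑ j ∈ J, p i * q j * gk δ (inner ℝ (X i) (Z j)) -
        ∑ i ∈ I, ∑ j ∈ J, p i * q j * gk δ' (inner ℝ (X i) (Z j))| ≤ C * δ ∧
      ∑ i ∈ I, ∑ j ∈ J, p i * q j * gk δ' (inner ℝ (X i) (Z j)) ≤ C := by
  have hs0 : 0 ≤ s := by
    have : (0 : ℝ) ≤ (N : ℝ) / 2 := by positivity
    linarith
  obtain ⟨C₁, hC₁, hosc⟩ := osc_bound N s A R hs0 hA hR
  set M : ℝ := (A * R ^ s) * (A * R ^ s) with hM
  have hM0 : 0 ≤ M := by positivity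
  set K : ℝ := 96 * M + 2 * √C₁ with hK
  have hK0 : 0 ≤ K := by positivity
  -- the main estimate
  have main : ∀ (ι κ : Type) (I : Finset ι) (J : Finset κ) (X : ι → En N) (Z : κ → En N)
      (p : ι → ℝ) (q : κ → ℝ) (ρ δ δ' : ℝ), 0 < ρ → Fro I X p A s ρ → Fro J Z q A s ρ →
      (∀ i ∈ I, ‖X i‖ ≤ R) → (∀ j ∈ J, ‖Z j‖ ≤ R) → 0 < δ' → δ' ≤ δ → δ ≤ 1 → ρ ≤ δ' ^ 2 →
      |∑ i ∈ I, ∑ j ∈ J, p i * q j * gk δ (inner ℝ (X i) (Z j)) -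
        ∑ i ∈ I, ∑ j ∈ J, p i * q j * gk δ' (inner ℝ (X i) (Z j))| ≤ (K * Real.pi) * δ := by
    intro ι κ I J X Z p q ρ δ δ' hρ hX hZ hXR hZR hδ' hδδ' hδ1 hρδ
    have hδ : 0 < δ := hδ'.trans_le hδδ'
    have hρ1 : ρ ≤ 1 := by nlinarith
    have hmX : ∑ i ∈ I, p i ≤ A * R ^ s := hX.mass_le (hρ1.trans hR) hXR
    have hmZ : ∑ j ∈ J, q j ≤ A * R ^ s := hZ.mass_le (hρ1.trans hR) hZR
    have hmZ0 : 0 ≤ ∑ j ∈ J, q j := Finset.sum_nonneg hZ.1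
    have hb0 : ∀ τ, ‖bsum I J X Z p q τ‖ ≤ M := fun τ =>
      (norm_bsum_le I J X Z p q hX.1 hZ.1 τ).trans
        (mul_le_mul hmX hmZ hmZ0 (by positivity))
    have hb1 : ∀ τ : ℝ, 1 ≤ |τ| → |τ| * ρ ≤ 1 → ‖bsum I J X Z p q τ‖ ≤ √C₁ / |τ| ^ 3 := by
      intro τ h1 h2
      have h3 := hosc ι κ I J X Z p q ρ τ hρ hX hZ hXR hZR h1 h2
      have h4 : |τ| ^ ((N : ℝ) - 2 * s) ≤ |τ| ^ (-6 : ℝ) :=
        Real.rpow_le_rpow_of_exponent_le h1 (by linarith)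
      have h5 : |τ| ^ (-6 : ℝ) = (1 / |τ| ^ 3) ^ 2 := by
        rw [Real.rpow_neg (abs_nonneg _)]
        rw [show (6 : ℝ) = ((6 : ℕ) : ℝ) by norm_num, Real.rpow_natCast]
        rw [div_pow, ← pow_mul, one_pow, one_div]
      have h6 : ‖bsum I J X Z p q τ‖ ^ 2 ≤ (√C₁ / |τ| ^ 3) ^ 2 := by
        calc ‖bsum I J X Z p q τ‖ ^ 2 ≤ C₁ * |τ| ^ ((N : ℝ) - 2 * s) := h3
          _ ≤ C₁ * |τ| ^ (-6 : ℝ) := by gcongr
          _ = (√C₁ / |τ| ^ 3) ^ 2 := by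
            rw [h5, div_pow, div_pow, Real.sq_sqrt hC₁.le]; ring
      exact le_of_sq_le_sq h6 (by positivity)
    -- pointwise bound
    have hpt : ∀ τ : ℝ, ‖bsum I J X Z p q τ * ((Real.exp (-(δ ^ 2 * τ ^ 2 / 2)) : ℝ) : ℂ) -
        bsum I J X Z p q τ * ((Real.exp (-(δ' ^ 2 * τ ^ 2 / 2)) : ℝ) : ℂ)‖ ≤
        (K * δ) * (1 + τ ^ 2)⁻¹ := by
      intro τ
      rw [← mul_sub, norm_mul, ← Complex.ofReal_sub, Complex.norm_real, Real.norm_eq_abs]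
      exact pointwise (norm_nonneg _) hM0 (Real.sqrt_nonneg _) (hb0 τ) (hb1 τ) hδ' hδδ' hδ1 hρ hρδ
    have hI : √(2 * Real.pi) * |∑ i ∈ I, ∑ j ∈ J, p i * q j * gk δ (inner ℝ (X i) (Z j)) -
        ∑ i ∈ I, ∑ j ∈ J, p i * q j * gk δ' (inner ℝ (X i) (Z j))| ≤ (K * δ) * Real.pi := by
      have e1 := integral_bsum I J X Z p q hδ
      have e2 := integral_bsum I J X Z p q hδ'
      have e3 := integral_sub (integrable_bsum I J X Z p q hδ) (integrable_bsum I J X Z p q hδ')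
      rw [e1, e2, ← Complex.ofReal_sub, ← mul_sub] at e3
      have e4 : ‖∫ τ : ℝ, (bsum I J X Z p q τ * ((Real.exp (-(δ ^ 2 * τ ^ 2 / 2)) : ℝ) : ℂ) -
        bsum I J X Z p q τ * ((Real.exp (-(δ' ^ 2 * τ ^ 2 / 2)) : ℝ) : ℂ))‖ ≤
          ∫ τ : ℝ, (K * δ) * (1 + τ ^ 2)⁻¹ :=
        norm_integral_le_of_norm_le (integrable_inv_one_add_sq.const_mul _)
          (Filter.Eventually.of_forall hpt)
      rw [e3, integral_const_mul, integral_univ_inv_one_add_sq, Complex.norm_real,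
        Real.norm_eq_abs, abs_mul, abs_of_nonneg (Real.sqrt_nonneg _)] at e4
      exact e4
    have h1 : 1 ≤ √(2 * Real.pi) := by
      rw [Real.one_le_sqrt]
      nlinarith [Real.pi_gt_three]
    have h2 := abs_nonneg (∑ i ∈ I, ∑ j ∈ J, p i * q j * gk δ (inner ℝ (X i) (Z j)) -
        ∑ i ∈ I, ∑ j ∈ J, p i * q j * gk δ' (inner ℝ (X i) (Z j)))
    nlinarith
  refine ⟨K * Real.pi + M + 1, by positivity, ?_⟩
  intro ι κ I J X Z p q ρ δ δ' hρ hX hZ hXR hZR hδ' hδδ' hδ1 hρδ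
  have hδ : 0 < δ := hδ'.trans_le hδδ'
  have hρ1 : ρ ≤ 1 := by nlinarith
  have hmX : ∑ i ∈ I, p i ≤ A * R ^ s := hX.mass_le (hρ1.trans hR) hXR
  have hmZ : ∑ j ∈ J, q j ≤ A * R ^ s := hZ.mass_le (hρ1.trans hR) hZR
  have hmZ0 : 0 ≤ ∑ j ∈ J, q j := Finset.sum_nonneg hZ.1
  constructor
  · have h1 := main ι κ I J X Z p q ρ δ δ' hρ hX hZ hXR hZR hδ' hδδ' hδ1 hρδ
    nlinarith
  · have h1 := main ι κ I J X Z p q ρ 1 δ' hρ hX hZ hXR hZR hδ' (hδδ'.trans hδ1) le_rfl hρδ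
    have h2 : ∑ i ∈ I, ∑ j ∈ J, p i * q j * gk 1 (inner ℝ (X i) (Z j)) ≤ M := by
      calc ∑ i ∈ I, ∑ j ∈ J, p i * q j * gk 1 (inner ℝ (X i) (Z j))
          ≤ ∑ i ∈ I, ∑ j ∈ J, p i * q j := by
            refine Finset.sum_le_sum fun i hi => Finset.sum_le_sum fun j hj => ?_
            have h3 := gk_le one_pos (inner ℝ (X i) (Z j))
            rw [inv_one] at h3
            exact mul_le_of_le_one_right (mul_nonneg (hX.1 i hi) (hZ.1 j hj)) h3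
        _ = (∑ i ∈ I, p i) * ∑ j ∈ J, q j := by rw [Finset.sum_mul_sum]
        _ ≤ M := mul_le_mul hmX hmZ hmZ0 (by positivity)
    have h4 := (abs_le.1 h1).1
    linarith

end
end Pool.Agent.H47A
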